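import Pool.Agent.Helper21.EV.Prob

/-!
# The exact probability that two adjacent clusters wind around the cylinder: conclusion
-/

namespace Pool.Agent.Helper21.EV

open MeasureTheory ProbabilityTheory Filter Topology Relation
open Pool.Agent.H863R2.Cyl
open Pool.Agent.H988R2.Perc (Word)
open Pool.Agent.Helper21.ID (rw1)

/-- the real kernel -/
noncomputable def kr (f : Word → Word → ℕ) (w' w : Word) : ℝ :=
  if f w' w = 0 ∧ f (rotl w') (rotl w) = 0 then 1 else 0

theorem kr_nonneg (f : Word → Word → ℕ) (w' w : Word) : 0 ≤ kr f w' w := by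
  unfold kr; split_ifs <;> norm_num

theorem kr_le_one (f : Word → Word → ℕ) (w' w : Word) : kr f w' w ≤ 1 := by
  unfold kr; split_ifs <;> norm_num

/-- the two adjacent sites `(0,t0)` and `(1,t0)` both wrap -/
def WW (m : ℕ) (j t : ℤ) : Set (Fin (m + 1) × ℤ → Bool) :=
  {ω | Wraps ω (j, t) ∧ Wraps ω (j + 1, t)}

theorem measurableSet_WW (m : ℕ) (j t : ℤ) : MeasurableSet (WW m j t) :=
  (measurableSet_wraps _).inter (measurableSet_wraps _)

/-- rows with alternating rows on both sides -/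
def GG (m : ℕ) (t0 : ℤ) (M : ℕ) : Set (Fin (m + 1) × ℤ → Bool) :=
  (Bad (alt m) (t0 - M) M)ᶜ ∩ (Bad (fun j => !alt m j) t0 M)ᶜ

theorem measurableSet_GG (m : ℕ) (t0 : ℤ) (M : ℕ) : MeasurableSet (GG m t0 M) :=
  (measurableSet_bad _ _ _).compl.inter (measurableSet_bad _ _ _).compl

theorem wrap_iff {n : ℕ} {f : Word → Word → ℕ} (hf : FSpec f)
    {ω : Fin (2 * n + 1 + 1) × ℤ → Bool} {t0 : ℤ} {M : ℕ} (hω : ω ∈ GG (2 * n + 1) t0 M)
    (σ τ : Wd (2 * n + 1 + 1)) : ω ∈ WW (2 * n + 1) 0 t0 ↔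
      (f (rows (2 * n + 1) (lowc ω t0 M) M σ).1 (rows (2 * n + 1) (uppc ω t0 M) M τ).1 = 0 ∧
      f (rotl (rows (2 * n + 1) (lowc ω t0 M) M σ).1)
        (rotl (rows (2 * n + 1) (uppc ω t0 M) M τ).1) = 0) := by
  have e1 : ∃ s : Fin M, (fun j => ω (j, t0 - M + (s : ℕ))) = alt (2 * n + 1) := by
    by_contra hc
    push Not at hc
    exact hω.1 hc
  have e2 : ∃ s : Fin M, (fun j => ω (j, t0 + (s : ℕ))) = fun j => !alt (2 * n + 1) j := by
    by_contra hc
    push Not at hc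
    exact hω.2 hc
  obtain ⟨s1, h1⟩ := e1
  obtain ⟨s2, h2⟩ := e2
  have b1 := s1.2
  have b2 := s2.2
  have hu : uppc ω t0 M (M - 1 - s2) = alt (2 * n + 1) := by
    funext j
    have h3 := congrFun h2 j
    show (!ω (j, t0 + (M : ℤ) - 1 - ((M - 1 - (s2 : ℕ) : ℕ) : ℤ))) = _
    rw [show t0 + (M : ℤ) - 1 - ((M - 1 - (s2 : ℕ) : ℕ) : ℤ) = t0 + ((s2 : ℕ) : ℤ) by omega]
    have h4 : ω (j, t0 + ((s2 : ℕ) : ℤ)) = !alt (2 * n + 1) j := h3
    rw [h4, Bool.not_not]
  rw [ker_iff hf]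
  have hl := fun a b => link_iff (n := n) (ω := ω) (t0 := t0) (M := M) (s1 := s1)
    (s2 := M - 1 - s2) b1 (by omega) h1 hu σ τ a b
  rw [← hl, ← hl]
  rfl

theorem value0 {n : ℕ} {ε : ℝ} {p : ℤ → unitInterval} (hp : Ell ε p) (t0 : ℤ) :
    (coins (2 * n + 1) p).real (WW (2 * n + 1) 0 t0) = pvE (n + 1) := by
  classical
  obtain ⟨μ, m0, m1, m2, -, -⟩ := markov_exists (2 * n + 1)
  obtain ⟨f, hf⟩ := exists_F
  have hv : ∑ σ, ∑ τ, μ σ * μ τ * kr f σ.1 τ.1 = pvE (n + 1) := by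
    have h := value (n := n) (m := 2 * n + 1) (by ring) hf μ m1 m2
    have e : ((∑ σ, ∑ τ, μ σ * μ τ * kr f σ.1 τ.1 : ℝ) : ℂ) = ((pvE (n + 1) : ℝ) : ℂ) := by
      rw [← h]
      push_cast
      refine Finset.sum_congr rfl fun σ _ => Finset.sum_congr rfl fun τ _ => ?_
      unfold kr ck
      split_ifs
      · push_cast; ring
      · push_cast; ring
    exact_mod_cast e
  -- the averaged indicator
  let G : (M : ℕ) → (Fin M → Fin (2 * n + 1 + 1) → Bool) × (Fin M → Fin (2 * n + 1 + 1) → Bool) → ℝ :=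
    fun M x => ∑ σ, ∑ τ, μ σ * μ τ *
      (kr f (rows (2 * n + 1) (ex x.1) M σ).1 (rows (2 * n + 1) (ex x.2) M τ).1)
  have hint : ∀ M : ℕ, ∫ ω, G M (win t0 M ω) ∂(coins (2 * n + 1) p) = pvE (n + 1) := by
    intro M
    rw [integral_win]
    set W1 : (Fin M → Fin (2 * n + 1 + 1) → Bool) → ℝ :=
      fun a => ∏ s : Fin M, rw1 (p (t0 - M + (s : ℕ)) : ℝ) (a s) with hW1
    set W2 : (Fin M → Fin (2 * n + 1 + 1) → Bool) → ℝ :=
      fun b => ∏ s : Fin M, rw1 (1 - (p (t0 + M - 1 - (s : ℕ)) : ℝ)) (b s) with hW2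
    have r1 : ∀ g : Wd (2 * n + 1 + 1) → ℝ, ∑ a, W1 a * ∑ σ, μ σ * g (rows (2 * n + 1) (ex a) M σ)
        = ∑ σ, μ σ * g σ := fun g =>
      rows_stat_bias (2 * n + 1) μ m1 m2 M (fun s => (p (t0 - M + (s : ℕ)) : ℝ)) g
    have r2 : ∀ g : Wd (2 * n + 1 + 1) → ℝ, ∑ a, W2 a * ∑ σ, μ σ * g (rows (2 * n + 1) (ex a) M σ)
        = ∑ σ, μ σ * g σ := fun g =>
      rows_stat_bias (2 * n + 1) μ m1 m2 M (fun s => 1 - (p (t0 + M - 1 - (s : ℕ)) : ℝ)) g
    have e1 : ∑ a, ∑ b, W1 a * W2 b * G M (a, b) = ∑ b, W2 b * ∑ τ, μ τ *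
        (∑ a, W1 a * ∑ σ, μ σ *
          (fun σ' : Wd (2 * n + 1 + 1) => kr f σ'.1 (rows (2 * n + 1) (ex b) M τ).1)
            (rows (2 * n + 1) (ex a) M σ)) := by
      rw [Finset.sum_comm]
      refine Finset.sum_congr rfl fun b _ => ?_
      have e2 : ∀ a, W1 a * W2 b * G M (a, b) = ∑ τ, W2 b * (μ τ * (W1 a * ∑ σ, μ σ *
          (kr f (rows (2 * n + 1) (ex a) M σ).1 (rows (2 * n + 1) (ex b) M τ).1))) := by
        intro a
        show W1 a * W2 b * ∑ σ, ∑ τ, _ = _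
        rw [Finset.sum_comm, Finset.mul_sum]
        refine Finset.sum_congr rfl fun τ _ => ?_
        rw [Finset.mul_sum, Finset.mul_sum, Finset.mul_sum, Finset.mul_sum]
        refine Finset.sum_congr rfl fun σ _ => ?_
        ring
      simp only [e2]
      rw [Finset.sum_comm, Finset.mul_sum]
      refine Finset.sum_congr rfl fun τ _ => ?_
      rw [← Finset.mul_sum, ← Finset.mul_sum]
    show ∑ a, ∑ b, W1 a * W2 b * G M (a, b) = pvE (n + 1)
    rw [e1]
    have e4 : ∑ b, W2 b * ∑ τ, μ τ *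
        (∑ a, W1 a * ∑ σ, μ σ *
          (fun σ' : Wd (2 * n + 1 + 1) => kr f σ'.1 (rows (2 * n + 1) (ex b) M τ).1)
            (rows (2 * n + 1) (ex a) M σ)) =
        ∑ b, W2 b * ∑ τ, μ τ * ∑ σ, μ σ * kr f σ.1 (rows (2 * n + 1) (ex b) M τ).1 := by
      refine Finset.sum_congr rfl fun b _ => ?_
      congr 1
      refine Finset.sum_congr rfl fun τ _ => ?_
      exact congrArg (fun x => μ τ * x)
        (r1 (fun σ' => kr f σ'.1 (rows (2 * n + 1) (ex b) M τ).1))
    rw [e4]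
    refine (r2 (fun τ' => ∑ σ, μ σ * kr f σ.1 τ'.1)).trans ?_
    rw [← hv, Finset.sum_comm]
    refine Finset.sum_congr rfl fun τ _ => ?_
    rw [Finset.mul_sum]
    refine Finset.sum_congr rfl fun σ _ => ?_
    ring
  have hrow1 : ∀ ω (M : ℕ) σ, rows (2 * n + 1) (ex (win t0 M ω).1) M σ
      = rows (2 * n + 1) (lowc ω t0 M) M σ := by
    intro ω M σ
    apply rows_congr'
    intro t ht
    unfold ex
    rw [dif_pos ht]
    rfl
  have hrow2 : ∀ ω (M : ℕ) σ, rows (2 * n + 1) (ex (win t0 M ω).2) M σ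
      = rows (2 * n + 1) (uppc ω t0 M) M σ := by
    intro ω M σ
    apply rows_congr'
    intro t ht
    unfold ex
    rw [dif_pos ht]
    rfl
  have hG0 : ∀ M x, 0 ≤ G M x := fun M x => Finset.sum_nonneg fun σ _ =>
    Finset.sum_nonneg fun τ _ => mul_nonneg (mul_nonneg (m0 σ) (m0 τ)) (kr_nonneg _ _ _)
  have hG1 : ∀ M x, G M x ≤ 1 := by
    intro M x
    calc G M x ≤ ∑ σ, ∑ τ, μ σ * μ τ := by
          refine Finset.sum_le_sum fun σ _ => Finset.sum_le_sum fun τ _ => ?_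
          exact mul_le_of_le_one_right (mul_nonneg (m0 σ) (m0 τ)) (kr_le_one _ _ _)
      _ = 1 := by rw [← Finset.sum_mul_sum, m1, one_mul]
  have hmeas : ∀ M : ℕ, Measurable fun ω => G M (win t0 M ω) := fun M =>
    (measurable_of_finite (G M)).comp (measurable_win t0 M)
  have hintg : ∀ M : ℕ, Integrable (fun ω => G M (win t0 M ω)) (coins (2 * n + 1) p) := by
    intro M
    refine Integrable.of_bound (hmeas M).aestronglyMeasurable 1 (Eventually.of_forall fun ω => ?_)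
    rw [Real.norm_eq_abs, abs_of_nonneg (hG0 _ _)]
    exact hG1 _ _
  -- on the good event the averaged indicator is the indicator
  have hgood : ∀ M ω, ω ∈ GG (2 * n + 1) t0 M →
      (ω ∈ WW (2 * n + 1) 0 t0 → G M (win t0 M ω) = 1) ∧
      (ω ∉ WW (2 * n + 1) 0 t0 → G M (win t0 M ω) = 0) := by
    intro M ω hω
    constructor
    · intro h
      have e4 : ∀ σ τ, kr f (rows (2 * n + 1) (ex (win t0 M ω).1) M σ).1
          (rows (2 * n + 1) (ex (win t0 M ω).2) M τ).1 = 1 := by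
        intro σ τ
        rw [hrow1, hrow2]
        unfold kr
        rw [if_pos ((wrap_iff hf hω σ τ).1 h)]
      show ∑ σ, ∑ τ, μ σ * μ τ * kr f (rows (2 * n + 1) (ex (win t0 M ω).1) M σ).1
          (rows (2 * n + 1) (ex (win t0 M ω).2) M τ).1 = 1
      simp only [e4, mul_one]
      rw [← Finset.sum_mul_sum, m1, one_mul]
    · intro h
      have e4 : ∀ σ τ, kr f (rows (2 * n + 1) (ex (win t0 M ω).1) M σ).1
          (rows (2 * n + 1) (ex (win t0 M ω).2) M τ).1 = 0 := by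
        intro σ τ
        rw [hrow1, hrow2]
        unfold kr
        rw [if_neg (fun h' => h ((wrap_iff hf hω σ τ).2 h'))]
      show ∑ σ, ∑ τ, μ σ * μ τ * kr f (rows (2 * n + 1) (ex (win t0 M ω).1) M σ).1
          (rows (2 * n + 1) (ex (win t0 M ω).2) M τ).1 = 0
      simp only [e4, mul_zero, Finset.sum_const_zero]
  have hbad : ∀ M : ℕ, (coins (2 * n + 1) p).real (GG (2 * n + 1) t0 M)ᶜ ≤
      2 * (1 - ε ^ (2 * n + 1 + 1)) ^ M := by
    intro M
    have e : (GG (2 * n + 1) t0 M)ᶜ =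
        Bad (alt (2 * n + 1)) (t0 - M) M ∪ Bad (fun j => !alt (2 * n + 1) j) t0 M := by
      unfold GG
      rw [Set.compl_inter, compl_compl, compl_compl]
    rw [e]
    refine le_trans (measureReal_union_le _ _) ?_
    have h3 := bad_le hp (alt (2 * n + 1)) (t0 - M) M
    have h4 := bad_le hp (fun j => !alt (2 * n + 1) j) t0 M
    linarith
  have mW := measurableSet_WW (2 * n + 1) 0 t0
  have hup : ∀ M : ℕ, (coins (2 * n + 1) p).real (WW (2 * n + 1) 0 t0) ≤
      pvE (n + 1) + 2 * (1 - ε ^ (2 * n + 1 + 1)) ^ M := by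
    intro M
    have mA := measurableSet_GG (2 * n + 1) t0 M
    have h1 : (coins (2 * n + 1) p).real (WW (2 * n + 1) 0 t0 ∩ GG (2 * n + 1) t0 M) ≤ pvE (n + 1) := by
      rw [← hint M, ← integral_indicator_one (mW.inter mA)]
      refine integral_mono ?_ (hintg M) ?_
      · exact (integrable_const (1 : ℝ)).indicator (mW.inter mA)
      · intro ω
        show (WW (2 * n + 1) 0 t0 ∩ GG (2 * n + 1) t0 M).indicator 1 ω ≤ G M (win t0 M ω)
        by_cases h : ω ∈ WW (2 * n + 1) 0 t0 ∩ GG (2 * n + 1) t0 M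
        · rw [Set.indicator_of_mem h, (hgood M ω h.2).1 h.1]
          exact le_refl _
        · rw [Set.indicator_of_notMem h]
          exact hG0 _ _
    have h2 : (coins (2 * n + 1) p).real (WW (2 * n + 1) 0 t0) ≤
        (coins (2 * n + 1) p).real (WW (2 * n + 1) 0 t0 ∩ GG (2 * n + 1) t0 M) +
        (coins (2 * n + 1) p).real (GG (2 * n + 1) t0 M)ᶜ := by
      refine le_trans (measureReal_mono (s₂ := (WW (2 * n + 1) 0 t0 ∩ GG (2 * n + 1) t0 M) ∪
        (GG (2 * n + 1) t0 M)ᶜ) ?_) (measureReal_union_le _ _)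
      intro ω hω
      by_cases h3 : ω ∈ GG (2 * n + 1) t0 M
      · exact Or.inl ⟨hω, h3⟩
      · exact Or.inr h3
    have := hbad M
    linarith
  have hdown : ∀ M : ℕ, pvE (n + 1) ≤ (coins (2 * n + 1) p).real (WW (2 * n + 1) 0 t0) +
      2 * (1 - ε ^ (2 * n + 1 + 1)) ^ M := by
    intro M
    have mA := measurableSet_GG (2 * n + 1) t0 M
    have h1 : pvE (n + 1) ≤
        (coins (2 * n + 1) p).real (WW (2 * n + 1) 0 t0 ∪ (GG (2 * n + 1) t0 M)ᶜ) := by
      rw [← hint M, ← integral_indicator_one (mW.union mA.compl)]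
      refine integral_mono (hintg M) ?_ ?_
      · exact (integrable_const (1 : ℝ)).indicator (mW.union mA.compl)
      · intro ω
        show G M (win t0 M ω) ≤ (WW (2 * n + 1) 0 t0 ∪ (GG (2 * n + 1) t0 M)ᶜ).indicator 1 ω
        by_cases h : ω ∈ WW (2 * n + 1) 0 t0 ∪ (GG (2 * n + 1) t0 M)ᶜ
        · rw [Set.indicator_of_mem h]
          exact hG1 _ _
        · rw [Set.indicator_of_notMem h]
          have h3 : ω ∉ WW (2 * n + 1) 0 t0 := fun h' => h (Or.inl h')
          have h4 : ω ∈ GG (2 * n + 1) t0 M := by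
            by_contra h'
            exact h (Or.inr h')
          rw [(hgood M ω h4).2 h3]
    have h2 := measureReal_union_le (μ := coins (2 * n + 1) p) (WW (2 * n + 1) 0 t0)
      (GG (2 * n + 1) t0 M)ᶜ
    have := hbad M
    linarith
  have hlim : Tendsto (fun M : ℕ => 2 * (1 - ε ^ (2 * n + 1 + 1)) ^ M) atTop (𝓝 0) := by
    have := (tendsto_bad (m := 2 * n + 1) hp).const_mul 2
    simpa using this
  apply le_antisymm
  · have h1 : Tendsto (fun M : ℕ => pvE (n + 1) + 2 * (1 - ε ^ (2 * n + 1 + 1)) ^ M) atTop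
        (𝓝 (pvE (n + 1) + 0)) := hlim.const_add _
    rw [add_zero] at h1
    exact ge_of_tendsto' h1 hup
  · have h1 : Tendsto (fun M : ℕ => (coins (2 * n + 1) p).real (WW (2 * n + 1) 0 t0) +
        2 * (1 - ε ^ (2 * n + 1 + 1)) ^ M) atTop
        (𝓝 ((coins (2 * n + 1) p).real (WW (2 * n + 1) 0 t0) + 0)) := hlim.const_add _
    rw [add_zero] at h1
    exact ge_of_tendsto' h1 hdown

theorem preim_WW (m : ℕ) (j k t : ℤ) :
    (fun (ω : Fin (m + 1) × ℤ → Bool) z => ω (rotE m k z)) ⁻¹' (WW m j t) = WW m (j + k) t := by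
  ext ω
  show (Wraps (fun z => ω (rotE m k z)) (j, t) ∧ Wraps (fun z => ω (rotE m k z)) (j + 1, t)) ↔
    (Wraps ω (j + k, t) ∧ Wraps ω (j + k + 1, t))
  rw [wraps_rot, wraps_rot, show j + 1 + k = j + k + 1 by ring]

theorem value_v {n : ℕ} {ε : ℝ} {p : ℤ → unitInterval} (hp : Ell ε p) (j t : ℤ) :
    (coins (2 * n + 1) p).real (WW (2 * n + 1) j t) = pvE (n + 1) := by
  have h := real_rot p j (measurableSet_WW (2 * n + 1) 0 t)
  rw [preim_WW, zero_add, value0 hp] at h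
  exact h

/-! ### the vertical neighbours -/

/-- the two sites `(j,t)` and `(j,t+1)` both wrap -/
def HH (m : ℕ) (j t : ℤ) : Set (Fin (m + 1) × ℤ → Bool) :=
  {ω | Wraps ω (j, t) ∧ Wraps ω (j, t + 1)}

theorem measurableSet_HH (m : ℕ) (j t : ℤ) : MeasurableSet (HH m j t) :=
  (measurableSet_wraps _).inter (measurableSet_wraps _)

theorem wraps_congr_ur {m : ℕ} {ω : Fin (m + 1) × ℤ → Bool} {j t : ℤ}
    (h : ω (col m j, t) = false) : Wraps ω (j, t) ↔ Wraps ω (j + 1, t + 1) := by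
  have hc : col m (j + (m + 1)) = col m j := by
    unfold col
    apply Fin.ext
    simp
  have h1 := Link.ur (ω := ω) j t h
  have h2 := Link.ur (ω := ω) (j + (m + 1)) t (by rw [hc]; exact h)
  unfold Wraps
  show EqvGen (Link ω) (j, t) (j + (m + 1), t) ↔
    EqvGen (Link ω) (j + 1, t + 1) (j + 1 + (m + 1), t + 1)
  rw [show j + 1 + ((m : ℤ) + 1) = j + (m + 1) + 1 by ring]
  constructor
  · intro h3
    exact ((EqvGen.rel _ _ h1).symm.trans _ _ _ h3).trans _ _ _ (EqvGen.rel _ _ h2)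
  · intro h3
    exact ((EqvGen.rel _ _ h1).trans _ _ _ h3).trans _ _ _ (EqvGen.rel _ _ h2).symm

theorem wraps_congr_ul {m : ℕ} {ω : Fin (m + 1) × ℤ → Bool} {j t : ℤ}
    (h : ω (col m j, t) = true) : Wraps ω (j + 1, t) ↔ Wraps ω (j, t + 1) := by
  have hc : col m (j + (m + 1)) = col m j := by
    unfold col
    apply Fin.ext
    simp
  have h1 := Link.ul (ω := ω) j t h
  have h2 := Link.ul (ω := ω) (j + (m + 1)) t (by rw [hc]; exact h)
  unfold Wraps
  show EqvGen (Link ω) (j + 1, t) (j + 1 + (m + 1), t) ↔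
    EqvGen (Link ω) (j, t + 1) (j + (m + 1), t + 1)
  rw [show j + 1 + ((m : ℤ) + 1) = j + (m + 1) + 1 by ring]
  constructor
  · intro h3
    exact ((EqvGen.rel _ _ h1).symm.trans _ _ _ h3).trans _ _ _ (EqvGen.rel _ _ h2)
  · intro h3
    exact ((EqvGen.rel _ _ h1).trans _ _ _ h3).trans _ _ _ (EqvGen.rel _ _ h2).symm

theorem preim_HH (m : ℕ) (j k t : ℤ) :
    (fun (ω : Fin (m + 1) × ℤ → Bool) z => ω (rotE m k z)) ⁻¹' (HH m j t) = HH m (j + k) t := by
  ext ω
  show (Wraps (fun z => ω (rotE m k z)) (j, t) ∧ Wraps (fun z => ω (rotE m k z)) (j, t + 1)) ↔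
    (Wraps ω (j + k, t) ∧ Wraps ω (j + k, t + 1))
  rw [wraps_rot, wraps_rot]

theorem square {m : ℕ} (p : ℤ → unitInterval) (j t : ℤ) :
    (coins m p).real (HH m j t) + (coins m p).real (HH m (j + 1) t) =
      (coins m p).real (WW m j t) + (coins m p).real (WW m j (t + 1)) := by
  have h1 : ∀ S : Set (Fin (m + 1) × ℤ → Bool), MeasurableSet S → (coins m p).real S =
      ∫ ω, S.indicator (1 : (Fin (m + 1) × ℤ → Bool) → ℝ) ω ∂(coins m p) := fun S hS =>
    (integral_indicator_one hS).symm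
  have hi : ∀ S : Set (Fin (m + 1) × ℤ → Bool), MeasurableSet S →
      Integrable (fun ω => S.indicator (1 : (Fin (m + 1) × ℤ → Bool) → ℝ) ω) (coins m p) :=
    fun S hS => (integrable_const (1 : ℝ)).indicator hS
  have a1 := measurableSet_HH m j t
  have a2 := measurableSet_HH m (j + 1) t
  have a3 := measurableSet_WW m j t
  have a4 := measurableSet_WW m j (t + 1)
  rw [h1 _ a1, h1 _ a2, h1 _ a3, h1 _ a4, ← integral_add (hi _ a1) (hi _ a2),
    ← integral_add (hi _ a3) (hi _ a4)]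
  refine integral_congr_ae (Eventually.of_forall fun ω => ?_)
  show (HH m j t).indicator (1 : (Fin (m + 1) × ℤ → Bool) → ℝ) ω +
      (HH m (j + 1) t).indicator (1 : (Fin (m + 1) × ℤ → Bool) → ℝ) ω =
    (WW m j t).indicator (1 : (Fin (m + 1) × ℤ → Bool) → ℝ) ω +
      (WW m j (t + 1)).indicator (1 : (Fin (m + 1) × ℤ → Bool) → ℝ) ω
  have hind : ∀ S T : Set (Fin (m + 1) × ℤ → Bool), (ω ∈ S ↔ ω ∈ T) →
      S.indicator (1 : (Fin (m + 1) × ℤ → Bool) → ℝ) ω =
        T.indicator (1 : (Fin (m + 1) × ℤ → Bool) → ℝ) ω := by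
    intro S T h
    by_cases h3 : ω ∈ S
    · rw [Set.indicator_of_mem h3, Set.indicator_of_mem (h.1 h3)]
    · rw [Set.indicator_of_notMem h3, Set.indicator_of_notMem (fun h4 => h3 (h.2 h4))]
  cases hω : ω (col m j, t) with
  | false =>
    have hw := wraps_congr_ur hω
    have e1 := hind (HH m j t) (WW m j (t + 1)) (by
      show (Wraps ω (j, t) ∧ Wraps ω (j, t + 1)) ↔ (Wraps ω (j, t + 1) ∧ Wraps ω (j + 1, t + 1))
      rw [hw]; exact and_comm)
    have e2 := hind (HH m (j + 1) t) (WW m j t) (by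
      show (Wraps ω (j + 1, t) ∧ Wraps ω (j + 1, t + 1)) ↔ (Wraps ω (j, t) ∧ Wraps ω (j + 1, t))
      rw [← hw]; exact and_comm)
    rw [e1, e2]
    ring
  | true =>
    have hw := wraps_congr_ul hω
    have e1 := hind (HH m j t) (WW m j t) (by
      show (Wraps ω (j, t) ∧ Wraps ω (j, t + 1)) ↔ (Wraps ω (j, t) ∧ Wraps ω (j + 1, t))
      rw [← hw])
    have e2 := hind (HH m (j + 1) t) (WW m j (t + 1)) (by
      show (Wraps ω (j + 1, t) ∧ Wraps ω (j + 1, t + 1)) ↔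
        (Wraps ω (j, t + 1) ∧ Wraps ω (j + 1, t + 1))
      rw [hw])
    rw [e1, e2]

theorem value_h {n : ℕ} {ε : ℝ} {p : ℤ → unitInterval} (hp : Ell ε p) (j t : ℤ) :
    (coins (2 * n + 1) p).real (HH (2 * n + 1) j t) = pvE (n + 1) := by
  have h := real_rot p 1 (measurableSet_HH (2 * n + 1) j t)
  rw [preim_HH] at h
  have h2 := square (m := 2 * n + 1) p j t
  rw [value_v hp, value_v hp, h] at h2
  linarith

end Pool.Agent.Helper21.EV
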