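import Mathlib

/-!
# Critical bond percolation on a bi-infinite cylinder

The cylinder of circumference `N = m+1`, in its universal cover: the sites are the pairs `(j,t)` of
integers, and `(j+N,t)` lies over the same site of the cylinder as `(j,t)`. For even `N` the sites
with `j+t` even (the primal ones) and the sites with `j+t` odd (the dual ones) form two square
lattices with diagonal edges, dual to each other. The unit square with the lower left corner `(j,t)`
has one pair of opposite corners primal and the other one dual; its state says which of the two
diagonals is present.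
-/

namespace Pool.Agent.Helper21.EV

open MeasureTheory ProbabilityTheory

/-- the column of the cylinder of circumference `m+1` over the position `j` -/
def col (m : ℕ) (j : ℤ) : Fin (m + 1) :=
  ⟨(j % (m + 1 : ℤ)).toNat, by
    have h1 := Int.emod_nonneg j (show (m + 1 : ℤ) ≠ 0 by omega)
    have h2 := Int.emod_lt_of_pos j (show (0 : ℤ) < m + 1 by omega)
    omega⟩

/-- one-step connections in the universal cover: in the state `false` of the square `(j,t)` the
diagonal from `(j,t)` to `(j+1,t+1)` is present, in the state `true` the diagonal from `(j+1,t)` to
`(j,t+1)` is present -/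
inductive Link {m : ℕ} (ω : Fin (m + 1) × ℤ → Bool) : ℤ × ℤ → ℤ × ℤ → Prop
  | ur (j t : ℤ) : ω (col m j, t) = false → Link ω (j, t) (j + 1, t + 1)
  | ul (j t : ℤ) : ω (col m j, t) = true → Link ω (j + 1, t) (j, t + 1)

/-- the cluster of the site `a` winds around the cylinder: it contains a path which lifts to a path
from `a` to the next site over the same site of the cylinder -/
def Wraps {m : ℕ} (ω : Fin (m + 1) × ℤ → Bool) (a : ℤ × ℤ) : Prop :=
  Relation.EqvGen (Link ω) a (a.1 + (m + 1), a.2)

/-- edges of the medial lattice in the universal cover: `v j t` separates the sites `(j,t)` and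
`(j+1,t)`, and `h j t` separates the sites `(j,t)` and `(j,t+1)` -/
inductive Med : Type
  | v (j t : ℤ) : Med
  | h (j t : ℤ) : Med

/-- one-step connections of the interfaces, which follow the clusters. The unit square with the lower
left corner `(j,t)` has the sides `v j t`, `h (j+1) t`, `v j (t+1)`, `h j t`. The diagonal which is
present separates the other two corners, and an interface goes around each of these. -/
inductive Step {m : ℕ} (ω : Fin (m + 1) × ℤ → Bool) : Med → Med → Prop
  | br (j t : ℤ) : ω (col m j, t) = false → Step ω (Med.v j t) (Med.h (j + 1) t)
  | lt (j t : ℤ) : ω (col m j, t) = false → Step ω (Med.h j t) (Med.v j (t + 1))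
  | bl (j t : ℤ) : ω (col m j, t) = true → Step ω (Med.v j t) (Med.h j t)
  | rt (j t : ℤ) : ω (col m j, t) = true → Step ω (Med.h (j + 1) t) (Med.v j (t + 1))

/-- translation once around the cylinder of circumference `N` -/
def Med.turn (N : ℤ) : Med → Med
  | Med.v j t => Med.v (j + N) t
  | Med.h j t => Med.h (j + N) t

/-- the interface through the medial edge `e` winds around the cylinder: in the universal cover it
connects `e` to its translate once around the cylinder -/
def Winds {m : ℕ} (ω : Fin (m + 1) × ℤ → Bool) (e : Med) : Prop :=
  Relation.EqvGen (Step ω) e (e.turn (m + 1))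

/-- independent squares: a square of the row `t` is in the state `true` with probability `p t` -/
noncomputable def coins (m : ℕ) (p : ℤ → unitInterval) : Measure (Fin (m + 1) × ℤ → Bool) :=
  Measure.infinitePi (fun z => bernoulliMeasure true false (p z.2))

/-- `∏_{k<n} (3k)! (3k+2)! / ((n+k)!)²`, the number of half-turn symmetric alternating sign matrices
of size `2n` -/
noncomputable def ahtE (n : ℕ) : ℝ :=
  ∏ k ∈ Finset.range n, (((3 * k).factorial : ℝ) * ((3 * k + 2).factorial : ℝ)) /
    ((n + k).factorial : ℝ) ^ 2

end Pool.Agent.Helper21.EV
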