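import Pool.Agent.Helper21.EV.Prob2

/-!
# Interfaces which wind around the cylinder
-/

namespace Pool.Agent.Helper21.EV

open Relation MeasureTheory

variable {m : ℕ}

/-- a discrete primitive in the plane -/
theorem exists_prim (dh dv : ℤ → ℤ → ℤ)
    (hc : ∀ j t, dh j t + dv (j + 1) t = dv j t + dh j (t + 1)) :
    ∃ H : ℤ → ℤ → ℤ, (∀ j t, H (j + 1) t = H j t + dh j t) ∧
      ∀ j t, H j (t + 1) = H j t + dv j t := by
  obtain ⟨K0, h0⟩ := Pool.Agent.H863R2.Cyl.Sem4Aux.exists_pot (fun t => dv 0 t)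
  choose K hK using fun t => Pool.Agent.H863R2.Cyl.Sem4Aux.exists_pot (fun j => dh j t)
  refine ⟨fun j t => K0 t + K t j - K t 0, fun j t => ?_, fun j t => ?_⟩
  · simp only [hK]
    ring
  · simp only
    induction j using Int.induction_on with
    | zero =>
      rw [h0]
      ring
    | succ i ih =>
      have h1 := hK (t + 1) i
      have h2 := hK t i
      have h3 := hc i t
      rw [h1, h2]
      linarith
    | pred i ih =>
      have h1 := hK (t + 1) (-(i : ℤ) - 1)
      have h2 := hK t (-(i : ℤ) - 1)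
      have h3 := hc (-(i : ℤ) - 1) t
      rw [sub_add_cancel] at h1 h2 h3
      linarith

/-- the sign of a site: primal or dual -/
def sgn (j t : ℤ) : ℤ := if (j + t) % 2 = 0 then 1 else -1

theorem sgn_succ_left (j t : ℤ) : sgn (j + 1) t = -sgn j t := by
  unfold sgn
  split_ifs <;> first | rfl | omega

theorem sgn_succ_right (j t : ℤ) : sgn j (t + 1) = -sgn j t := by
  unfold sgn
  split_ifs <;> first | rfl | omega

theorem sgn_ne (j t : ℤ) : sgn j t ≠ 0 := by
  unfold sgn
  split_ifs <;> norm_num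

open Classical in
/-- a set of medial edges which is a union of interfaces has a height function -/
theorem exists_height (ω : Fin (m + 1) × ℤ → Bool) (S : Set Med)
    (hS : ∀ e e', Step ω e e' → (e ∈ S ↔ e' ∈ S)) :
    ∃ H : ℤ → ℤ → ℤ,
      (∀ j t, H (j + 1) t = H j t + sgn j t * (if Med.v j t ∈ S then 1 else 0)) ∧
      (∀ j t, H j (t + 1) = H j t + sgn j t * (if Med.h j t ∈ S then 1 else 0)) ∧
      ∀ a b : ℤ × ℤ, EqvGen (Link ω) a b → H a.1 a.2 = H b.1 b.2 := by
  obtain ⟨H, h1, h2⟩ := exists_prim (fun j t => sgn j t * (if Med.v j t ∈ S then 1 else 0))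
    (fun j t => sgn j t * (if Med.h j t ∈ S then 1 else 0)) (fun j t => by
      rw [sgn_succ_left, sgn_succ_right]
      cases hω : ω (col m j, t) with
      | false =>
        have e1 := hS _ _ (Step.br j t hω)
        have e2 := hS _ _ (Step.lt j t hω)
        simp only [e1, e2]
        ring
      | true =>
        have e1 := hS _ _ (Step.bl j t hω)
        have e2 := hS _ _ (Step.rt j t hω)
        simp only [e1, e2])
  refine ⟨H, h1, h2, ?_⟩
  intro a b hab
  induction hab with
  | rel a b h =>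
    cases h with
    | ur j t h =>
      show H j t = H (j + 1) (t + 1)
      rw [h2, h1, sgn_succ_left]
      have e1 := hS _ _ (Step.br j t h)
      simp only [e1]
      ring
    | ul j t h =>
      show H (j + 1) t = H j (t + 1)
      rw [h2, h1]
      have e1 := hS _ _ (Step.bl j t h)
      simp only [e1]
  | refl a => rfl
  | symm a b _ ih => exact ih.symm
  | trans a b c _ _ ih1 ih2 => exact ih1.trans ih2

/-- the site of parity `ρ` next to a medial edge -/
def side (ρ : ℤ) : Med → ℤ × ℤ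
  | Med.v j t => if (j + t - ρ) % 2 = 0 then (j, t) else (j + 1, t)
  | Med.h j t => if (j + t - ρ) % 2 = 0 then (j, t) else (j, t + 1)

theorem side_v (ρ j t : ℤ) : side ρ (Med.v j t) =
    if (j + t - ρ) % 2 = 0 then (j, t) else (j + 1, t) := rfl

theorem side_h (ρ j t : ℤ) : side ρ (Med.h j t) =
    if (j + t - ρ) % 2 = 0 then (j, t) else (j, t + 1) := rfl

theorem side_step {ω : Fin (m + 1) × ℤ → Bool} (ρ : ℤ) {e e' : Med} (h : Step ω e e') :
    EqvGen (Link ω) (side ρ e) (side ρ e') := by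
  cases h with
  | br j t h =>
    simp only [side_v, side_h]
    by_cases hp : (j + t - ρ) % 2 = 0
    · rw [if_pos hp, if_neg (by omega)]
      exact EqvGen.rel _ _ (Link.ur j t h)
    · rw [if_neg hp, if_pos (by omega)]
      exact EqvGen.refl _
  | lt j t h =>
    simp only [side_v, side_h]
    by_cases hp : (j + t - ρ) % 2 = 0
    · rw [if_pos hp, if_neg (by omega)]
      exact EqvGen.rel _ _ (Link.ur j t h)
    · rw [if_neg hp, if_pos (by omega)]
      exact EqvGen.refl _
  | bl j t h =>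
    simp only [side_v, side_h]
    by_cases hp : (j + t - ρ) % 2 = 0
    · rw [if_pos hp, if_pos hp]
      exact EqvGen.refl _
    · rw [if_neg hp, if_neg hp]
      exact EqvGen.rel _ _ (Link.ul j t h)
  | rt j t h =>
    simp only [side_v, side_h]
    by_cases hp : (j + t - ρ) % 2 = 0
    · rw [if_neg (by omega), if_neg (by omega)]
      exact EqvGen.refl _
    · rw [if_pos (by omega), if_pos (by omega)]
      exact EqvGen.rel _ _ (Link.ul j t h)

theorem side_eqv {ω : Fin (m + 1) × ℤ → Bool} (ρ : ℤ) {e e' : Med}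
    (h : EqvGen (Step ω) e e') : EqvGen (Link ω) (side ρ e) (side ρ e') :=
  eqv_map' (side ρ) (fun _ _ hab => side_step ρ hab) h

theorem winds_v {n : ℕ} (ω : Fin (2 * n + 1 + 1) × ℤ → Bool) (j t : ℤ) :
    Winds ω (Med.v j t) ↔ (Wraps ω (j, t) ∧ Wraps ω (j + 1, t)) := by
  classical
  constructor
  · intro h
    have h1 := side_eqv (j + t) h
    have h2 := side_eqv (j + t + 1) h
    constructor
    · have e1 : side (j + t) (Med.v j t) = (j, t) := if_pos (by omega)
      have e2 : side (j + t) ((Med.v j t).turn ((2 * n + 1 : ℕ) + 1)) =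
          (j + ((2 * n + 1 : ℕ) + 1), t) := if_pos (by push_cast; omega)
      rw [e1, e2] at h1
      exact h1
    · have e1 : side (j + t + 1) (Med.v j t) = (j + 1, t) := if_neg (by omega)
      have e2 : side (j + t + 1) ((Med.v j t).turn ((2 * n + 1 : ℕ) + 1)) =
          (j + ((2 * n + 1 : ℕ) + 1) + 1, t) := if_neg (by push_cast; omega)
      rw [e1, e2] at h2
      show EqvGen (Link ω) (j + 1, t) (j + 1 + ((2 * n + 1 : ℕ) + 1), t)
      rw [show j + 1 + (((2 * n + 1 : ℕ) : ℤ) + 1) = j + ((2 * n + 1 : ℕ) + 1) + 1 by ring]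
      exact h2
  · rintro ⟨h1, h2⟩
    obtain ⟨H, g1, -, g3⟩ := exists_height ω {e | EqvGen (Step ω) (Med.v j t) e} (fun e e' h =>
      ⟨fun h' => h'.trans _ _ _ (EqvGen.rel _ _ h), fun h' => h'.trans _ _ _ (EqvGen.rel _ _ h).symm⟩)
    have k1 := g3 _ _ h1
    have k2 := g3 _ _ h2
    have k3 := g1 j t
    have k4 := g1 (j + ((2 * n + 1 : ℕ) + 1)) t
    simp only at k1 k2
    have hin : Med.v j t ∈ {e | EqvGen (Step ω) (Med.v j t) e} := EqvGen.refl _
    rw [if_pos hin] at k3
    by_contra hcon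
    have hcon' : Med.v (j + ((2 * n + 1 : ℕ) + 1)) t ∉
        {e | EqvGen (Step ω) (Med.v j t) e} := hcon
    rw [if_neg hcon'] at k4
    have hs := sgn_ne j t
    rw [show j + 1 + (((2 * n + 1 : ℕ) : ℤ) + 1) = j + ((2 * n + 1 : ℕ) + 1) + 1 by ring] at k2
    apply hs
    linarith

theorem winds_h {n : ℕ} (ω : Fin (2 * n + 1 + 1) × ℤ → Bool) (j t : ℤ) :
    Winds ω (Med.h j t) ↔ (Wraps ω (j, t) ∧ Wraps ω (j, t + 1)) := by
  classical
  constructor
  · intro h
    have h1 := side_eqv (j + t) h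
    have h2 := side_eqv (j + t + 1) h
    constructor
    · have e1 : side (j + t) (Med.h j t) = (j, t) := if_pos (by omega)
      have e2 : side (j + t) ((Med.h j t).turn ((2 * n + 1 : ℕ) + 1)) =
          (j + ((2 * n + 1 : ℕ) + 1), t) := if_pos (by push_cast; omega)
      rw [e1, e2] at h1
      exact h1
    · have e1 : side (j + t + 1) (Med.h j t) = (j, t + 1) := if_neg (by omega)
      have e2 : side (j + t + 1) ((Med.h j t).turn ((2 * n + 1 : ℕ) + 1)) =
          (j + ((2 * n + 1 : ℕ) + 1), t + 1) := if_neg (by push_cast; omega)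
      rw [e1, e2] at h2
      exact h2
  · rintro ⟨h1, h2⟩
    obtain ⟨H, -, g2, g3⟩ := exists_height ω {e | EqvGen (Step ω) (Med.h j t) e} (fun e e' h =>
      ⟨fun h' => h'.trans _ _ _ (EqvGen.rel _ _ h), fun h' => h'.trans _ _ _ (EqvGen.rel _ _ h).symm⟩)
    have k1 := g3 _ _ h1
    have k2 := g3 _ _ h2
    have k3 := g2 j t
    have k4 := g2 (j + ((2 * n + 1 : ℕ) + 1)) t
    simp only at k1 k2
    have hin : Med.h j t ∈ {e | EqvGen (Step ω) (Med.h j t) e} := EqvGen.refl _
    rw [if_pos hin] at k3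
    by_contra hcon
    have hcon' : Med.h (j + ((2 * n + 1 : ℕ) + 1)) t ∉
        {e | EqvGen (Step ω) (Med.h j t) e} := hcon
    rw [if_neg hcon'] at k4
    have hs := sgn_ne j t
    apply hs
    linarith

/-- **the exact winding probability** -/
theorem winds_value {n : ℕ} {ε : ℝ} {p : ℤ → unitInterval} (hp : Ell ε p) (e : Med) :
    (coins (2 * n + 1) p).real {ω | Winds ω e} = pvE (n + 1) := by
  rcases e with ⟨j, t⟩ | ⟨j, t⟩
  · have h : {ω : Fin (2 * n + 1 + 1) × ℤ → Bool | Winds ω (Med.v j t)} = WW (2 * n + 1) j t := by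
      ext ω
      exact winds_v ω j t
    rw [h, value_v hp]
  · have h : {ω : Fin (2 * n + 1 + 1) × ℤ → Bool | Winds ω (Med.h j t)} = HH (2 * n + 1) j t := by
      ext ω
      exact winds_h ω j t
    rw [h, value_h hp]

end Pool.Agent.Helper21.EV
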