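import Pool.Agent.Helper21.EV.Pair2
import Pool.Graph.R_seed8.H863R2.Cyl.Value
import Pool.Graph.R_seed8.H863R2.Cyl.Val2
import Pool.Graph.R_seed8.H863R2.Cyl.FEx
import Pool.Graph.R_seed8.H974R3.Homog

/-!
# The value of the pairing at the homogeneous point
-/

namespace Pool.Agent.Helper21.EV

open Pool.Agent.H863R2.Cyl
open Pool.Agent.H863R2.Cyl.PairAux
open Pool.Agent.H988R2.Perc (Word flipR flipL rem firstArc PD)
open Pool.Agent.H974R3 (Dval)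

/-- the value for the circumference `2n` -/
noncomputable def pvE (n : ℕ) : ℝ :=
  Dval 1 (2 * (2 * n)) / (3 ^ n * (Dval 1 (2 * n) * Dval 2 (2 * n)) ^ 2)

theorem TT_value {q : ℂ} (hq : q ^ 2 + q + 1 = 0) {Ψ Ψ' : List ℂ → VW} (hΨ : Fam q Ψ)
    (hΨ' : Fam (q ^ 2) Ψ') (n : ℕ) :
    tot (Ψ' (List.replicate (2 * n) 1)) * tot (Ψ (List.replicate (2 * n) 1)) =
      ((Dval 1 (2 * n) * Dval 2 (2 * n) : ℝ) : ℂ) ^ 2 := by
  obtain ⟨f, hf⟩ := exists_F
  obtain ⟨K, hK⟩ := exists_K q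
  obtain ⟨K', hK'⟩ := exists_K (q ^ 2)
  obtain ⟨G, hG, hG1⟩ := gspec_plus q hq
  set one := List.replicate (2 * n) (1 : ℂ) with hone
  have hmem : Ψ one ∈ VN (2 * n) := by
    have := hΨ.mem one
    rwa [hone, List.length_replicate] at this
  have hmem' : Ψ' one ∈ VN (2 * n) := by
    have := hΨ'.mem one
    rwa [hone, List.length_replicate] at this
  set w := Complex.exp (Real.pi / 3 * Complex.I) with hw
  have hwre : w = ((1 / 2 : ℝ) : ℂ) + ((Real.sqrt 3 / 2 : ℝ) : ℂ) * Complex.I := by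
    rw [hw, Complex.exp_mul_I]
    have h1 : Complex.cos (Real.pi / 3) = ((1 / 2 : ℝ) : ℂ) := by
      rw [← Real.cos_pi_div_three]; push_cast; rfl
    have h2 : Complex.sin (Real.pi / 3) = ((Real.sqrt 3 / 2 : ℝ) : ℂ) := by
      rw [← Real.sin_pi_div_three]; push_cast; rfl
    rw [h1, h2]
  have hw0 : w ≠ 0 := Complex.exp_ne_zero _
  have hwne : w ≠ -1 := by
    intro h
    have h1 : w.re = 1 / 2 := by rw [hwre]; simp
    rw [h] at h1
    norm_num at h1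
  have hw1 : w + w⁻¹ = 1 := by
    have h3 : Real.sqrt 3 * Real.sqrt 3 = 3 := Real.mul_self_sqrt (by norm_num)
    have h4 : w * w - w + 1 = 0 := by
      rw [hwre]
      apply Complex.ext
      · simp
        nlinarith
      · simp
        ring
    field_simp
    linear_combination h4
  have g1 := G_ones hq hw0 hwne
    (G := fun z => pr f (w + w⁻¹) (Ψ' z) (Ψ z))
    (pr_GSpec hq hΨ hΨ' hK hK' hf (w + w⁻¹)) n
  have g2 := G_ones hq hw0 hwne (G := G) (by rw [hw1]; exact hG) n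
  rw [← g2, hG1] at g1
  simp only [← hone, hw1] at g1
  rw [ValueAux.pr_eq f 1 hmem' hmem] at g1
  rw [← g1, ValueAux.tot_eq hmem, ValueAux.tot_eq hmem', Finset.sum_mul_sum]
  simp

theorem pc_typed (f : Word → Word → ℕ) {N : ℕ} {v' v : VW} (hv' : v' ∈ VN N) (hv : v ∈ VN N) :
    pc f v' v = ∑ σ : Wd N, ∑ τ : Wd N, ck f σ.1 τ.1 * (v' σ.1 * v τ.1) := by
  unfold pc
  rw [ValueAux.lc_eq _ hv', LinearMap.sum_apply]
  apply Finset.sum_congr rfl
  intro σ _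
  rw [LinearMap.smul_apply, ValueAux.lc_eq _ hv, smul_eq_mul, Finset.mul_sum]
  apply Finset.sum_congr rfl
  intro τ _
  rw [smul_eq_mul]
  ring

/-- the value of the pairing of the stationary measure -/
theorem value {n m : ℕ} (hm : m + 1 = 2 * (n + 1)) {f : Word → Word → ℕ} (hf : FSpec f)
    (μ : Wd (m + 1) → ℝ) (hμ : ∑ σ, μ σ = 1)
    (hst : ∀ σ, ∑ c : Fin (m + 1) → Bool, push (Tc m c) μ σ = 2 ^ (m + 1) * μ σ) :
    ∑ σ : Wd (m + 1), ∑ τ : Wd (m + 1), ck f σ.1 τ.1 * ((μ σ : ℂ) * μ τ) = ((pvE (n + 1) : ℝ) : ℂ) := by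
  obtain ⟨q, hq⟩ : ∃ q : ℂ, q ^ 2 + q + 1 = 0 := ⟨_, Pool.Agent.H988R2.Perc.q_spec⟩
  have hq2 : (q ^ 2) ^ 2 + q ^ 2 + 1 = 0 := by
    linear_combination (q ^ 2 - q + 1) * hq
  obtain ⟨Ψ, hΨ⟩ := exists_Fam q hq
  obtain ⟨Ψ', hΨ'⟩ := exists_Fam (q ^ 2) hq2
  obtain ⟨g, hg⟩ := Pool.Agent.H974R3.exists_G q hq 1 (Or.inl rfl)
  have hTT : tot (Ψ' (List.replicate (m + 1) 1)) * tot (Ψ (List.replicate (m + 1) 1)) =
      ((Dval 1 (2 * (n + 1)) * Dval 2 (2 * (n + 1)) : ℝ) : ℂ) ^ 2 := by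
    rw [hm]
    exact TT_value hq hΨ hΨ' (n + 1)
  set one := List.replicate (m + 1) (1 : ℂ) with hone
  have hmem : Ψ one ∈ VN (m + 1) := by
    have := hΨ.mem one
    rwa [hone, List.length_replicate] at this
  have hmem' : Ψ' one ∈ VN (m + 1) := by
    have := hΨ'.mem one
    rwa [hone, List.length_replicate] at this
  have e1 := ValueAux.eq_mu hΨ m μ hμ hst
  have e2 := ValueAux.eq_mu hΨ' m μ hμ hst
  have hB := claimB hq hg hf hΨ hΨ' n 1 1 (List.replicate m 1) (by rw [List.length_replicate]; exact hm)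
  have h1 : (1 : ℂ) :: List.replicate m 1 = one := by rw [hone, List.replicate_succ]
  unfold BB at hB
  rw [h1, pc_typed f hmem hmem'] at hB
  have hl : (1 : ℂ) :: 1 :: (List.replicate m 1 ++ List.replicate m 1) =
      List.replicate (2 * (2 * (n + 1))) 1 := by
    rw [← List.replicate_add, ← List.replicate_succ, ← List.replicate_succ]
    congr 1
    omega
  rw [hl, Pool.Agent.H974R3.Hom.g_ones hg] at hB
  have hb : ∑ σ : Wd (m + 1), ∑ τ : Wd (m + 1), ck f σ.1 τ.1 * (Ψ one σ.1 * Ψ' one τ.1) =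
      (tot (Ψ' one) * tot (Ψ one)) *
        ∑ σ : Wd (m + 1), ∑ τ : Wd (m + 1), ck f σ.1 τ.1 * ((μ σ : ℂ) * μ τ) := by
    rw [Finset.mul_sum]
    refine Finset.sum_congr rfl fun σ _ => ?_
    rw [Finset.mul_sum]
    refine Finset.sum_congr rfl fun τ _ => ?_
    rw [e1 σ, e2 τ]
    ring
  rw [hb, hTT] at hB
  have hD1 : ((Dval 1 (2 * (n + 1)) : ℝ) : ℂ) ≠ 0 := by
    exact_mod_cast (Pool.Agent.H974R3.Hom.Dval_pos (Or.inl rfl) _).ne'
  have hD2 : ((Dval 2 (2 * (n + 1)) : ℝ) : ℂ) ≠ 0 := by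
    exact_mod_cast (Pool.Agent.H974R3.Hom.Dval_pos (Or.inr rfl) _).ne'
  have h3 : (3 : ℂ) ^ (n + 1) ≠ 0 := pow_ne_zero _ (by norm_num)
  unfold pvE
  push_cast at hB ⊢
  rw [eq_div_iff (mul_ne_zero h3 (pow_ne_zero _ (mul_ne_zero hD1 hD2)))]
  have h5 : (1 / 3 : ℂ) ^ (n + 1) * 3 ^ (n + 1) = 1 := by
    rw [← mul_pow]; norm_num
  linear_combination (3 : ℂ) ^ (n + 1) * hB +
    ((Dval 1 (2 * (2 * (n + 1))) : ℝ) : ℂ) * h5

end Pool.Agent.Helper21.EV
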