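import Pool.Agent.Helper21.ID.Asym
import Pool.Agent.Helper21.EV.Val
import Pool.Agent.Helper21.EV.Defs

/-!
# Closed form and asymptotics for even circumference
-/

namespace Pool.Agent.Helper21.EV

open Pool.Agent.H974R3 (Dval aexp)
open Pool.Agent.H974R3.Value
open Pool.Agent.Helper21.ID (asmN asmN_succ fac_succ)
open Filter Topology

theorem pvE_zero : pvE 0 = 1 := by
  unfold pvE
  simp [Dval]

/-- ratio of consecutive values -/
noncomputable def rhoE (n : ℕ) : ℝ :=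
  ff 1 (4 * n) * ff 1 (4 * n + 2) / (3 * (ff 1 (2 * n) * ff 2 (2 * n)) ^ 2)

theorem pvE_pos (n : ℕ) : 0 < pvE n := by
  unfold pvE
  have h1 := Dval_pos 1 le_rfl (by norm_num) (2 * (2 * n))
  have h2 := Dval_pos 1 le_rfl (by norm_num) (2 * n)
  have h3 := Dval_pos 2 (by norm_num) le_rfl (2 * n)
  positivity

theorem rhoE_pos (n : ℕ) : 0 < rhoE n := by
  unfold rhoE
  have h1 := ff_pos 1 le_rfl (by norm_num) (4 * n)
  have h2 := ff_pos 1 le_rfl (by norm_num) (4 * n + 2)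
  have h3 := ff_pos 1 le_rfl (by norm_num) (2 * n)
  have h4 := ff_pos 2 (by norm_num) le_rfl (2 * n)
  positivity

theorem pvE_succ (n : ℕ) : pvE (n + 1) = pvE n * rhoE n := by
  unfold pvE rhoE
  have h2 := Dval_pos 1 le_rfl (by norm_num) (2 * n)
  have h3 := Dval_pos 2 (by norm_num) le_rfl (2 * n)
  have h4 := ff_pos 1 le_rfl (by norm_num) (2 * n)
  have h5 := ff_pos 2 (by norm_num) le_rfl (2 * n)
  have e1 : Dval 1 (2 * (2 * (n + 1))) =
      Dval 1 (2 * (2 * n)) * ff 1 (4 * n) * ff 1 (4 * n + 2) := by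
    rw [show 2 * (2 * (n + 1)) = (2 * (2 * n) + 2) + 2 from by ring, Dval_add2, Dval_add2,
      show 2 * (2 * n) + 2 = 4 * n + 2 from by ring, show 2 * (2 * n) = 4 * n from by ring]
  have e2 : Dval 1 (2 * (n + 1)) = Dval 1 (2 * n) * ff 1 (2 * n) := by
    rw [show 2 * (n + 1) = 2 * n + 2 from by ring, Dval_add2]
  have e3 : Dval 2 (2 * (n + 1)) = Dval 2 (2 * n) * ff 2 (2 * n) := by
    rw [show 2 * (n + 1) = 2 * n + 2 from by ring, Dval_add2]
  rw [e1, e2, e3, pow_succ]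
  field_simp

theorem ff_even2 (L : ℕ) : ff 2 (2 * L + 2) = ff 2 (2 * L) *
    ((3 * (L : ℝ) + 3) ^ 2 * (3 * L + 1) * (3 * L + 5) /
      ((2 * (L : ℝ) + 1) * (2 * L + 2) ^ 2 * (2 * L + 3))) := by
  unfold ff
  rw [show 2 * L + 2 + 1 = 2 * L + 1 + 2 from rfl, ee_add2 2 (2 * L) (by norm_num),
    ee_add2 2 (2 * L + 1) (by norm_num), aexp_even, aexp_odd]
  push_cast
  field_simp
  ring

/-- ratio of consecutive ratios -/
noncomputable def rrE (x : ℝ) : ℝ :=
  16 * ((2 * x + 1) * (2 * x + 3)) ^ 4 * ((6 * x + 5) * (6 * x + 7)) ^ 2 /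
    ((4 * x + 1) * (4 * x + 7) * ((4 * x + 3) * (4 * x + 5)) ^ 3 *
      ((3 * x + 1) * (3 * x + 5) * ((3 * x + 2) * (3 * x + 4))))

theorem rhoE_succ (n : ℕ) : rhoE (n + 1) = rhoE n * rrE n := by
  have h4 := ff_pos 1 le_rfl (by norm_num) (2 * n)
  have h5 := ff_pos 2 (by norm_num) le_rfl (2 * n)
  have g1 := ff_even (2 * n)
  have g2 := ff_even (2 * n + 1)
  have g3 := ff_even (2 * n + 2)
  have k1 := ff_even n
  have k2 := ff_even2 n
  rw [show 2 * (2 * n) + 2 = 4 * n + 2 from by ring,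
    show 2 * (2 * n) = 4 * n from by ring] at g1
  rw [show 2 * (2 * n + 1) + 2 = 4 * n + 4 from by ring,
    show 2 * (2 * n + 1) = 4 * n + 2 from by ring] at g2
  rw [show 2 * (2 * n + 2) + 2 = 4 * n + 6 from by ring,
    show 2 * (2 * n + 2) = 4 * n + 4 from by ring] at g3
  unfold rhoE rrE
  rw [show 4 * (n + 1) + 2 = 4 * n + 6 from by ring, show 4 * (n + 1) = 4 * n + 4 from by ring,
    show 2 * (n + 1) = 2 * n + 2 from by ring, g3, g2, g1, k1, k2]
  push_cast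
  field_simp
  ring

theorem ahtE_pos (n : ℕ) : 0 < ahtE n := by
  unfold ahtE
  refine Finset.prod_pos fun k _ => ?_
  have b1 : (0 : ℝ) < ((3 * k).factorial : ℝ) := by exact_mod_cast Nat.factorial_pos _
  have b2 : (0 : ℝ) < ((3 * k + 2).factorial : ℝ) := by exact_mod_cast Nat.factorial_pos _
  have b3 : (0 : ℝ) < ((n + k).factorial : ℝ) := by exact_mod_cast Nat.factorial_pos _
  positivity

theorem ahtE_succ (n : ℕ) : ahtE (n + 1) = ahtE n *
    (((3 * n).factorial : ℝ) * ((3 * n + 2).factorial : ℝ) * (n.factorial : ℝ) ^ 2 /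
      (((2 * n).factorial : ℝ) * ((2 * n + 1).factorial : ℝ)) ^ 2) := by
  unfold ahtE
  rw [Finset.prod_div_distrib, Finset.prod_div_distrib, Finset.prod_range_succ]
  have h3 : ∀ m : ℕ, (0 : ℝ) < (m.factorial : ℝ) := fun m => by exact_mod_cast m.factorial_pos
  have h1 : ∏ k ∈ Finset.range (n + 2), ((n + k).factorial : ℝ) ^ 2 =
      (∏ k ∈ Finset.range (n + 1), ((n + 1 + k).factorial : ℝ) ^ 2) * (n.factorial : ℝ) ^ 2 := by
    rw [Finset.prod_range_succ']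
    congr 1
    refine Finset.prod_congr rfl fun k _ => ?_
    congr 3
    ring
  have h2 : ∏ k ∈ Finset.range (n + 2), ((n + k).factorial : ℝ) ^ 2 =
      (∏ k ∈ Finset.range n, ((n + k).factorial : ℝ) ^ 2) * ((2 * n).factorial : ℝ) ^ 2 *
        ((2 * n + 1).factorial : ℝ) ^ 2 := by
    rw [Finset.prod_range_succ, Finset.prod_range_succ, show n + n = 2 * n by ring,
      show n + (n + 1) = 2 * n + 1 by ring]
  have h4 : ∏ k ∈ Finset.range (n + 1), ((n + 1 + k).factorial : ℝ) ^ 2 =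
      (∏ k ∈ Finset.range n, ((n + k).factorial : ℝ) ^ 2) * ((2 * n).factorial : ℝ) ^ 2 *
        ((2 * n + 1).factorial : ℝ) ^ 2 / (n.factorial : ℝ) ^ 2 := by
    rw [eq_div_iff (pow_ne_zero 2 (h3 n).ne'), ← h1, h2]
  rw [h4]
  have h5 : (0 : ℝ) < ∏ k ∈ Finset.range n, ((n + k).factorial : ℝ) ^ 2 :=
    Finset.prod_pos fun k _ => pow_pos (h3 _) 2
  have a1 := h3 n
  have a2 := h3 (2 * n)
  have a3 := h3 (2 * n + 1)
  field_simp

/-- the ratio of consecutive values of the closed form -/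
noncomputable def rfE (n : ℕ) : ℝ :=
  (((6 * n + 1).factorial : ℝ) * ((2 * n).factorial : ℝ) *
      (((6 * n + 4).factorial : ℝ) * ((2 * n + 1).factorial : ℝ)) *
      (((2 * n).factorial : ℝ) * ((2 * n + 1).factorial : ℝ)) ^ 4) /
    (((4 * n).factorial : ℝ) * ((4 * n + 1).factorial : ℝ) *
      (((4 * n + 2).factorial : ℝ) * ((4 * n + 3).factorial : ℝ)) *
      (((3 * n).factorial : ℝ) * ((3 * n + 2).factorial : ℝ) * (n.factorial : ℝ) ^ 2) ^ 2)

theorem closedE_step (n : ℕ) : asmN (2 * (n + 1)) / ahtE (n + 1) ^ 2 =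
    asmN (2 * n) / ahtE n ^ 2 * rfE n := by
  have h3 : ∀ m : ℕ, (0 : ℝ) < (m.factorial : ℝ) := fun m => by exact_mod_cast m.factorial_pos
  have h4 := ahtE_pos n
  rw [show 2 * (n + 1) = 2 * n + 1 + 1 by ring, asmN_succ, asmN_succ, ahtE_succ]
  unfold rfE
  rw [show 3 * (2 * n + 1) + 1 = 6 * n + 4 by ring, show 3 * (2 * n) + 1 = 6 * n + 1 by ring,
    show 2 * (2 * n + 1) + 1 = 4 * n + 3 by ring, show 2 * (2 * n + 1) = 4 * n + 2 by ring,
    show 2 * (2 * n) + 1 = 4 * n + 1 by ring, show 2 * (2 * n) = 4 * n by ring]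
  have a1 := h3 (6 * n + 1)
  have a2 := h3 (2 * n + 1)
  have a3 := h3 (6 * n + 4)
  have a4 := h3 (2 * n)
  have a5 := h3 (4 * n)
  have a6 := h3 (4 * n + 1)
  have a7 := h3 (4 * n + 2)
  have a8 := h3 (4 * n + 3)
  have a9 := h3 (3 * n)
  have a10 := h3 (3 * n + 2)
  have a11 := h3 n
  field_simp

theorem rrE_factor (x : ℝ) (hx : 0 ≤ x) :
    ((6 * x + 7) * (6 * (x + 1)) * (6 * x + 5) * (2 * (3 * x + 2)) * (3 * (2 * x + 1)) *
        (2 * (3 * x + 1))) * ((2 * (x + 1)) * (2 * x + 1)) *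
      (((2 * (3 * x + 5)) * (3 * (2 * x + 3)) * (2 * (3 * x + 4)) * (6 * x + 7) * (6 * (x + 1)) *
        (6 * x + 5)) * ((2 * x + 3) * (2 * (x + 1)))) *
      (((2 * (x + 1)) * (2 * x + 1)) * ((2 * x + 3) * (2 * (x + 1)))) ^ 4 /
    (((4 * (x + 1)) * (4 * x + 3) * (2 * (2 * x + 1)) * (4 * x + 1)) *
      ((4 * x + 5) * (4 * (x + 1)) * (4 * x + 3) * (2 * (2 * x + 1))) *
      (((2 * (2 * x + 3)) * (4 * x + 5) * (4 * (x + 1)) * (4 * x + 3)) *
      ((4 * x + 7) * (2 * (2 * x + 3)) * (4 * x + 5) * (4 * (x + 1)))) *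
      (((3 * (x + 1)) * (3 * x + 2) * (3 * x + 1)) * ((3 * x + 5) * (3 * x + 4) * (3 * (x + 1))) *
        (x + 1) ^ 2) ^ 2) = rrE x := by
  unfold rrE
  have h1 : 0 < x + 1 := by linarith
  have h2 : 0 < 2 * x + 1 := by linarith
  have h3 : 0 < 2 * x + 3 := by linarith
  have h4 : 0 < 3 * x + 4 := by linarith
  have h5 : 0 < 3 * x + 5 := by linarith
  have h6 : 0 < 4 * x + 3 := by linarith
  have h7 : 0 < 4 * x + 5 := by linarith
  have h8 : 0 < 4 * x + 7 := by linarith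
  have h9 : 0 < 4 * x + 1 := by linarith
  have h10 : 0 < 3 * x + 1 := by linarith
  have h11 : 0 < 3 * x + 2 := by linarith
  generalize x + 1 = a1 at *
  generalize 2 * x + 1 = a2 at *
  generalize 2 * x + 3 = a3 at *
  generalize 3 * x + 4 = a4 at *
  generalize 3 * x + 5 = a5 at *
  generalize 4 * x + 3 = a6 at *
  generalize 4 * x + 5 = a7 at *
  generalize 4 * x + 7 = a8 at *
  generalize 4 * x + 1 = a9 at *
  generalize 3 * x + 1 = a10 at *
  generalize 3 * x + 2 = a11 at *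
  generalize 6 * x + 5 = a12 at *
  generalize 6 * x + 7 = a13 at *
  field_simp
  ring

theorem rfE_succ (n : ℕ) : rfE (n + 1) = rfE n * rrE n := by
  rw [← rrE_factor (n : ℝ) (Nat.cast_nonneg n)]
  unfold rfE
  have e1 : (((6 * (n + 1) + 1).factorial : ℕ) : ℝ) =
      ((6 * (n : ℝ) + 7) * (6 * ((n : ℝ) + 1)) * (6 * n + 5) * (2 * (3 * n + 2)) * (3 * (2 * n + 1)) *
        (2 * (3 * n + 1))) * ((6 * n + 1).factorial : ℝ) := by
    rw [show 6 * (n + 1) + 1 = 6 * n + 1 + 1 + 1 + 1 + 1 + 1 + 1 by ring]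
    simp only [fac_succ]
    generalize ((6 * n + 1).factorial : ℝ) = b
    push_cast
    ring
  have e2 : (((6 * (n + 1) + 4).factorial : ℕ) : ℝ) =
      ((2 * (3 * (n : ℝ) + 5)) * (3 * (2 * n + 3)) * (2 * (3 * n + 4)) * (6 * n + 7) *
        (6 * ((n : ℝ) + 1)) * (6 * n + 5)) * ((6 * n + 4).factorial : ℝ) := by
    rw [show 6 * (n + 1) + 4 = 6 * n + 4 + 1 + 1 + 1 + 1 + 1 + 1 by ring]
    simp only [fac_succ]
    generalize ((6 * n + 4).factorial : ℝ) = b
    push_cast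
    ring
  have e3 : (((2 * (n + 1)).factorial : ℕ) : ℝ) =
      ((2 * ((n : ℝ) + 1)) * (2 * n + 1)) * ((2 * n).factorial : ℝ) := by
    rw [show 2 * (n + 1) = 2 * n + 1 + 1 by ring]
    simp only [fac_succ]
    push_cast
    ring
  have e4 : (((2 * (n + 1) + 1).factorial : ℕ) : ℝ) =
      ((2 * (n : ℝ) + 3) * (2 * ((n : ℝ) + 1))) * ((2 * n + 1).factorial : ℝ) := by
    rw [show 2 * (n + 1) + 1 = 2 * n + 1 + 1 + 1 by ring]
    simp only [fac_succ]
    push_cast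
    ring
  have e5 : (((4 * (n + 1)).factorial : ℕ) : ℝ) =
      ((4 * ((n : ℝ) + 1)) * (4 * n + 3) * (2 * (2 * n + 1)) * (4 * n + 1)) *
        ((4 * n).factorial : ℝ) := by
    rw [show 4 * (n + 1) = 4 * n + 1 + 1 + 1 + 1 by ring]
    simp only [fac_succ]
    push_cast
    ring
  have e6 : (((4 * (n + 1) + 1).factorial : ℕ) : ℝ) =
      ((4 * (n : ℝ) + 5) * (4 * ((n : ℝ) + 1)) * (4 * n + 3) * (2 * (2 * n + 1))) *
        ((4 * n + 1).factorial : ℝ) := by
    rw [show 4 * (n + 1) + 1 = 4 * n + 1 + 1 + 1 + 1 + 1 by ring]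
    simp only [fac_succ]
    push_cast
    ring
  have e7 : (((4 * (n + 1) + 2).factorial : ℕ) : ℝ) =
      ((2 * (2 * (n : ℝ) + 3)) * (4 * n + 5) * (4 * ((n : ℝ) + 1)) * (4 * n + 3)) *
        ((4 * n + 2).factorial : ℝ) := by
    rw [show 4 * (n + 1) + 2 = 4 * n + 2 + 1 + 1 + 1 + 1 by ring]
    simp only [fac_succ]
    push_cast
    ring
  have e8 : (((4 * (n + 1) + 3).factorial : ℕ) : ℝ) =
      ((4 * (n : ℝ) + 7) * (2 * (2 * n + 3)) * (4 * n + 5) * (4 * ((n : ℝ) + 1))) *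
        ((4 * n + 3).factorial : ℝ) := by
    rw [show 4 * (n + 1) + 3 = 4 * n + 3 + 1 + 1 + 1 + 1 by ring]
    simp only [fac_succ]
    push_cast
    ring
  have e9 : (((3 * (n + 1)).factorial : ℕ) : ℝ) =
      ((3 * ((n : ℝ) + 1)) * (3 * n + 2) * (3 * n + 1)) * ((3 * n).factorial : ℝ) := by
    rw [show 3 * (n + 1) = 3 * n + 1 + 1 + 1 by ring]
    simp only [fac_succ]
    push_cast
    ring
  have e10 : (((3 * (n + 1) + 2).factorial : ℕ) : ℝ) =
      ((3 * (n : ℝ) + 5) * (3 * n + 4) * (3 * ((n : ℝ) + 1))) * ((3 * n + 2).factorial : ℝ) := by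
    rw [show 3 * (n + 1) + 2 = 3 * n + 2 + 1 + 1 + 1 by ring]
    simp only [fac_succ]
    push_cast
    ring
  have e11 : (((n + 1).factorial : ℕ) : ℝ) = ((n : ℝ) + 1) * (n.factorial : ℝ) := by
    simp only [fac_succ]
  rw [e1, e2, e3, e4, e5, e6, e7, e8, e9, e10, e11]
  rw [div_mul_div_comm]
  congr 1 <;> ring

theorem rhoE_zero : rhoE 0 = 1 / 2 := by
  unfold rhoE ff ee
  norm_num [Finset.prod_range_succ, aexp]

theorem rfE_zero : rfE 0 = 1 / 2 := by
  unfold rfE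
  norm_num [Nat.factorial]

theorem rhoE_eq_rfE (n : ℕ) : rhoE n = rfE n := by
  induction n with
  | zero => rw [rhoE_zero, rfE_zero]
  | succ n ih => rw [rhoE_succ, rfE_succ, ih]

/-- the closed form -/
theorem pvE_closed (n : ℕ) : pvE n = asmN (2 * n) / ahtE n ^ 2 := by
  induction n with
  | zero =>
    rw [pvE_zero]
    unfold asmN ahtE
    simp
  | succ n ih => rw [pvE_succ, closedE_step, ← ih, rhoE_eq_rfE]

end Pool.Agent.Helper21.EV
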