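import Pool.Agent.Helper21.EV.Asym

/-!
# Asymptotics for even circumference
-/

namespace Pool.Agent.Helper21.EV

open Filter Topology

/-! ### the limit of the ratio -/

/-- `((2k choose k) / 4^k)²` -/
noncomputable def bb (k : ℕ) : ℝ := ∏ i ∈ Finset.range k, ((2 * (i : ℝ) + 1) / (2 * i + 2)) ^ 2

theorem bb_succ (k : ℕ) : bb (k + 1) = bb k * ((2 * (k : ℝ) + 1) / (2 * k + 2)) ^ 2 := by
  unfold bb
  rw [Finset.prod_range_succ]

theorem bb_pos (k : ℕ) : 0 < bb k := by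
  unfold bb
  exact Finset.prod_pos fun i _ => by positivity

theorem kbb_mono : Monotone fun k : ℕ => (k : ℝ) * bb k := by
  refine monotone_nat_of_le_succ fun k => ?_
  rw [bb_succ]
  have h := bb_pos k
  have e : ((k + 1 : ℕ) : ℝ) * (bb k * ((2 * (k : ℝ) + 1) / (2 * k + 2)) ^ 2) =
      bb k * ((2 * (k : ℝ) + 1) ^ 2 / (4 * (k + 1))) := by
    push_cast
    field_simp
    ring
  rw [e, mul_comm (k : ℝ)]
  refine mul_le_mul_of_nonneg_left ?_ h.le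
  rw [le_div_iff₀ (by positivity)]
  nlinarith

theorem kbb_anti : Antitone fun k : ℕ => ((k : ℝ) + 1 / 2) * bb k := by
  refine antitone_nat_of_succ_le fun k => ?_
  rw [bb_succ]
  have h := bb_pos k
  have e : (((k + 1 : ℕ) : ℝ) + 1 / 2) * (bb k * ((2 * (k : ℝ) + 1) / (2 * k + 2)) ^ 2) =
      bb k * ((2 * (k : ℝ) + 3) / 2 * ((2 * (k : ℝ) + 1) / (2 * k + 2)) ^ 2) := by
    push_cast
    ring
  rw [e, mul_comm ((k : ℝ) + 1 / 2)]
  refine mul_le_mul_of_nonneg_left ?_ h.le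
  rw [div_pow, mul_div_assoc', div_le_iff₀ (by positivity)]
  nlinarith [Nat.cast_nonneg (α := ℝ) k]

theorem bb_cross (k l : ℕ) : (k : ℝ) * bb k ≤ ((l : ℝ) + 1 / 2) * bb l := by
  have h1 : ∀ i : ℕ, (i : ℝ) * bb i ≤ ((i : ℝ) + 1 / 2) * bb i := fun i =>
    mul_le_mul_of_nonneg_right (by linarith) (bb_pos i).le
  rcases le_total k l with h | h
  · exact (kbb_mono h).trans (h1 l)
  · exact (h1 k).trans (kbb_anti h)

/-- the rational part -/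
noncomputable def rt (x : ℝ) : ℝ :=
  3 * (6 * x + 1) ^ 2 * (2 * x + 1) ^ 4 / ((4 * x + 1) ^ 3 * (4 * x + 3) * (3 * x + 1) * (3 * x + 2))

theorem rhoE_eq (n : ℕ) : rhoE n = rt n * (bb (3 * n) * bb n / bb (2 * n) ^ 2) := by
  induction n with
  | zero =>
    rw [rhoE_zero]
    unfold rt bb
    norm_num
  | succ n ih =>
    have h1 := bb_pos (3 * n)
    have h2 := bb_pos n
    have h3 := bb_pos (2 * n)
    rw [rhoE_succ, ih, show 3 * (n + 1) = 3 * n + 1 + 1 + 1 by ring,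
      show 2 * (n + 1) = 2 * n + 1 + 1 by ring]
    simp only [bb_succ]
    unfold rt rrE
    push_cast
    field_simp
    ring

theorem rhoE_lower {n : ℕ} (hn : 1 ≤ n) : 1 - 1 / (n : ℝ) ≤ rhoE n := by
  have hn1 : (1 : ℝ) ≤ n := by exact_mod_cast hn
  have h1 := bb_pos (3 * n)
  have h2 := bb_pos n
  have h3 := bb_pos (2 * n)
  have c1 := bb_cross (2 * n) (3 * n)
  have c2 := bb_cross (2 * n) n
  push_cast at c1 c2
  have e1 : 2 * (n : ℝ) * bb (2 * n) * (2 * n * bb (2 * n)) ≤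
      (3 * (n : ℝ) + 1 / 2) * bb (3 * n) * (((n : ℝ) + 1 / 2) * bb n) :=
    mul_le_mul c1 c2 (by positivity) (by positivity)
  have e2 : 4 * (n : ℝ) ^ 2 / ((3 * n + 1 / 2) * (n + 1 / 2)) ≤ bb (3 * n) * bb n / bb (2 * n) ^ 2 := by
    rw [div_le_div_iff₀ (by positivity) (by positivity)]
    nlinarith
  rw [rhoE_eq]
  have hr : 0 < rt n := by unfold rt; positivity
  refine le_trans ?_ (mul_le_mul_of_nonneg_left e2 hr.le)
  unfold rt
  obtain ⟨t, ht⟩ : ∃ t : ℝ, (n : ℝ) = t + 1 := ⟨n - 1, by ring⟩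
  have ht0 : 0 ≤ t := by linarith
  rw [ht, div_mul_div_comm, le_div_iff₀ (by positivity), one_sub_div (by positivity),
    div_mul_eq_mul_div, div_le_iff₀ (by positivity)]
  rw [← sub_nonneg]
  ring_nf
  positivity

theorem rhoE_upper {n : ℕ} (hn : 1 ≤ n) : rhoE n ≤ 1 + 1 / (n : ℝ) := by
  have hn1 : (1 : ℝ) ≤ n := by exact_mod_cast hn
  have h1 := bb_pos (3 * n)
  have h2 := bb_pos n
  have h3 := bb_pos (2 * n)
  have c1 := bb_cross (3 * n) (2 * n)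
  have c2 := bb_cross n (2 * n)
  push_cast at c1 c2
  have e1 : 3 * (n : ℝ) * bb (3 * n) * (n * bb n) ≤
      (2 * (n : ℝ) + 1 / 2) * bb (2 * n) * ((2 * (n : ℝ) + 1 / 2) * bb (2 * n)) :=
    mul_le_mul c1 c2 (by positivity) (by positivity)
  have e2 : bb (3 * n) * bb n / bb (2 * n) ^ 2 ≤ (2 * (n : ℝ) + 1 / 2) ^ 2 / (3 * n ^ 2) := by
    rw [div_le_div_iff₀ (by positivity) (by positivity)]
    nlinarith
  rw [rhoE_eq]
  have hr : 0 < rt n := by unfold rt; positivity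
  refine (mul_le_mul_of_nonneg_left e2 hr.le).trans ?_
  unfold rt
  obtain ⟨t, ht⟩ : ∃ t : ℝ, (n : ℝ) = t + 1 := ⟨n - 1, by ring⟩
  have ht0 : 0 ≤ t := by linarith
  rw [ht, div_mul_div_comm, div_le_iff₀ (by positivity), one_add_div (by positivity),
    div_mul_eq_mul_div, le_div_iff₀ (by positivity)]
  rw [← sub_nonneg]
  ring_nf
  positivity

theorem tendsto_rhoE : Tendsto rhoE atTop (𝓝 1) := by
  have h0 : Tendsto (fun n : ℕ => 1 / (n : ℝ)) atTop (𝓝 0) := tendsto_one_div_atTop_nhds_zero_nat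
  have h1 : Tendsto (fun n : ℕ => 1 - 1 / (n : ℝ)) atTop (𝓝 1) := by
    simpa using h0.const_sub 1
  have h2 : Tendsto (fun n : ℕ => 1 + 1 / (n : ℝ)) atTop (𝓝 1) := by
    simpa using h0.const_add 1
  refine tendsto_of_tendsto_of_tendsto_of_le_of_le' h1 h2 ?_ ?_
  · filter_upwards [eventually_ge_atTop 1] with n hn using rhoE_lower hn
  · filter_upwards [eventually_ge_atTop 1] with n hn using rhoE_upper hn

/-! ### bounds for the second ratio -/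

theorem rrE_M (x : ℝ) (hx : 1 ≤ x) : rrE x = 256 * ((2 * x + 2) ^ 2 - 1) ^ 4 *
    (9 * (2 * x + 2) ^ 2 - 1) ^ 2 / ((4 * (2 * x + 2) ^ 2 - 9) * (4 * (2 * x + 2) ^ 2 - 1) ^ 3 *
      ((9 * (2 * x + 2) ^ 2 - 16) * (9 * (2 * x + 2) ^ 2 - 4))) := by
  have hM : 16 ≤ (2 * x + 2) ^ 2 := by nlinarith
  have a2 : 0 < 4 * (2 * x + 2) ^ 2 - 1 := by linarith
  have a3 : 0 < 4 * (2 * x + 2) ^ 2 - 9 := by linarith
  have a4 : 0 < 9 * (2 * x + 2) ^ 2 - 16 := by linarith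
  have a5 : 0 < 9 * (2 * x + 2) ^ 2 - 4 := by linarith
  unfold rrE
  rw [div_eq_div_iff (by positivity) (by positivity)]
  ring

theorem rrE_lower (x : ℝ) (hx : 1 ≤ x) :
    ((2 * x + 2) ^ 2) ^ 3 + ((2 * x + 2) ^ 2) ^ 2 + (2 * x + 2) ^ 2 * (67 / 24) + 6 ≤
      rrE x * ((2 * x + 2) ^ 2) ^ 3 := by
  rw [rrE_M x hx]
  obtain ⟨t, ht⟩ : ∃ t : ℝ, (2 * x + 2) ^ 2 = t + 16 := ⟨(2 * x + 2) ^ 2 - 16, by ring⟩
  have ht0 : 0 ≤ t := by nlinarith
  rw [ht]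
  have a2 : 0 < 4 * (t + 16) - 1 := by linarith
  have a3 : 0 < 4 * (t + 16) - 9 := by linarith
  have a4 : 0 < 9 * (t + 16) - 16 := by linarith
  have a5 : 0 < 9 * (t + 16) - 4 := by linarith
  rw [div_mul_eq_mul_div, le_div_iff₀ (by positivity), ← sub_nonneg]
  ring_nf
  positivity

theorem rrE_upper (x : ℝ) (hx : 1 ≤ x) :
    rrE x * ((2 * x + 2) ^ 2) ^ 3 ≤
      ((2 * x + 2) ^ 2) ^ 3 + ((2 * x + 2) ^ 2) ^ 2 + (2 * x + 2) ^ 2 * (67 / 24) + 9 := by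
  rw [rrE_M x hx]
  obtain ⟨t, ht⟩ : ∃ t : ℝ, (2 * x + 2) ^ 2 = t + 16 := ⟨(2 * x + 2) ^ 2 - 16, by ring⟩
  have ht0 : 0 ≤ t := by nlinarith
  rw [ht]
  have a2 : 0 < 4 * (t + 16) - 1 := by linarith
  have a3 : 0 < 4 * (t + 16) - 9 := by linarith
  have a4 : 0 < 9 * (t + 16) - 16 := by linarith
  have a5 : 0 < 9 * (t + 16) - 4 := by linarith
  rw [div_mul_eq_mul_div, div_le_iff₀ (by positivity), ← sub_nonneg]
  ring_nf
  positivity

theorem rrE_pos (x : ℝ) (hx : 0 ≤ x) : 0 < rrE x := by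
  unfold rrE
  positivity

/-- `rrE⁴ (1 - 4/M) ≥ 1` -/
theorem rrE_ratio1 (x : ℝ) (hx : 1 ≤ x) :
    (2 * x + 2) ^ 2 ≤ rrE x ^ 4 * ((2 * x + 2) ^ 2 - 4) := by
  have h1 := rrE_lower x hx
  have hr := rrE_pos x (by linarith)
  obtain ⟨t, ht⟩ : ∃ t : ℝ, (2 * x + 2) ^ 2 = t + 16 := ⟨(2 * x + 2) ^ 2 - 16, by ring⟩
  have ht0 : 0 ≤ t := by nlinarith
  rw [ht] at h1 ⊢
  have h2 : ((t + 16) ^ 3 + (t + 16) ^ 2 + (t + 16) * (67 / 24) + 6) ^ 4 ≤ (rrE x * (t + 16) ^ 3) ^ 4 :=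
    pow_le_pow_left₀ (by positivity) h1 4
  have h3 : (t + 16) ^ 12 * (t + 16) ≤
      ((t + 16) ^ 3 + (t + 16) ^ 2 + (t + 16) * (67 / 24) + 6) ^ 4 * (t + 16 - 4) := by
    rw [← sub_nonneg]
    ring_nf
    positivity
  have h4 : (t + 16) ^ 12 * (t + 16) ≤ (t + 16) ^ 12 * (rrE x ^ 4 * (t + 16 - 4)) := by
    calc _ ≤ _ := h3
      _ ≤ (rrE x * (t + 16) ^ 3) ^ 4 * (t + 16 - 4) := mul_le_mul_of_nonneg_right h2 (by linarith)
      _ = _ := by ring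
  exact le_of_mul_le_mul_left h4 (by positivity)

theorem rrE_ratio2 (x : ℝ) (hx : 1 ≤ x) :
    rrE x ^ 4 * ((2 * x + 2) ^ 2 * (((2 * x + 2) ^ 2 - 4) ^ 2 -
      (1 / 20) * (2 * (2 * x + 2) ^ 2 + 8) + 1 / 400)) ≤
      ((2 * x + 2) ^ 2 - 1 / 20) ^ 2 * ((2 * x + 2) ^ 2 - 4) := by
  have h1 := rrE_upper x hx
  have hr := rrE_pos x (by linarith)
  obtain ⟨t, ht⟩ : ∃ t : ℝ, (2 * x + 2) ^ 2 = t + 16 := ⟨(2 * x + 2) ^ 2 - 16, by ring⟩
  have ht0 : 0 ≤ t := by nlinarith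
  rw [ht] at h1 ⊢
  have h2 : (rrE x * (t + 16) ^ 3) ^ 4 ≤ ((t + 16) ^ 3 + (t + 16) ^ 2 + (t + 16) * (67 / 24) + 9) ^ 4 :=
    pow_le_pow_left₀ (by positivity) h1 4
  have hB : 0 ≤ (t + 16) * ((t + 16 - 4) ^ 2 - (1 / 20) * (2 * (t + 16) + 8) + 1 / 400) := by
    ring_nf
    positivity
  have h3 : ((t + 16) ^ 3 + (t + 16) ^ 2 + (t + 16) * (67 / 24) + 9) ^ 4 *
      ((t + 16) * ((t + 16 - 4) ^ 2 - (1 / 20) * (2 * (t + 16) + 8) + 1 / 400)) ≤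
      (t + 16) ^ 12 * ((t + 16 - 1 / 20) ^ 2 * (t + 16 - 4)) := by
    rw [← sub_nonneg]
    ring_nf
    positivity
  have h4 : (t + 16) ^ 12 * (rrE x ^ 4 * ((t + 16) * ((t + 16 - 4) ^ 2 -
      (1 / 20) * (2 * (t + 16) + 8) + 1 / 400))) ≤
      (t + 16) ^ 12 * ((t + 16 - 1 / 20) ^ 2 * (t + 16 - 4)) := by
    calc _ = (rrE x * (t + 16) ^ 3) ^ 4 *
        ((t + 16) * ((t + 16 - 4) ^ 2 - (1 / 20) * (2 * (t + 16) + 8) + 1 / 400)) := by ring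
      _ ≤ _ := mul_le_mul_of_nonneg_right h2 hB
      _ ≤ _ := h3
  exact le_of_mul_le_mul_left h4 (by positivity)

/-! ### the sequences -/

/-- `N` times the fourth power of the probability, `N = 2n+2` -/
noncomputable def wwE (n : ℕ) : ℝ := pvE (n + 1) ^ 4 * (2 * (n : ℝ) + 2)

/-- ratio -/
noncomputable def ttE (n : ℕ) : ℝ := rhoE (n + 1) ^ 4 * (((n : ℝ) + 2) / (n + 1))

theorem wwE_pos (n : ℕ) : 0 < wwE n := by
  unfold wwE
  have := pvE_pos (n + 1)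
  positivity

theorem ttE_pos (n : ℕ) : 0 < ttE n := by
  unfold ttE
  have := rhoE_pos (n + 1)
  positivity

theorem wwE_succ (n : ℕ) : wwE (n + 1) = wwE n * ttE n := by
  unfold wwE ttE
  rw [pvE_succ (n + 1)]
  push_cast
  field_simp
  ring

theorem ttE_succ (n : ℕ) : ttE (n + 1) = ttE n * (rrE ((n : ℝ) + 1) ^ 4 *
    ((2 * ((n : ℝ) + 1) + 2) ^ 2 - 4)) / (2 * ((n : ℝ) + 1) + 2) ^ 2 := by
  unfold ttE
  rw [rhoE_succ (n + 1)]
  push_cast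
  field_simp
  ring

theorem ttE_mono : Monotone ttE := monotone_nat_of_le_succ fun n => by
  have h := rrE_ratio1 ((n : ℝ) + 1) (by linarith [Nat.cast_nonneg (α := ℝ) n])
  have ht := ttE_pos n
  rw [ttE_succ, mul_div_assoc]
  refine le_mul_of_one_le_right ht.le ?_
  rw [one_le_div (by positivity)]
  exact h

theorem tendsto_ttE : Tendsto ttE atTop (𝓝 1) := by
  have h1 : Tendsto (fun n : ℕ => rhoE (n + 1)) atTop (𝓝 1) :=
    tendsto_rhoE.comp (tendsto_add_atTop_nat 1)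
  have h2 : Tendsto (fun n : ℕ => ((n : ℝ) + 2) / (n + 1)) atTop (𝓝 1) := by
    have h3 : (fun n : ℕ => ((n : ℝ) + 2) / (n + 1)) = fun n : ℕ => 1 + 1 / ((n : ℝ) + 1) := by
      funext n
      field_simp
      ring
    rw [h3]
    simpa using tendsto_one_div_add_atTop_nhds_zero_nat.const_add (1 : ℝ)
  have h4 := (h1.pow 4).mul h2
  have e : ttE = fun n : ℕ => rhoE (n + 1) ^ 4 * (((n : ℝ) + 2) / (n + 1)) := rfl
  rw [e]
  simpa using h4

theorem ttE_le_one (n : ℕ) : ttE n ≤ 1 := ttE_mono.ge_of_tendsto tendsto_ttE n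

theorem wwE_anti : Antitone wwE := antitone_nat_of_succ_le fun n => by
  rw [wwE_succ]
  exact mul_le_of_le_one_right (wwE_pos n).le (ttE_le_one n)

/-- `1 - 1/(20 N²)`, `N = 2n+2` -/
noncomputable def kkE (n : ℕ) : ℝ := 1 - 1 / (20 * (2 * (n : ℝ) + 2) ^ 2)

theorem kkE_pos (n : ℕ) : 0 < kkE n := by
  unfold kkE
  have hn : (0 : ℝ) ≤ n := Nat.cast_nonneg n
  rw [sub_pos, div_lt_one (by positivity)]
  nlinarith

/-- corrected ratio -/
noncomputable def ssE (n : ℕ) : ℝ := ttE n * kkE (n + 1) / kkE n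

theorem ssE_succ (n : ℕ) : ssE (n + 1) ≤ ssE n := by
  have h1 := rrE_ratio2 ((n : ℝ) + 1) (by linarith [Nat.cast_nonneg (α := ℝ) n])
  have h2 := ttE_succ n
  have h3 := ttE_pos n
  have hn : (0 : ℝ) ≤ n := Nat.cast_nonneg n
  have k0 := kkE_pos n
  have k1 := kkE_pos (n + 1)
  have k2 := kkE_pos (n + 2)
  have e0 : 2 * ((n : ℝ) + 1) + 2 = 2 * n + 4 := by ring
  rw [e0] at h1 h2
  unfold ssE
  rw [div_le_div_iff₀ k1 k0, h2]
  have key : (rrE ((n : ℝ) + 1) ^ 4 * ((2 * (n : ℝ) + 4) ^ 2 - 4)) * (kkE (n + 2) * kkE n) ≤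
      kkE (n + 1) * kkE (n + 1) * (2 * (n : ℝ) + 4) ^ 2 := by
    have a0 : kkE n = (20 * (2 * (n : ℝ) + 2) ^ 2 - 1) / (20 * (2 * (n : ℝ) + 2) ^ 2) := by
      unfold kkE; field_simp
    have a1 : kkE (n + 1) = (20 * (2 * (n : ℝ) + 4) ^ 2 - 1) / (20 * (2 * (n : ℝ) + 4) ^ 2) := by
      unfold kkE; push_cast
      rw [show 2 * ((n : ℝ) + 1) + 2 = 2 * n + 4 by ring]
      field_simp
    have a2 : kkE (n + 2) = (20 * (2 * (n : ℝ) + 6) ^ 2 - 1) / (20 * (2 * (n : ℝ) + 6) ^ 2) := by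
      unfold kkE; push_cast
      rw [show 2 * ((n : ℝ) + 2) + 2 = 2 * n + 6 by ring]
      field_simp
    rw [a0, a1, a2]
    have e2 : (20 * (2 * (n : ℝ) + 4) ^ 2 - 1) / (20 * (2 * (n : ℝ) + 4) ^ 2) *
        ((20 * (2 * (n : ℝ) + 4) ^ 2 - 1) / (20 * (2 * (n : ℝ) + 4) ^ 2)) * (2 * (n : ℝ) + 4) ^ 2 =
        (((2 * (n : ℝ) + 4) ^ 2 - 1 / 20) ^ 2) / (2 * (n : ℝ) + 4) ^ 2 := by
      field_simp
    have e4 : (2 * (n : ℝ) + 4) ^ 2 - 4 = (2 * (n : ℝ) + 6) * (2 * n + 2) := by ring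
    have e3 : (rrE ((n : ℝ) + 1) ^ 4 * ((2 * (n : ℝ) + 4) ^ 2 - 4)) *
        ((20 * (2 * (n : ℝ) + 6) ^ 2 - 1) / (20 * (2 * (n : ℝ) + 6) ^ 2) *
          ((20 * (2 * (n : ℝ) + 2) ^ 2 - 1) / (20 * (2 * (n : ℝ) + 2) ^ 2))) =
        (rrE ((n : ℝ) + 1) ^ 4 * (((2 * (n : ℝ) + 4) ^ 2 - 4) ^ 2 -
        (1 / 20) * (2 * (2 * (n : ℝ) + 4) ^ 2 + 8) + 1 / 400)) / ((2 * (n : ℝ) + 4) ^ 2 - 4) := by
      rw [e4]
      field_simp
      ring
    rw [e2, e3, div_le_div_iff₀ (by rw [e4]; positivity) (by positivity)]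
    linarith
  have e6 : ttE n * (rrE ((n : ℝ) + 1) ^ 4 * ((2 * (n : ℝ) + 4) ^ 2 - 4)) / (2 * (n : ℝ) + 4) ^ 2 *
      kkE (n + 2) * kkE n = ttE n * ((rrE ((n : ℝ) + 1) ^ 4 * ((2 * (n : ℝ) + 4) ^ 2 - 4)) *
        (kkE (n + 2) * kkE n)) / (2 * (n : ℝ) + 4) ^ 2 := by ring
  have e7 : ttE n * kkE (n + 1) * kkE (n + 1) =
      ttE n * (kkE (n + 1) * kkE (n + 1) * (2 * (n : ℝ) + 4) ^ 2) / (2 * (n : ℝ) + 4) ^ 2 := by
    field_simp
  show _ * kkE (n + 2) * kkE n ≤ ttE n * kkE (n + 1) * kkE (n + 1)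
  rw [e6, e7]
  gcongr

theorem ssE_anti : Antitone ssE := antitone_nat_of_succ_le ssE_succ

theorem kkE_le (n : ℕ) : kkE n ≤ kkE (n + 1) := by
  unfold kkE
  push_cast
  gcongr
  linarith

theorem ttE_le_ssE (n : ℕ) : ttE n ≤ ssE n := by
  unfold ssE
  rw [le_div_iff₀ (kkE_pos n)]
  exact mul_le_mul_of_nonneg_left (kkE_le n) (ttE_pos n).le

theorem one_le_ssE (k : ℕ) : 1 ≤ ssE k := by
  refine le_of_tendsto tendsto_ttE ?_
  filter_upwards [eventually_ge_atTop k] with n hn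
  exact (ttE_le_ssE n).trans (ssE_anti hn)

/-- corrected sequence -/
noncomputable def vvE (n : ℕ) : ℝ := wwE n * kkE n

theorem vvE_mono : Monotone vvE := monotone_nat_of_le_succ fun n => by
  unfold vvE
  rw [wwE_succ]
  have h := one_le_ssE n
  unfold ssE at h
  rw [one_le_div (kkE_pos n)] at h
  calc wwE n * kkE n ≤ wwE n * (ttE n * kkE (n + 1)) := mul_le_mul_of_nonneg_left h (wwE_pos n).le
    _ = wwE n * ttE n * kkE (n + 1) := by ring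

theorem kkE_le_one (n : ℕ) : kkE n ≤ 1 := by
  unfold kkE
  have : (0 : ℝ) ≤ 1 / (20 * (2 * (n : ℝ) + 2) ^ 2) := by positivity
  linarith

theorem vvE_le_wwE (n : ℕ) : vvE n ≤ wwE n := by
  unfold vvE
  exact mul_le_of_le_one_right (wwE_pos n).le (kkE_le_one n)

theorem vvE_le_wwE' (m n : ℕ) : vvE m ≤ wwE n := by
  rcases le_total m n with h | h
  · exact (vvE_mono h).trans (vvE_le_wwE n)
  · exact (vvE_le_wwE m).trans (wwE_anti h)

theorem exists_limitE : ∃ c : ℝ, ∀ n, vvE n ≤ c ∧ c ≤ wwE n := by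
  refine ⟨⨆ n, vvE n, fun n => ⟨?_, ?_⟩⟩
  · exact le_ciSup ⟨wwE 0, by rintro _ ⟨m, rfl⟩; exact vvE_le_wwE' m 0⟩ n
  · exact ciSup_le fun m => vvE_le_wwE' m n

theorem pvE_five : pvE 5 = 10794522725 / 32334531372 := by
  have h1 : rhoE 1 = rhoE 0 * rrE 0 := by
    have := rhoE_succ 0
    simpa using this
  have h2 : rhoE 2 = rhoE 1 * rrE 1 := by
    have := rhoE_succ 1
    simpa using this
  have h3 : rhoE 3 = rhoE 2 * rrE 2 := by
    have := rhoE_succ 2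
    simpa using this
  have h4 : rhoE 4 = rhoE 3 * rrE 3 := by
    have := rhoE_succ 3
    simpa using this
  rw [show (5 : ℕ) = 4 + 1 from rfl, pvE_succ, show (4 : ℕ) = 3 + 1 from rfl, pvE_succ,
    show (3 : ℕ) = 2 + 1 from rfl, pvE_succ, show (2 : ℕ) = 1 + 1 from rfl, pvE_succ,
    show (1 : ℕ) = 0 + 1 from rfl, pvE_succ, pvE_zero]
  simp only [Nat.zero_add, Nat.reduceAdd]
  rw [h4, h3, h2, h1, rhoE_zero]
  unfold rrE
  norm_num

/-- the asymptotic form of the probability, with explicit error -/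
theorem pvE_asymp : ∃ C : ℝ, 0.5935 < C ∧ C < 0.5937 ∧ ∀ n : ℕ,
    C ≤ (2 * (n : ℝ) + 2) ^ (1 / 4 : ℝ) * pvE (n + 1) ∧
      (2 * (n : ℝ) + 2) ^ (1 / 4 : ℝ) * pvE (n + 1) ≤
        C * (1 + 1 / (75 * (2 * (n : ℝ) + 2) ^ 2)) := by
  obtain ⟨c, hc⟩ := exists_limitE
  have hc5 := hc 4
  have hw5 : wwE 4 = (10794522725 / 32334531372) ^ 4 * 10 := by
    unfold wwE
    rw [show 4 + 1 = 5 from rfl, pvE_five]
    norm_num
  have hv5 : vvE 4 = (10794522725 / 32334531372) ^ 4 * 10 * (1 - 1 / 2000) := by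
    unfold vvE kkE
    rw [hw5]
    norm_num
  rw [hw5, hv5] at hc5
  have hc0 : 0 < c := lt_of_lt_of_le (by norm_num) hc5.1
  obtain ⟨C, hC⟩ : ∃ C : ℝ, C = c ^ (1 / 4 : ℝ) := ⟨_, rfl⟩
  have hC0 : 0 < C := by rw [hC]; exact Real.rpow_pos_of_pos hc0 _
  have hC4 : C ^ 4 = c := by
    rw [hC, ← Real.rpow_natCast, ← Real.rpow_mul hc0.le]
    norm_num
  refine ⟨C, ?_, ?_, fun n => ?_⟩
  · by_contra hcon
    rw [not_lt] at hcon
    have h1 : C ^ 4 ≤ 0.5935 ^ 4 := pow_le_pow_left₀ hC0.le hcon 4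
    rw [hC4] at h1
    have h2 := hc5.1.trans h1
    norm_num at h2
  · by_contra hcon
    rw [not_lt] at hcon
    have h1 : 0.5937 ^ 4 ≤ C ^ 4 := pow_le_pow_left₀ (by norm_num) hcon 4
    rw [hC4] at h1
    have h2 := h1.trans hc5.2
    norm_num at h2
  · obtain ⟨h1, h2⟩ := hc n
    have hn : (0 : ℝ) ≤ n := Nat.cast_nonneg n
    have hL : (0 : ℝ) < 2 * (n : ℝ) + 2 := by positivity
    obtain ⟨a, ha⟩ : ∃ a : ℝ, a = (2 * (n : ℝ) + 2) ^ (1 / 4 : ℝ) := ⟨_, rfl⟩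
    have ha0 : 0 < a := by rw [ha]; exact Real.rpow_pos_of_pos hL _
    have ha4 : a ^ 4 = 2 * (n : ℝ) + 2 := by
      rw [ha, ← Real.rpow_natCast, ← Real.rpow_mul hL.le]
      norm_num
    have hp := pvE_pos (n + 1)
    rw [← ha]
    have hap : (a * pvE (n + 1)) ^ 4 = wwE n := by
      unfold wwE
      rw [mul_pow, ha4]; ring
    constructor
    · have h4 : C ^ 4 ≤ (a * pvE (n + 1)) ^ 4 := by rw [hap, hC4]; exact h2
      exact le_of_pow_le_pow_left₀ (by norm_num) (by positivity) h4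
    · obtain ⟨x, hx⟩ : ∃ x : ℝ, x = 1 / (75 * (2 * (n : ℝ) + 2) ^ 2) := ⟨_, rfl⟩
      have hx0 : 0 < x := by rw [hx]; positivity
      have hx1 : x ≤ 1 / 300 := by
        rw [hx]
        apply div_le_div_of_nonneg_left (by norm_num) (by norm_num)
        nlinarith
      rw [← hx]
      have hk : kkE n = 1 - 15 / 4 * x := by
        unfold kkE
        rw [hx]
        field_simp
        ring
      have h3 : (a * pvE (n + 1)) ^ 4 * (1 - 15 / 4 * x) ≤ C ^ 4 := by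
        rw [hap, hC4, ← hk]
        exact h1
      have h4 : (a * pvE (n + 1)) ^ 4 ≤ (C * (1 + x)) ^ 4 := by
        have h5 : 1 ≤ (1 + x) ^ 4 * (1 - 15 / 4 * x) := by
          have e1 : (1 + x) ^ 4 * (1 - 15 / 4 * x) - 1 = x * (1 / 4 - 9 * x - x ^ 2 * (37 / 2) -
            x ^ 3 * (14 + 15 / 4 * x)) := by ring
          have e2 : 0 ≤ 1 / 4 - 9 * x - x ^ 2 * (37 / 2) - x ^ 3 * (14 + 15 / 4 * x) := by
            have f2 : x ^ 2 ≤ (1 / 300) ^ 2 := pow_le_pow_left₀ hx0.le hx1 2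
            have f3 : x ^ 3 ≤ (1 / 300) ^ 3 := pow_le_pow_left₀ hx0.le hx1 3
            have f4 : x ^ 3 * (14 + 15 / 4 * x) ≤ (1 / 300) ^ 3 * (14 + 15 / 4 * (1 / 300)) := by
              gcongr
            nlinarith
          have e3 := mul_nonneg hx0.le e2
          linarith
        have h7 : 0 ≤ (a * pvE (n + 1)) ^ 4 := by positivity
        calc (a * pvE (n + 1)) ^ 4 ≤ (a * pvE (n + 1)) ^ 4 * ((1 + x) ^ 4 * (1 - 15 / 4 * x)) :=
              le_mul_of_one_le_right h7 h5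
          _ = ((a * pvE (n + 1)) ^ 4 * (1 - 15 / 4 * x)) * (1 + x) ^ 4 := by ring
          _ ≤ C ^ 4 * (1 + x) ^ 4 := mul_le_mul_of_nonneg_right h3 (by positivity)
          _ = (C * (1 + x)) ^ 4 := by ring
      exact le_of_pow_le_pow_left₀ (by norm_num) (by positivity) h4

end Pool.Agent.Helper21.EV
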