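import Pool.Graph.R_seed8.H863R2.Cyl.Sem3
import Pool.Graph.R_seed8.H863R2.Cyl.Sem4
import Pool.Graph.R_seed8.H863R2.Cyl.Markov
import Pool.Agent.Helper21.EV.Defs

/-!
# Deterministic part: patterns and wrapping clusters
-/

namespace Pool.Agent.Helper21.EV

open Pool.Agent.H863R2.Cyl Relation
open Pool.Agent.H988R2.Perc (Word)

variable {m : ℕ}

/-- the `M` rows below level `t0` -/
def lowc (ω : Fin (m + 1) × ℤ → Bool) (t0 : ℤ) (M : ℕ) : ℕ → Fin (m + 1) → Bool :=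
  fun s j => ω (j, t0 - M + s)

/-- the `M` rows above level `t0`, seen upside down -/
def uppc (ω : Fin (m + 1) × ℤ → Bool) (t0 : ℤ) (M : ℕ) : ℕ → Fin (m + 1) → Bool :=
  fun s j => !ω (j, t0 + M - 1 - s)

theorem cl_col (c : Fin (m + 1) → Bool) (j : ℤ) : cl c j = c (col m j) := by
  unfold cl col
  congr 1
  apply Fin.ext
  unfold ix
  have h1 := Int.emod_nonneg j (show (m + 1 : ℤ) ≠ 0 by omega)
  have h2 := Int.emod_lt_of_pos j (show (0 : ℤ) < m + 1 by omega)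
  show (j % (m + 1 : ℤ)).toNat % (m + 1) = (j % (m + 1 : ℤ)).toNat
  exact Nat.mod_eq_of_lt (by omega)

/-- connections inside the slab `[t0-M, t0+M]`, with patterns at the bottom and at the top -/
inductive Sl (ω : Fin (m + 1) × ℤ → Bool) (t0 : ℤ) (M : ℕ) (w' w : Word) : ℤ × ℤ → ℤ × ℤ → Prop
  | ur (j t : ℤ) : t0 - M ≤ t → t < t0 + M → ω (col m j, t) = false →
      Sl ω t0 M w' w (j, t) (j + 1, t + 1)
  | ul (j t : ℤ) : t0 - M ≤ t → t < t0 + M → ω (col m j, t) = true →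
      Sl ω t0 M w' w (j + 1, t) (j, t + 1)
  | bot (a b : ℤ) : Rw w' a b → Sl ω t0 M w' w (a, t0 - M) (b, t0 - M)
  | top (a b : ℤ) : Rw w a b → Sl ω t0 M w' w (a, t0 + M) (b, t0 + M)

theorem eqv_iff {α : Type*} {G : α → α → Prop} {x y z : α} (h : G x y) :
    EqvGen G x z ↔ EqvGen G y z :=
  ⟨fun h' => (EqvGen.rel _ _ h).symm.trans _ _ _ h', fun h' => (EqvGen.rel _ _ h).trans _ _ _ h'⟩

theorem eqv_map' {α β : Type*} {G : α → α → Prop} {G' : β → β → Prop} (r : α → β)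
    (h : ∀ a b, G a b → EqvGen G' (r a) (r b)) {a b : α}
    (hab : EqvGen G a b) : EqvGen G' (r a) (r b) := by
  induction hab with
  | rel a b hab => exact h _ _ hab
  | refl a => exact EqvGen.refl _
  | symm a b _ ih => exact ih.symm
  | trans a b c _ _ ih1 ih2 => exact ih1.trans _ _ _ ih2

/-- the gluing relation at the level `t0` -/
def GLR (w' w : Word) (a b : ℤ) : Prop := EqvGen (fun j k => Rw w' j k ∨ Rw w j k) a b

theorem low_to_sl (ω : Fin (m + 1) × ℤ → Bool) (t0 : ℤ) (M : ℕ) (w' w : Word) {x y : ℤ × ℕ}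
    (h : EqvGen (Lk m (lowc ω t0 M) M w') x y) :
    EqvGen (Sl ω t0 M w' w) (x.1, t0 - M + x.2) (y.1, t0 - M + y.2) := by
  refine eqv_map' (fun x : ℤ × ℕ => (x.1, t0 - M + (x.2 : ℤ))) ?_ h
  intro a b hab
  cases hab with
  | bot a b h =>
    have := EqvGen.rel _ _ (Sl.bot (ω := ω) (t0 := t0) (M := M) (w' := w') (w := w) a b h)
    simpa using this
  | link0 j t ht h =>
    rw [cl_col] at h
    have := EqvGen.rel _ _ (Sl.ur (ω := ω) (t0 := t0) (M := M) (w' := w') (w := w) j (t0 - M + t)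
      (by omega) (by omega) h)
    have e : t0 - (M : ℤ) + (t : ℤ) + 1 = t0 - M + ((t + 1 : ℕ) : ℤ) := by push_cast; ring
    rw [e] at this
    exact this
  | link1 j t ht h =>
    rw [cl_col] at h
    have := EqvGen.rel _ _ (Sl.ul (ω := ω) (t0 := t0) (M := M) (w' := w') (w := w) j (t0 - M + t)
      (by omega) (by omega) h)
    have e : t0 - (M : ℤ) + (t : ℤ) + 1 = t0 - M + ((t + 1 : ℕ) : ℤ) := by push_cast; ring
    rw [e] at this
    exact this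

theorem upp_to_sl (ω : Fin (m + 1) × ℤ → Bool) (t0 : ℤ) (M : ℕ) (w' w : Word) {x y : ℤ × ℕ}
    (h : EqvGen (Lk m (uppc ω t0 M) M w) x y) :
    EqvGen (Sl ω t0 M w' w) (x.1, t0 + M - x.2) (y.1, t0 + M - y.2) := by
  refine eqv_map' (fun x : ℤ × ℕ => (x.1, t0 + M - (x.2 : ℤ))) ?_ h
  intro a b hab
  cases hab with
  | bot a b h =>
    have := EqvGen.rel _ _ (Sl.top (ω := ω) (t0 := t0) (M := M) (w' := w') (w := w) a b h)
    simpa using this
  | link0 j t ht h =>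
    rw [cl_col] at h
    have h' : ω (col m j, t0 + M - 1 - t) = true := by simpa [uppc] using h
    have := (EqvGen.rel _ _ (Sl.ul (ω := ω) (t0 := t0) (M := M) (w' := w') (w := w) j
      (t0 + M - 1 - t) (by omega) (by omega) h')).symm
    have e : t0 + (M : ℤ) - 1 - (t : ℤ) + 1 = t0 + M - t := by ring
    have e2 : t0 + (M : ℤ) - 1 - (t : ℤ) = t0 + M - ((t + 1 : ℕ) : ℤ) := by push_cast; ring
    rw [e, e2] at this
    exact this
  | link1 j t ht h =>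
    rw [cl_col] at h
    have h' : ω (col m j, t0 + M - 1 - t) = false := by simpa [uppc] using h
    have := (EqvGen.rel _ _ (Sl.ur (ω := ω) (t0 := t0) (M := M) (w' := w') (w := w) j
      (t0 + M - 1 - t) (by omega) (by omega) h')).symm
    have e : t0 + (M : ℤ) - 1 - (t : ℤ) + 1 = t0 + M - t := by ring
    have e2 : t0 + (M : ℤ) - 1 - (t : ℤ) = t0 + M - ((t + 1 : ℕ) : ℤ) := by push_cast; ring
    rw [e, e2] at this
    exact this

/-- the lower half: what the site `p` is connected to at the level `t0` -/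
def CL (ω : Fin (m + 1) × ℤ → Bool) (t0 : ℤ) (M : ℕ) (σ τ : Wd (m + 1)) (p : ℤ × ℤ) : Set ℤ :=
  {b | ∃ a, EqvGen (Lk m (lowc ω t0 M) M σ.1) (p.1, (p.2 - t0 + M).toNat) (a, M) ∧
    GLR (rows m (lowc ω t0 M) M σ).1 (rows m (uppc ω t0 M) M τ).1 a b}

/-- the upper half -/
def CU (ω : Fin (m + 1) × ℤ → Bool) (t0 : ℤ) (M : ℕ) (σ τ : Wd (m + 1)) (p : ℤ × ℤ) : Set ℤ :=
  {b | ∃ a, EqvGen (Lk m (uppc ω t0 M) M τ.1) (p.1, (t0 + M - p.2).toNat) (a, M) ∧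
    GLR (rows m (lowc ω t0 M) M σ).1 (rows m (uppc ω t0 M) M τ).1 a b}

theorem CL_mid (hm : 1 ≤ m) (ω : Fin (m + 1) × ℤ → Bool) (t0 : ℤ) (M : ℕ) (σ τ : Wd (m + 1))
    (x : ℤ) : CL ω t0 M σ τ (x, t0) =
      {b | GLR (rows m (lowc ω t0 M) M σ).1 (rows m (uppc ω t0 M) M τ).1 x b} := by
  ext b
  have e : (t0 - t0 + (M : ℤ)).toNat = M := by omega
  show (∃ a, EqvGen (Lk m (lowc ω t0 M) M σ.1) (x, (t0 - t0 + M).toNat) (a, M) ∧ _) ↔ _
  rw [e]
  constructor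
  · rintro ⟨a, h1, h2⟩
    have h3 : GLR (rows m (lowc ω t0 M) M σ).1 (rows m (uppc ω t0 M) M τ).1 x a :=
      EqvGen.rel _ _ (Or.inl ((Rw_rows m hm _ _ _ _ _).2 h1))
    exact EqvGen.trans _ _ _ h3 h2
  · intro h
    exact ⟨x, EqvGen.refl _, h⟩

theorem CU_mid (hm : 1 ≤ m) (ω : Fin (m + 1) × ℤ → Bool) (t0 : ℤ) (M : ℕ) (σ τ : Wd (m + 1))
    (x : ℤ) : CU ω t0 M σ τ (x, t0) =
      {b | GLR (rows m (lowc ω t0 M) M σ).1 (rows m (uppc ω t0 M) M τ).1 x b} := by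
  ext b
  have e : (t0 + (M : ℤ) - t0).toNat = M := by omega
  show (∃ a, EqvGen (Lk m (uppc ω t0 M) M τ.1) (x, (t0 + M - t0).toNat) (a, M) ∧ _) ↔ _
  rw [e]
  constructor
  · rintro ⟨a, h1, h2⟩
    have h3 : GLR (rows m (lowc ω t0 M) M σ).1 (rows m (uppc ω t0 M) M τ).1 x a :=
      EqvGen.rel _ _ (Or.inr ((Rw_rows m hm _ _ _ _ _).2 h1))
    exact EqvGen.trans _ _ _ h3 h2
  · intro h
    exact ⟨x, EqvGen.refl _, h⟩

open Classical in
/-- what the site `p` is connected to at the level `t0` -/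
noncomputable def CCE (ω : Fin (m + 1) × ℤ → Bool) (t0 : ℤ) (M : ℕ) (σ τ : Wd (m + 1))
    (p : ℤ × ℤ) : Set ℤ := if p.2 ≤ t0 then CL ω t0 M σ τ p else CU ω t0 M σ τ p

theorem CCE_low (ω : Fin (m + 1) × ℤ → Bool) (t0 : ℤ) (M : ℕ) (σ τ : Wd (m + 1))
    {p : ℤ × ℤ} (h : p.2 ≤ t0) : CCE ω t0 M σ τ p = CL ω t0 M σ τ p := if_pos h

theorem CCE_upp (hm : 1 ≤ m) (ω : Fin (m + 1) × ℤ → Bool) (t0 : ℤ) (M : ℕ) (σ τ : Wd (m + 1))
    {p : ℤ × ℤ} (h : t0 ≤ p.2) : CCE ω t0 M σ τ p = CU ω t0 M σ τ p := by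
  unfold CCE
  split_ifs with h'
  · obtain ⟨x, t⟩ := p
    have : t = t0 := le_antisymm h' h
    subst this
    rw [CL_mid hm, CU_mid hm]
  · rfl

theorem CL_congr {ω : Fin (m + 1) × ℤ → Bool} {t0 : ℤ} {M : ℕ} {σ τ : Wd (m + 1)}
    {p q : ℤ × ℤ} (h : Lk m (lowc ω t0 M) M σ.1 (p.1, (p.2 - t0 + M).toNat)
      (q.1, (q.2 - t0 + M).toNat)) : CL ω t0 M σ τ p = CL ω t0 M σ τ q := by
  ext b
  constructor
  · rintro ⟨a, h1, h2⟩
    exact ⟨a, (eqv_iff h).1 h1, h2⟩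
  · rintro ⟨a, h1, h2⟩
    exact ⟨a, (eqv_iff h).2 h1, h2⟩

theorem CU_congr {ω : Fin (m + 1) × ℤ → Bool} {t0 : ℤ} {M : ℕ} {σ τ : Wd (m + 1)}
    {p q : ℤ × ℤ} (h : Lk m (uppc ω t0 M) M τ.1 (p.1, (t0 + M - p.2).toNat)
      (q.1, (t0 + M - q.2).toNat)) : CU ω t0 M σ τ p = CU ω t0 M σ τ q := by
  ext b
  constructor
  · rintro ⟨a, h1, h2⟩
    exact ⟨a, (eqv_iff h).1 h1, h2⟩
  · rintro ⟨a, h1, h2⟩
    exact ⟨a, (eqv_iff h).2 h1, h2⟩

theorem CCE_step (hm : 1 ≤ m) (ω : Fin (m + 1) × ℤ → Bool) (t0 : ℤ) (M : ℕ) (σ τ : Wd (m + 1))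
    {p q : ℤ × ℤ} (h : Sl ω t0 M σ.1 τ.1 p q) : CCE ω t0 M σ τ p = CCE ω t0 M σ τ q := by
  cases h with
  | ur j t h1 h2 h3 =>
    by_cases ht : t < t0
    · rw [CCE_low _ _ _ _ _ (by show t ≤ t0; omega), CCE_low _ _ _ _ _ (by show t + 1 ≤ t0; omega)]
      apply CL_congr
      have e1 : (t - t0 + (M : ℤ)).toNat = (t - t0 + M).toNat := rfl
      have e2 : (t + 1 - t0 + (M : ℤ)).toNat = (t - t0 + M).toNat + 1 := by omega
      show Lk m _ M σ.1 (j, (t - t0 + (M : ℤ)).toNat) (j + 1, (t + 1 - t0 + (M : ℤ)).toNat)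
      rw [e2]
      refine Lk.link0 _ _ (by omega) ?_
      rw [cl_col]
      show ω (col m j, t0 - M + ((t - t0 + M).toNat : ℤ)) = false
      rw [show t0 - (M : ℤ) + ((t - t0 + M).toNat : ℤ) = t by omega]
      exact h3
    · rw [CCE_upp hm _ _ _ _ _ (by show t0 ≤ t; omega),
        CCE_upp hm _ _ _ _ _ (by show t0 ≤ t + 1; omega)]
      symm
      apply CU_congr
      have e2 : (t0 + (M : ℤ) - t).toNat = (t0 + M - (t + 1)).toNat + 1 := by omega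
      show Lk m _ M τ.1 (j + 1, (t0 + (M : ℤ) - (t + 1)).toNat) (j, (t0 + (M : ℤ) - t).toNat)
      rw [e2]
      refine Lk.link1 _ _ (by omega) ?_
      rw [cl_col]
      show (!ω (col m j, t0 + M - 1 - ((t0 + M - (t + 1)).toNat : ℤ))) = true
      rw [show t0 + (M : ℤ) - 1 - ((t0 + M - (t + 1)).toNat : ℤ) = t by omega, h3]
      rfl
  | ul j t h1 h2 h3 =>
    by_cases ht : t < t0
    · rw [CCE_low _ _ _ _ _ (by show t ≤ t0; omega), CCE_low _ _ _ _ _ (by show t + 1 ≤ t0; omega)]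
      apply CL_congr
      have e2 : (t + 1 - t0 + (M : ℤ)).toNat = (t - t0 + M).toNat + 1 := by omega
      show Lk m _ M σ.1 (j + 1, (t - t0 + (M : ℤ)).toNat) (j, (t + 1 - t0 + (M : ℤ)).toNat)
      rw [e2]
      refine Lk.link1 _ _ (by omega) ?_
      rw [cl_col]
      show ω (col m j, t0 - M + ((t - t0 + M).toNat : ℤ)) = true
      rw [show t0 - (M : ℤ) + ((t - t0 + M).toNat : ℤ) = t by omega]
      exact h3
    · rw [CCE_upp hm _ _ _ _ _ (by show t0 ≤ t; omega),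
        CCE_upp hm _ _ _ _ _ (by show t0 ≤ t + 1; omega)]
      symm
      apply CU_congr
      have e2 : (t0 + (M : ℤ) - t).toNat = (t0 + M - (t + 1)).toNat + 1 := by omega
      show Lk m _ M τ.1 (j, (t0 + (M : ℤ) - (t + 1)).toNat) (j + 1, (t0 + (M : ℤ) - t).toNat)
      rw [e2]
      refine Lk.link0 _ _ (by omega) ?_
      rw [cl_col]
      show (!ω (col m j, t0 + M - 1 - ((t0 + M - (t + 1)).toNat : ℤ))) = false
      rw [show t0 + (M : ℤ) - 1 - ((t0 + M - (t + 1)).toNat : ℤ) = t by omega, h3]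
      rfl
  | bot a b h =>
    rw [CCE_low _ _ _ _ _ (by show t0 - (M : ℤ) ≤ t0; omega),
      CCE_low _ _ _ _ _ (by show t0 - (M : ℤ) ≤ t0; omega)]
    apply CL_congr
    show Lk m _ M σ.1 (a, (t0 - (M : ℤ) - t0 + (M : ℤ)).toNat) (b, (t0 - M - t0 + (M : ℤ)).toNat)
    rw [show (t0 - (M : ℤ) - t0 + (M : ℤ)).toNat = 0 by omega]
    exact Lk.bot _ _ h
  | top a b h =>
    rw [CCE_upp hm _ _ _ _ _ (by show t0 ≤ t0 + (M : ℤ); omega),
      CCE_upp hm _ _ _ _ _ (by show t0 ≤ t0 + (M : ℤ); omega)]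
    apply CU_congr
    show Lk m _ M τ.1 (a, (t0 + (M : ℤ) - (t0 + (M : ℤ))).toNat)
      (b, (t0 + (M : ℤ) - (t0 + (M : ℤ))).toNat)
    rw [show (t0 + (M : ℤ) - (t0 + (M : ℤ))).toNat = 0 by omega]
    exact Lk.bot _ _ h

/-- **gluing** -/
theorem glue (hm : 1 ≤ m) (ω : Fin (m + 1) × ℤ → Bool) (t0 : ℤ) (M : ℕ) (σ τ : Wd (m + 1))
    (a b : ℤ) : EqvGen (Sl ω t0 M σ.1 τ.1) (a, t0) (b, t0) ↔
      GLR (rows m (lowc ω t0 M) M σ).1 (rows m (uppc ω t0 M) M τ).1 a b := by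
  constructor
  · intro h
    have key : ∀ p q, EqvGen (Sl ω t0 M σ.1 τ.1) p q → CCE ω t0 M σ τ p = CCE ω t0 M σ τ q := by
      intro p q h
      induction h with
      | rel x y h => exact CCE_step hm _ _ _ _ _ h
      | refl x => rfl
      | symm x y _ ih => exact ih.symm
      | trans x y z _ _ ih1 ih2 => exact ih1.trans ih2
    have h1 := key _ _ h
    rw [CCE_low _ _ _ _ _ (le_refl t0), CCE_low _ _ _ _ _ (le_refl t0), CL_mid hm, CL_mid hm] at h1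
    have h2 : b ∈ {c | GLR (rows m (lowc ω t0 M) M σ).1 (rows m (uppc ω t0 M) M τ).1 a c} := by
      rw [h1]
      exact EqvGen.refl _
    exact h2
  · intro h
    refine eqv_map' (fun x : ℤ => (x, t0)) ?_ h
    rintro x y (h | h)
    · rw [Rw_rows m hm] at h
      have := low_to_sl ω t0 M σ.1 τ.1 h
      simpa using this
    · rw [Rw_rows m hm] at h
      have := upp_to_sl ω t0 M σ.1 τ.1 h
      simpa using this

end Pool.Agent.Helper21.EV
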