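import Pool.Agent.Helper21.EV.Det

/-!
# Deterministic part: alternating rows, parity, and wrapping clusters
-/

namespace Pool.Agent.Helper21.EV

open Pool.Agent.H863R2.Cyl Relation
open Pool.Agent.H988R2.Perc (Word)

variable {m : ℕ}

/-! ### iteration of rows -/

theorem rows_congr' {c c' : ℕ → Fin (m + 1) → Bool} {M : ℕ} (h : ∀ t < M, c t = c' t)
    (σ : Wd (m + 1)) : rows m c M σ = rows m c' M σ := by
  induction M with
  | zero => rfl
  | succ M ih =>
    show Tc m (c M) (rows m c M σ) = Tc m (c' M) (rows m c' M σ)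
    rw [ih (fun t ht => h t (by omega)), h M (by omega)]

theorem rows_add' (c : ℕ → Fin (m + 1) → Bool) (A B : ℕ) (σ : Wd (m + 1)) :
    rows m c (A + B) σ = rows m (fun s => c (A + s)) B (rows m c A σ) := by
  induction B with
  | zero => rfl
  | succ B ih =>
    show Tc m (c (A + B)) (rows m c (A + B) σ) = Tc m (c (A + B)) (rows m _ B (rows m c A σ))
    rw [ih]

/-! ### alternating rows -/

/-- the alternating row -/
def alt (m : ℕ) : Fin (m + 1) → Bool := fun j => decide (j.val % 2 = 1)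

theorem alt_ix {m k : ℕ} (h : k < m + 1) : alt m (ix m k) = decide (k % 2 = 1) := by
  unfold alt ix
  simp only [Nat.mod_eq_of_lt h]

theorem word_alt (hm : 1 ≤ m) (σ : Wd (m + 1)) (j : ℕ) (hj : j ≤ m) :
    ∀ i, 2 * i < j → arcAt (2 * i) (word m (alt m) 0 j σ).1 := by
  induction j with
  | zero => intro i hi; omega
  | succ j ih =>
    intro i hi
    have hval : alt m (ix m (0 + j + 1)) = decide ((j + 1) % 2 = 1) := by
      rw [show 0 + j + 1 = j + 1 by omega]
      exact alt_ix (by omega)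
    show arcAt (2 * i) (if alt m (ix m (0 + j + 1)) = true then
      E m (0 + j) (word m (alt m) 0 j σ) else word m (alt m) 0 j σ).1
    rw [hval]
    by_cases hpar : (j + 1) % 2 = 1
    · rw [if_pos (by simpa using hpar), Nat.zero_add]
      by_cases hij : 2 * i = j
      · rw [hij]
        exact E_arc hm _ _
      · have h0 := E_fix _ _ (ih (by omega) i (by omega))
        have h1 := E_comm (m := m) (i := 2 * i) (j := j) (by omega) (by omega)
          (word m (alt m) 0 j σ)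
        rw [h0] at h1
        rw [← h1]
        exact E_arc hm _ _
    · rw [if_neg (by simpa using hpar)]
      exact ih (by omega) i (by omega)

/-- an alternating row forgets the pattern -/
theorem Tc_alt {n : ℕ} (σ τ : Wd (2 * n + 1 + 1)) :
    Tc (2 * n + 1) (alt (2 * n + 1)) σ = Tc (2 * n + 1) (alt (2 * n + 1)) τ := by
  have h0 : alt (2 * n + 1) (ix (2 * n + 1) 0) = false := by
    rw [alt_ix (by omega)]; rfl
  rw [Tc_eq h0, Tc_eq h0]
  congr 1
  apply MK.std_unique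
  · intro j hj
    exact word_alt (by omega) σ _ le_rfl j (by omega)
  · intro j hj
    exact word_alt (by omega) τ _ le_rfl j (by omega)

theorem rows_alt {n : ℕ} {c : ℕ → Fin (2 * n + 1 + 1) → Bool} {M s : ℕ} (hs : s < M)
    (hc : c s = alt (2 * n + 1)) (σ τ : Wd (2 * n + 1 + 1)) :
    rows (2 * n + 1) c M σ = rows (2 * n + 1) c M τ := by
  obtain ⟨k, rfl⟩ : ∃ k, M = s + 1 + k := ⟨M - (s + 1), by omega⟩
  have h1 : rows (2 * n + 1) c (s + 1) σ = rows (2 * n + 1) c (s + 1) τ := by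
    show Tc _ (c s) _ = Tc _ (c s) _
    rw [hc]
    exact Tc_alt _ _
  rw [rows_add' c (s + 1) k σ, rows_add' c (s + 1) k τ, h1]

/-! ### patterns with peaks of a given parity -/

/-- the position `a` is a peak -/
def Peak (w : Word) (a : ℤ) : Prop := sg w a = -1 ∧ sg w (a - 1) = 1

theorem peak_eq {w : Word} {a b : ℤ} (hp : Peak w a) (h : Rw w a b) : a = b :=
  Sem4Aux.rw_peak hp.1 hp.2 h

theorem peak_eq' {w : Word} {a b : ℤ} (hp : Peak w b) (h : Rw w a b) : a = b :=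
  (Sem4Aux.rw_peak hp.1 hp.2 ((Rw_equiv w).symm h)).symm

theorem exists_std (n : ℕ) : ∃ σ : Wd (2 * n + 1 + 1),
    ∀ a : ℤ, sg σ.1 a = if a % 2 = 0 then 1 else -1 := by
  obtain ⟨K, w, -, hw⟩ := MK.phase1 (m := 2 * n + 1) (by omega) (n + 1) (by omega)
  refine ⟨w (base _), fun a => ?_⟩
  set σ := w (base (2 * n + 1)) with hσ
  have hl : σ.1.length = 2 * n + 2 := σ.2.1
  have hN : (0 : ℤ) < 2 * n + 2 := by omega
  rw [Sem1Aux.sg_def, hl]
  have e0 : (((2 * n + 2 : ℕ) : ℤ)) = 2 * n + 2 := by push_cast; ring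
  rw [e0]
  have b1 := Int.emod_nonneg a hN.ne'
  have b2 := Int.emod_lt_of_pos a hN
  obtain ⟨r, hr⟩ : ∃ r : ℕ, (r : ℤ) = a % (2 * n + 2) := ⟨(a % (2 * n + 2)).toNat, by omega⟩
  have hr2 : r < 2 * n + 2 := by omega
  have hpar : a % 2 = (r : ℤ) % 2 := by
    rw [hr, Int.emod_emod_of_dvd]
    exact ⟨n + 1, by ring⟩
  rw [← hr, Int.toNat_natCast, hpar, List.getD_eq_getElem _ _ (by rw [hl]; exact hr2)]
  rcases Nat.even_or_odd' r with ⟨i, hi | hi⟩
  · have h1 := (MK.get_arc (hw (base _) i (by omega)) (by rw [← hσ, hl]; omega)).1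
    rw [if_pos (by omega)]
    subst hi
    rw [h1]
    rfl
  · have h1 := (MK.get_arc (hw (base _) i (by omega)) (by rw [← hσ, hl]; omega)).2
    rw [if_neg (by omega)]
    subst hi
    rw [h1]
    rfl

theorem exists_peaks (n : ℕ) (ρ : ℤ) : ∃ σ : Wd (2 * n + 1 + 1),
    ∀ a : ℤ, (a - ρ) % 2 = 0 → Peak σ.1 a := by
  obtain ⟨σ, hσ⟩ := exists_std n
  by_cases hρ : ρ % 2 = 0
  · refine ⟨rot _ σ, fun a ha => ?_⟩
    have hl : σ.1.length = 2 * n + 2 := σ.2.1
    have hs : ∀ b, sg (rot (2 * n + 1) σ).1 b = sg σ.1 (b - 1) := by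
      intro b
      rw [rot_val]
      unfold rotr
      rw [Sem1Aux.sg_rotate, hl]
      have e : b + ((2 * n + 2 - 1 : ℕ) : ℤ) = (b - 1) + 1 * σ.1.length := by
        rw [hl]; push_cast; omega
      rw [e, Sem1Aux.sg_per]
    constructor
    · rw [hs, hσ, if_neg (by omega)]
    · rw [hs, hσ, if_pos (by omega)]
  · refine ⟨σ, fun a ha => ⟨?_, ?_⟩⟩
    · rw [hσ, if_neg (by omega)]
    · rw [hσ, if_pos (by omega)]

/-- connections of sites of one parity do not use the patterns with peaks of this parity -/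
theorem sl_to_link {ω : Fin (m + 1) × ℤ → Bool} {t0 : ℤ} {M : ℕ} {w' w : Word} (ρ : ℤ)
    (hlow : ∀ a : ℤ, (a + (t0 - M) - ρ) % 2 = 0 → Peak w' a)
    (hupp : ∀ a : ℤ, (a + (t0 + M) - ρ) % 2 = 0 → Peak w a) {p q : ℤ × ℤ}
    (h : EqvGen (Sl ω t0 M w' w) p q) :
    ((p.1 + p.2 - ρ) % 2 = 0 ↔ (q.1 + q.2 - ρ) % 2 = 0) ∧
      ((p.1 + p.2 - ρ) % 2 = 0 → EqvGen (Link ω) p q) := by
  induction h with
  | rel x y h =>
    cases h with
    | ur j t h1 h2 h3 =>
      refine ⟨?_, fun _ => EqvGen.rel _ _ (Link.ur j t h3)⟩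
      show (j + t - ρ) % 2 = 0 ↔ (j + 1 + (t + 1) - ρ) % 2 = 0
      omega
    | ul j t h1 h2 h3 =>
      refine ⟨?_, fun _ => EqvGen.rel _ _ (Link.ul j t h3)⟩
      show (j + 1 + t - ρ) % 2 = 0 ↔ (j + (t + 1) - ρ) % 2 = 0
      omega
    | bot a b h =>
      by_cases ha : (a + (t0 - M) - ρ) % 2 = 0
      · have := peak_eq (hlow a ha) h
        subst this
        exact ⟨Iff.rfl, fun _ => EqvGen.refl _⟩
      · by_cases hb : (b + (t0 - M) - ρ) % 2 = 0
        · have := peak_eq' (hlow b hb) h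
          subst this
          exact ⟨Iff.rfl, fun _ => EqvGen.refl _⟩
        · exact ⟨⟨fun h => absurd h ha, fun h => absurd h hb⟩, fun h => absurd h ha⟩
    | top a b h =>
      by_cases ha : (a + (t0 + M) - ρ) % 2 = 0
      · have := peak_eq (hupp a ha) h
        subst this
        exact ⟨Iff.rfl, fun _ => EqvGen.refl _⟩
      · by_cases hb : (b + (t0 + M) - ρ) % 2 = 0
        · have := peak_eq' (hupp b hb) h
          subst this
          exact ⟨Iff.rfl, fun _ => EqvGen.refl _⟩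
        · exact ⟨⟨fun h => absurd h ha, fun h => absurd h hb⟩, fun h => absurd h ha⟩
  | refl x => exact ⟨Iff.rfl, fun _ => EqvGen.refl _⟩
  | symm x y _ ih => exact ⟨ih.1.symm, fun h => (ih.2 (ih.1.2 h)).symm⟩
  | trans x y z _ _ ih1 ih2 =>
    exact ⟨ih1.1.trans ih2.1, fun h => (ih1.2 h).trans _ _ _ (ih2.2 (ih1.1.1 h))⟩

/-- every connection takes place in a finite slab -/
theorem link_to_sl {ω : Fin (m + 1) × ℤ → Bool} (t0 : ℤ) {p q : ℤ × ℤ} (h : EqvGen (Link ω) p q) :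
    ∃ M0 : ℕ, ∀ M, M0 ≤ M → ∀ w' w, EqvGen (Sl ω t0 M w' w) p q := by
  induction h with
  | rel x y h =>
    cases h with
    | ur j t h3 =>
      exact ⟨(|t - t0| + 1).toNat, fun M hM w' w => EqvGen.rel _ _ (Sl.ur j t (by
        have := neg_abs_le (t - t0); omega) (by have := le_abs_self (t - t0); omega) h3)⟩
    | ul j t h3 =>
      exact ⟨(|t - t0| + 1).toNat, fun M hM w' w => EqvGen.rel _ _ (Sl.ul j t (by
        have := neg_abs_le (t - t0); omega) (by have := le_abs_self (t - t0); omega) h3)⟩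
  | refl x => exact ⟨0, fun M _ w' w => EqvGen.refl _⟩
  | symm x y _ ih =>
    obtain ⟨M0, h0⟩ := ih
    exact ⟨M0, fun M hM w' w => (h0 M hM w' w).symm⟩
  | trans x y z _ _ ih1 ih2 =>
    obtain ⟨M1, h1⟩ := ih1
    obtain ⟨M2, h2⟩ := ih2
    exact ⟨max M1 M2, fun M hM w' w => (h1 M (by omega) w' w).trans _ _ _ (h2 M (by omega) w' w)⟩

/-- the patterns decide about the connections, if there are alternating rows -/
theorem link_iff {n : ℕ} {ω : Fin (2 * n + 1 + 1) × ℤ → Bool} {t0 : ℤ} {M : ℕ}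
    {s1 s2 : ℕ} (h1 : s1 < M) (h2 : s2 < M) (hl : lowc ω t0 M s1 = alt (2 * n + 1))
    (hu : uppc ω t0 M s2 = alt (2 * n + 1)) (σ τ : Wd (2 * n + 1 + 1)) (a b : ℤ) :
    EqvGen (Link ω) (a, t0) (b, t0) ↔
      GLR (rows (2 * n + 1) (lowc ω t0 M) M σ).1 (rows (2 * n + 1) (uppc ω t0 M) M τ).1 a b := by
  constructor
  · intro h
    obtain ⟨M0, h0⟩ := link_to_sl t0 h
    set A := M0 with hA
    have h3 := (glue (by omega) ω t0 (A + M) σ τ a b).1 (h0 (A + M) (by omega) _ _)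
    have e1 : rows (2 * n + 1) (lowc ω t0 (A + M)) (A + M) σ =
        rows (2 * n + 1) (lowc ω t0 M) M (rows (2 * n + 1) (lowc ω t0 (A + M)) A σ) := by
      rw [rows_add']
      apply rows_congr'
      intro t _
      funext j
      show ω (j, t0 - ((A + M : ℕ) : ℤ) + ((A + t : ℕ) : ℤ)) = ω (j, t0 - (M : ℤ) + (t : ℤ))
      congr 2
      push_cast
      ring
    have e2 : rows (2 * n + 1) (uppc ω t0 (A + M)) (A + M) τ =
        rows (2 * n + 1) (uppc ω t0 M) M (rows (2 * n + 1) (uppc ω t0 (A + M)) A τ) := by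
      rw [rows_add']
      apply rows_congr'
      intro t _
      funext j
      show (!ω (j, t0 + ((A + M : ℕ) : ℤ) - 1 - ((A + t : ℕ) : ℤ))) =
        !ω (j, t0 + (M : ℤ) - 1 - (t : ℤ))
      congr 3
      push_cast
      ring
    rw [e1, e2, rows_alt h1 hl _ σ, rows_alt h2 hu _ τ] at h3
    exact h3
  · intro h
    obtain ⟨σ', hσ⟩ := exists_peaks n (a + t0 - (t0 - M))
    obtain ⟨τ', hτ⟩ := exists_peaks n (a + t0 - (t0 + M))
    rw [rows_alt h1 hl σ σ', rows_alt h2 hu τ τ'] at h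
    have h3 := (glue (by omega) ω t0 M σ' τ' a b).2 h
    refine (sl_to_link (a + t0) (fun x hx => hσ x (by omega)) (fun x hx => hτ x (by omega)) h3).2 ?_
    show (a + t0 - (a + t0)) % 2 = 0
    omega

/-! ### the loop counting kernel -/

theorem GLR_shift {w' w : Word} {N : ℕ} (h' : w'.length = N) (h : w.length = N) (hN : 0 < N)
    (a b : ℤ) : GLR (rotl w') (rotl w) a b ↔ GLR w' w (a + 1) (b + 1) := by
  have key : ∀ v : Word, v.length = N → ∀ j k, Rw v (j + 1) (k + 1) ↔ Rw (rotl v) j k := by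
    intro v hv j k
    have hne : rotl v ≠ [] := by
      intro h0
      have h1 := length_rotl v
      rw [h0, hv] at h1
      simp at h1
      omega
    have := Rw_rotr (rotl v) hne j k
    rwa [rotr_rotl] at this
  constructor
  · intro hh
    refine eqv_map' (fun x : ℤ => x + 1) ?_ hh
    rintro x y (hx | hx)
    · exact EqvGen.rel _ _ (Or.inl ((key w' h' x y).2 hx))
    · exact EqvGen.rel _ _ (Or.inr ((key w h x y).2 hx))
  · intro hh
    have := eqv_map' (G' := fun j k => Rw (rotl w') j k ∨ Rw (rotl w) j k) (fun x : ℤ => x - 1)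
      (a := a + 1) (b := b + 1) ?_ hh
    · simpa [GLR] using this
    · rintro x y (hx | hx)
      · have h1 := (key w' h' (x - 1) (y - 1)).1 (by simpa using hx)
        exact EqvGen.rel _ _ (Or.inl h1)
      · have h1 := (key w h (x - 1) (y - 1)).1 (by simpa using hx)
        exact EqvGen.rel _ _ (Or.inr h1)

theorem ker_iff {f : Word → Word → ℕ} (hf : FSpec f) {n : ℕ} (σ τ : Wd (2 * n + 1 + 1)) :
    (f σ.1 τ.1 = 0 ∧ f (rotl σ.1) (rotl τ.1) = 0) ↔
      (GLR σ.1 τ.1 0 (0 + ((2 * n + 1 : ℕ) + 1)) ∧ GLR σ.1 τ.1 1 (1 + ((2 * n + 1 : ℕ) + 1))) := by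
  have l1 : σ.1.length = 2 * (n + 1) := by rw [σ.2.1]; ring
  have l2 : τ.1.length = 2 * (n + 1) := by rw [τ.2.1]; ring
  rw [f_zero_iff hf σ.2.2 τ.2.2 l1 l2, f_zero_iff hf (ok_rotl.2 σ.2.2) (ok_rotl.2 τ.2.2)
    (by rw [length_rotl, l1]) (by rw [length_rotl, l2])]
  have e1 : (2 * ((n + 1 : ℕ) : ℤ)) = 0 + ((2 * n + 1 : ℕ) + 1) := by push_cast; ring
  rw [e1]
  have h3 := GLR_shift l1 l2 (by omega) 0 (0 + ((2 * n + 1 : ℕ) + 1))
  unfold GLR at h3 ⊢
  rw [h3]
  have e2 : (0 : ℤ) + 1 = 1 := by ring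
  have e3 : (0 + (((2 * n + 1 : ℕ) : ℤ) + 1) + 1) = 1 + ((2 * n + 1 : ℕ) + 1) := by ring
  rw [e2, e3]

end Pool.Agent.Helper21.EV
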