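import Pool.Graph.R_seed8.H863R2.Cyl.Psi
import Pool.Graph.R_seed8.H863R2.Cyl.Rec
import Pool.Graph.R_seed8.H863R2.Cyl.FamEx
import Pool.Agent.Helper21.ID.Row

/-!
# The stationary measure does not depend on the anisotropy (all circumferences)
-/

namespace Pool.Agent.Helper21.EV

open Pool.Agent.H863R2.Cyl MvPolynomial

/-- scaling of all variables -/
noncomputable def sc (N : ℕ) (c : ℂ) : MvPolynomial (Fin N) ℂ →ₐ[ℂ] MvPolynomial (Fin N) ℂ :=
  aeval (fun i => C c * X i)

theorem sc_rename {N : ℕ} (c : ℂ) (p : Fin N → Fin N) (P : MvPolynomial (Fin N) ℂ) :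
    sc N c (rename p P) = rename p (sc N c P) := by
  have h : (sc N c).comp (rename p) = (rename p : MvPolynomial (Fin N) ℂ →ₐ[ℂ] _).comp (sc N c) := by
    apply MvPolynomial.algHom_ext
    intro i
    simp [sc]
  exact DFunLike.congr_fun h P

theorem sc_push {N : ℕ} {X' : Type*} [Fintype X'] [DecidableEq X'] (c : ℂ) (f : X' → X')
    (v : X' → MvPolynomial (Fin N) ℂ) (y : X') :
    sc N c (push f v y) = push f (fun x => sc N c (v x)) y := by
  unfold push
  rw [map_sum]
  refine Finset.sum_congr rfl fun x _ => ?_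
  split_ifs
  · rfl
  · simp

/-- the degree -/
def dg (m : ℕ) : ℕ := ∑ j ∈ Finset.range (m + 1), j

theorem sc_Dl (q : ℂ) (m : ℕ) (c : ℂ) : sc (m + 1) c (Dl q m) = C (c ^ dg m) * Dl q m := by
  unfold Dl dg
  rw [← Finset.prod_pow_eq_pow_sum, map_prod, map_prod, ← Finset.prod_mul_distrib]
  refine Finset.prod_congr rfl fun j _ => ?_
  have h : ∀ i ∈ Finset.range j, sc (m + 1) c (C q * X (chain m j) - C (q ^ 2) * X (chain m i)) =
      C c * (C q * X (chain m j) - C (q ^ 2) * X (chain m i)) := by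
    intro i _
    unfold sc
    simp only [map_sub, map_mul, aeval_C, aeval_X, algebraMap_eq]
    ring
  rw [map_prod, Finset.prod_congr rfl h, Finset.prod_mul_distrib, Finset.prod_const,
    Finset.card_range, C_pow c j]

theorem sub_ne' {N : ℕ} {a b : Fin N} (h : a ≠ b) : (X a - X b : MvPolynomial (Fin N) ℂ) ≠ 0 :=
  fun h0 => h (MvPolynomial.X_injective (sub_eq_zero.mp h0))

theorem hom_last {q : ℂ} {m : ℕ} {Ψ : Wd (m + 1) → MvPolynomial (Fin (m + 1)) ℂ}
    (hΨ : PsiSpec q m Ψ) {c : ℂ} (hc : c ≠ 0) :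
    ∀ N : ℕ, ∀ σ : Wd (m + 1), 2 * (m + 2) * (m + 2) - area σ.1 ≤ N →
      Good σ.1 → sc (m + 1) c (Ψ σ) = C (c ^ dg m) * Ψ σ := by
  have hbase : sc (m + 1) c (Ψ (base m)) = C (c ^ dg m) * Ψ (base m) := by
    rw [hΨ.base]
    exact sc_Dl q m c
  intro N
  induction N with
  | zero =>
    intro σ hN hd
    by_cases hσ : σ = base m
    · rw [hσ]; exact hbase
    · obtain ⟨i, -, -, -, hlen, -⟩ := tri_step m σ hd hσ
      have := area_le (E m i σ)
      omega
  | succ N ih =>
    intro σ hN hd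
    by_cases hσ : σ = base m
    · rw [hσ]; exact hbase
    obtain ⟨i, hi, hne, hd', hlen, hτ⟩ := tri_step m σ hd hσ
    set σ' := E m i σ with hσ'
    have hidem : E m i σ' = σ' := by rw [hσ', E_idem]
    have hle := area_le σ'
    have hP := ih σ' (by omega) hd'
    have hab : ix m i ≠ ix m (i + 1) := by
      intro h
      have h1 := congrArg Fin.val h
      simp only [ix] at h1
      rw [Nat.mod_eq_of_lt (by omega), Nat.mod_eq_of_lt (by omega)] at h1
      omega
    have hrest : ∀ τ, τ ≠ σ → E m i τ = σ' → sc (m + 1) c (Ψ τ) = C (c ^ dg m) * Ψ τ := by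
      intro τ h1 h2
      by_cases h3 : τ = σ'
      · rw [h3]; exact hP
      · obtain ⟨h4, h5⟩ := hτ τ h2 h1 h3
        exact ih τ (by omega) h4
    set W : MvPolynomial (Fin (m + 1)) ℂ := ∑ τ ∈ Finset.univ.erase σ, if E m i τ = σ' then Ψ τ else 0
      with hW
    have hpush : push (E m i) Ψ σ' = Ψ σ + W := by
      unfold push
      rw [hW, ← Finset.add_sum_erase Finset.univ _ (Finset.mem_univ σ), if_pos hσ'.symm]
    have hWs : sc (m + 1) c W = C (c ^ dg m) * W := by
      rw [hW, map_sum, Finset.mul_sum]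
      refine Finset.sum_congr rfl fun τ hτ2 => ?_
      rw [Finset.mem_erase] at hτ2
      split_ifs with h1
      · exact hrest τ hτ2.1 h1
      · simp
    have h1 := hΨ.exch i (by omega) σ'
    rw [hpush] at h1
    have h2 := congrArg (sc (m + 1) c) h1
    rw [map_add, map_mul, map_mul, map_add, map_mul, hWs, hP, sc_rename, hP] at h2
    have e1 : sc (m + 1) c (C q * X (ix m i) - C (q ^ 2) * X (ix m (i + 1))) =
        C c * (C q * X (ix m i) - C (q ^ 2) * X (ix m (i + 1))) := by
      unfold sc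
      simp only [map_sub, map_mul, aeval_C, aeval_X, algebraMap_eq]
      ring
    have e2 : sc (m + 1) c (C q * X (ix m (i + 1)) - C (q ^ 2) * X (ix m i)) =
        C c * (C q * X (ix m (i + 1)) - C (q ^ 2) * X (ix m i)) := by
      unfold sc
      simp only [map_sub, map_mul, aeval_C, aeval_X, algebraMap_eq]
      ring
    have e3 : sc (m + 1) c (X (ix m i) - X (ix m (i + 1))) =
        C c * (X (ix m i) - X (ix m (i + 1))) := by
      unfold sc
      simp only [map_sub, aeval_X]
      ring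
    rw [e1, e2, e3, map_mul, rename_C] at h2
    have hne0 : C c * (X (ix m i) - X (ix m (i + 1))) ≠ (0 : MvPolynomial (Fin (m + 1)) ℂ) :=
      mul_ne_zero (by simpa using hc) (sub_ne' hab)
    apply mul_left_cancel₀ hne0
    linear_combination h2 - C c * C (c ^ dg m) * h1

theorem hom_rot {q : ℂ} {m : ℕ} {Ψ : Wd (m + 1) → MvPolynomial (Fin (m + 1)) ℂ}
    (hΨ : PsiSpec q m Ψ) {c : ℂ} :
    ∀ (k : ℕ) (σ : Wd (m + 1)), sc (m + 1) c (Ψ ((rot m)^[k] σ)) = C (c ^ dg m) * Ψ ((rot m)^[k] σ) →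
      sc (m + 1) c (Ψ σ) = C (c ^ dg m) * Ψ σ := by
  intro k
  induction k with
  | zero => intro σ h; exact h
  | succ k ih =>
    intro σ h
    rw [Function.iterate_succ_apply] at h
    have h1 := ih _ h
    rw [hΨ.rot, sc_rename] at h1
    have h2 : rename (finRotate (m + 1)) (sc (m + 1) c (Ψ σ)) =
        rename (finRotate (m + 1)) (C (c ^ dg m) * Ψ σ) := by
      rw [h1, map_mul, rename_C]
    exact MvPolynomial.rename_injective _ (finRotate (m + 1)).injective h2

theorem homog {q : ℂ} {m : ℕ} {Ψ : Wd (m + 1) → MvPolynomial (Fin (m + 1)) ℂ}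
    (hΨ : PsiSpec q m Ψ) {c : ℂ} (hc : c ≠ 0) (σ : Wd (m + 1)) :
    sc (m + 1) c (Ψ σ) = C (c ^ dg m) * Ψ σ := by
  obtain ⟨k, hk⟩ := rot_to_good m σ
  exact hom_rot hΨ k σ (hom_last hΨ hc _ _ le_rfl hk)

theorem eval_homog {q : ℂ} {m : ℕ} {Ψ : Wd (m + 1) → MvPolynomial (Fin (m + 1)) ℂ}
    (hΨ : PsiSpec q m Ψ) {c : ℂ} (hc : c ≠ 0) (σ : Wd (m + 1)) :
    eval (fun _ => c) (Ψ σ) = c ^ dg m * eval (fun _ => 1) (Ψ σ) := by
  have h := congrArg (eval (fun _ => (1 : ℂ))) (homog hΨ hc σ)
  rw [map_mul, eval_C] at h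
  rw [← h]
  unfold sc
  have h2 : (eval (fun _ => (1 : ℂ))).comp (aeval (fun i : Fin (m + 1) => (C c * X i : MvPolynomial (Fin (m + 1)) ℂ)) :
      MvPolynomial (Fin (m + 1)) ℂ →ₐ[ℂ] MvPolynomial (Fin (m + 1)) ℂ).toRingHom = eval (fun _ => c) := by
    apply MvPolynomial.ringHom_ext
    · intro r
      simp
    · intro i
      simp
  exact (DFunLike.congr_fun h2 (Ψ σ)).symm

theorem push_smul' {X' : Type*} [Fintype X'] [DecidableEq X'] (a : ℂ) (f : X' → X') (v : X' → ℂ)
    (y : X') : push f (fun s => a * v s) y = a * push f v y := by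
  unfold push
  rw [Finset.mul_sum]
  refine Finset.sum_congr rfl fun τ _ => ?_
  split_ifs <;> simp

/-- stationarity with complex weights -/
theorem stat_complex (m : ℕ) (μ : Wd (m + 1) → ℂ) (h1 : ∑ σ, μ σ = 1)
    (hst : ∀ σ, ∑ c : Fin (m + 1) → Bool, push (Tc m c) μ σ = 2 ^ (m + 1) * μ σ)
    (q : ℂ) (hq : q ^ 2 + q + 1 = 0) {x : ℂ} (hx : x ≠ 0) (σ : Wd (m + 1)) :
    ∑ c : Fin (m + 1) → Bool, (∏ j, wt q (c j) x) * push (Tc m c) μ σ
      = (1 + x) ^ (m + 1) * μ σ := by
  choose P hP using fun m => exists_psi q hq m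
  set v : Wd (m + 1) → ℂ := fun τ => eval (fun _ => (1 : ℂ)) (P m τ) with hv
  have hst0 := FamAux.stat0 P hq hP m
  obtain ⟨T, hT⟩ : ∃ T, T = ∑ τ, v τ := ⟨_, rfl⟩
  have hq1 := FamAux.q_ne_one hq
  have hq0 := FamAux.q_ne_zero hq
  have hT0 : T ≠ 0 := by
    intro h0
    have hu := markov_unique m v hst0 (hT ▸ h0)
    have hb := congrFun hu (base m)
    simp only [hv, (hP m).base, Dl, map_prod, map_sub, map_mul, eval_C, eval_X, mul_one,
      Pi.zero_apply] at hb
    rw [Finset.prod_eq_zero_iff] at hb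
    obtain ⟨j, _, hj⟩ := hb
    rw [Finset.prod_eq_zero_iff] at hj
    obtain ⟨i, _, hi⟩ := hj
    have : q * (q - 1) = 0 := by linear_combination (-1 : ℂ) * hi
    rcases mul_eq_zero.mp this with h | h
    · exact hq0 h
    · exact hq1 (sub_eq_zero.mp h)
  have hvμ : v = fun τ => T * μ τ := by
    have h4 : (fun τ => v τ - T * μ τ) = 0 := by
      refine markov_unique m _ (fun τ => ?_) ?_
      · have e3 : ∑ c : Fin (m + 1) → Bool, push (Tc m c) (fun τ => v τ - T * μ τ) τ =
            ∑ c : Fin (m + 1) → Bool, push (Tc m c) v τ -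
              T * ∑ c : Fin (m + 1) → Bool, push (Tc m c) μ τ := by
          rw [Finset.mul_sum, ← Finset.sum_sub_distrib]
          refine Finset.sum_congr rfl fun c _ => ?_
          simp only [push, Finset.mul_sum]
          rw [← Finset.sum_sub_distrib]
          refine Finset.sum_congr rfl fun τ _ => ?_
          split_ifs <;> simp
        rw [e3, hst0, hst]
        ring
      · rw [Finset.sum_sub_distrib, ← Finset.mul_sum, h1, ← hT]
        ring
    funext τ
    have := congrFun h4 τ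
    simp only [Pi.zero_apply] at this
    linear_combination this
  have h5 := congrArg (eval (fun _ => x)) (congrFun (hP m).stat σ)
  rw [RecAux.rec_eval_Tz] at h5
  have e6 : (fun s => eval (fun _ : Fin (m + 1) => x) (P m s)) = fun s => x ^ dg m * T * μ s := by
    funext s
    rw [eval_homog (hP m) hx]
    have := congrFun hvμ s
    simp only [hv] at this
    rw [this]
    ring
  rw [e6] at h5
  simp only [map_mul, map_prod, map_add, map_one, eval_X, Finset.prod_const, Finset.card_univ,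
    Fintype.card_fin] at h5
  rw [congrFun e6 σ] at h5
  unfold Tz at h5
  have e7 : ∀ f : Wd (m + 1) → Wd (m + 1), push f (fun s => x ^ dg m * T * μ s) σ =
      x ^ dg m * T * push f μ σ := by
    intro f
    exact push_smul' _ _ _ _
  simp only [e7] at h5
  apply mul_left_cancel₀ (mul_ne_zero (pow_ne_zero (dg m) hx) hT0)
  rw [Finset.mul_sum]
  have e8 : ∀ c : Fin (m + 1) → Bool, (∏ j, wt q (c j) x) * (x ^ dg m * T * push (Tc m c) μ σ) =
      x ^ dg m * T * ((∏ j, wt q (c j) x) * push (Tc m c) μ σ) := fun c => by ring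
  simp only [e8] at h5
  rw [h5]
  ring

open Pool.Agent.Helper21.ID (rw1 exists_q)

/-- stationarity for rows with an arbitrary bias -/
theorem stat_bias (m : ℕ) (μ : Wd (m + 1) → ℝ) (h1 : ∑ σ, μ σ = 1)
    (hst : ∀ σ, ∑ c : Fin (m + 1) → Bool, push (Tc m c) μ σ = 2 ^ (m + 1) * μ σ)
    (p : ℝ) (σ : Wd (m + 1)) :
    ∑ c : Fin (m + 1) → Bool, rw1 p c * push (Tc m c) μ σ = μ σ := by
  obtain ⟨q, hq, him⟩ := exists_q
  set ν : Wd (m + 1) → ℂ := fun σ => (μ σ : ℂ) with hν
  have h1' : ∑ σ, ν σ = 1 := by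
    simp only [hν]
    rw [← Complex.ofReal_sum, h1, Complex.ofReal_one]
  have hpush : ∀ (g : Wd (m + 1) → Wd (m + 1)) (σ : Wd (m + 1)),
      push g ν σ = ((push g μ σ : ℝ) : ℂ) := by
    intro g σ
    simp only [push, hν]
    push_cast
    refine Finset.sum_congr rfl fun x _ => ?_
    split_ifs <;> simp
  have hst' : ∀ σ, ∑ c : Fin (m + 1) → Bool, push (Tc m c) ν σ = 2 ^ (m + 1) * ν σ := by
    intro σ
    simp only [hpush]
    rw [← Complex.ofReal_sum, hst]
    push_cast
    rfl
  have hd : (p : ℂ) + q ^ 2 ≠ 0 := by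
    intro h
    have h2 : q ^ 2 = -(p : ℂ) := by linear_combination h
    have h3 : q = (p : ℂ) - 1 := by linear_combination hq - h2
    apply him
    rw [h3]
    simp
  have hd0 : (p : ℂ) + q ≠ 0 := by
    intro h
    have h3 : q = -(p : ℂ) := by linear_combination h
    apply him
    rw [h3]
    simp
  have hone : 1 + -((p : ℂ) + q) / (p + q ^ 2) ≠ 0 := by
    have e : 1 + -((p : ℂ) + q) / (p + q ^ 2) = (q ^ 2 - q) / (p + q ^ 2) := by
      field_simp
      ring
    rw [e]
    apply div_ne_zero _ hd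
    intro h
    have h2 : 2 * q = -1 := by linear_combination hq - h
    have h3 := congrArg Complex.im h2
    simp at h3
    exact him h3
  have hx0 : -((p : ℂ) + q) / (p + q ^ 2) ≠ 0 := div_ne_zero (neg_ne_zero.mpr hd0) hd
  have hx := stat_complex m ν h1' hst' q hq hx0 σ
  set x := -((p : ℂ) + q) / (p + q ^ 2) with hxd
  have hxe : x * (p + q ^ 2) = -(p + q) := by
    rw [hxd]; field_simp
  have hw : ∀ b, wt q b x = (1 + x) * (if b = true then (p : ℂ) else 1 - p) := by
    intro b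
    unfold wt
    split_ifs
    · linear_combination -hxe
    · linear_combination hxe - (1 + x) * hq
  have hprod : ∀ c : Fin (m + 1) → Bool, ∏ j, wt q (c j) x
      = (1 + x) ^ (m + 1) * (((rw1 p c : ℝ)) : ℂ) := by
    intro c
    simp only [hw, Finset.prod_mul_distrib, Finset.prod_const, Finset.card_univ, Fintype.card_fin]
    congr 1
    unfold rw1
    push_cast
    refine Finset.prod_congr rfl fun j _ => ?_
    split_ifs <;> simp
  simp only [hprod, hpush, mul_assoc, ← Finset.mul_sum] at hx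
  have h3 := mul_left_cancel₀ (pow_ne_zero _ hone) hx
  have h4 : ((∑ c : Fin (m + 1) → Bool, rw1 p c * push (Tc m c) μ σ : ℝ) : ℂ)
      = ((μ σ : ℝ) : ℂ) := by
    push_cast at h3 ⊢
    exact h3
  exact_mod_cast h4

end Pool.Agent.Helper21.EV
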