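import Pool.Graph.R_seed8.H863R2.Cyl.GProp
import Pool.Graph.R_seed8.H863R2.Cyl.Ins

/-!
# The kernel of non-contractible loops on cylinders of even circumference
-/

namespace Pool.Agent.Helper21.EV

open Pool.Agent.H863R2.Cyl
open Pool.Agent.H863R2.Cyl.PairAux
open Pool.Agent.H988R2.Perc (Word flipR flipL rem firstArc PD)

/-- the kernel: no contractible loop around the two faces adjacent to the strand `0` -/
noncomputable def ck (f : Word → Word → ℕ) (w' w : Word) : ℂ :=
  if f w' w = 0 ∧ f (rotl w') (rotl w) = 0 then 1 else 0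

theorem ck_congr {f : Word → Word → ℕ} {a b c d : Word}
    (h1 : f a b = f c d) (h2 : f (rotl a) (rotl b) = f (rotl c) (rotl d)) :
    ck f a b = ck f c d := by
  unfold ck
  rw [h1, h2]

/-- the bilinear extension -/
noncomputable def pc (f : Word → Word → ℕ) : VW →ₗ[ℂ] VW →ₗ[ℂ] ℂ :=
  Finsupp.linearCombination ℂ (fun w' => Finsupp.linearCombination ℂ (fun w => ck f w' w))

theorem pc_bs (f : Word → Word → ℕ) (w' w : Word) : pc f (bs w') (bs w) = ck f w' w := by
  unfold pc bs
  rw [Finsupp.linearCombination_single, one_smul, Finsupp.linearCombination_single, one_smul]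

theorem rotl_act {i : ℕ} (hi : 1 ≤ i) (w : Word) : rotl (act i w) = act (i - 1) (rotl w) := by
  obtain ⟨j, rfl⟩ : ∃ j, i = j + 1 := ⟨i - 1, by omega⟩
  have h := rotr_act j (rotl w)
  rw [rotr_rotl] at h
  rw [← h, rotl_rotr, Nat.add_sub_cancel]

theorem f_act {f : Word → Word → ℕ} (hf : FSpec f) {i : ℕ} {w' w : Word} (h' : Ok w') (h : Ok w)
    (hl : w'.length = w.length) (hi : i + 2 ≤ w.length) : f (act i w') w = f w' (act i w) := by
  have h1 := length_cap (i := i) (w := w) (by omega)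
  have h2 := length_cap (i := i) (w := w') (by omega)
  rw [act_eq (by omega : i + 2 ≤ w'.length), act_eq (by omega : i + 2 ≤ w.length),
    hf.insL i _ _ (ok_cap h' (by omega)) h (by omega) (by omega),
    hf.insR i _ _ h' (ok_cap h (by omega)) (by omega) (by omega)]

theorem ck_act {f : Word → Word → ℕ} (hf : FSpec f) {i : ℕ} {w' w : Word} (h' : Ok w') (h : Ok w)
    (hl : w'.length = w.length) (h1 : 1 ≤ i) (hi : i + 2 ≤ w.length) :
    ck f (act i w') w = ck f w' (act i w) := by
  apply ck_congr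
  · exact f_act hf h' h hl hi
  · rw [rotl_act h1, rotl_act h1]
    exact f_act hf (ok_rotl.2 h') (ok_rotl.2 h) (by rw [length_rotl, length_rotl, hl])
      (by rw [length_rotl]; omega)

theorem rotl_lins0 (w : Word) : rotl (lins 0 w) = seam w := by
  rw [← rotr_seam, rotl_rotr]

theorem ck_lins_act {f : Word → Word → ℕ} (hf : FSpec f) {u w : Word} (hu : Ok u) (hw : Ok w)
    (hl : w.length = u.length + 2) : ck f (lins 0 u) (act 0 w) = 0 := by
  unfold ck
  rw [if_neg]
  rintro ⟨-, h2⟩
  have h1 := length_cap (i := 0) (w := w) (by omega)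
  rw [act_eq (by omega : 0 + 2 ≤ w.length), rotl_lins0, rotl_lins0,
    hf.seam _ _ hu (ok_cap hw (by omega)) (by omega)] at h2
  omega

theorem ck_lins_lins {f : Word → Word → ℕ} (hf : FSpec f) {u w : Word} (hu : Ok u) (hw : Ok w)
    (hl : u.length = w.length) (h1 : 1 ≤ w.length) : ck f (lins 0 u) (lins 1 w) = ck f u w := by
  apply ck_congr
  · rw [hf.insL 0 _ _ hu (ok_lins.2 hw) (by rw [InsAux.length_lins]; omega) (by omega),
      cap_lins_succ (i := 0) (by omega)]
  · have h2 : rotl (lins 1 w) = lins 0 (rotl w) := by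
      have h3 := rotr_lins (i := 0) (w := rotl w) (by rw [length_rotl]; omega)
      rw [rotr_rotl] at h3
      rw [← rotl_rotr (lins 0 (rotl w)), h3]
    rw [rotl_lins0, h2, hf.insR 0 _ _ (ok_seam.2 hu) (ok_rotl.2 hw) (by
      rw [length_rotl]; simp [seam]; omega) (by omega), cap_zero_seam (by omega)]

theorem length_seam (v : Word) : (seam v).length = v.length + 2 := by simp [seam]

theorem rotl_seam (v : Word) : rotl (seam v) = lins v.length v := by
  rw [← rotr_lins_last, rotl_rotr]

theorem ck_lins_seam {f : Word → Word → ℕ} (hf : FSpec f) {u w : Word} (hu : Ok u) (hw : Ok w)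
    (hl : u.length = w.length) (h1 : 1 ≤ w.length) :
    ck f (lins 0 u) (seam w) = ck f (rotr u) w := by
  have e1 : f (lins 0 u) (seam w) = f (rotl (rotr u)) (rotl w) := by
    rw [hf.insL 0 _ _ hu (ok_seam.2 hw) (by rw [length_seam]; omega) (by omega), cap_zero_seam h1,
      rotl_rotr]
  have e2 : f (rotl (lins 0 u)) (rotl (seam w)) = f (rotr u) w := by
    rw [rotl_lins0, rotl_seam, hf.insR _ _ _ (ok_seam.2 hu) hw (by rw [length_seam]; omega) (by omega),
      ← hl, cap_last_seam (by omega)]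
  unfold ck
  rw [e1, e2]
  simp only [and_comm]

theorem ck_rotl {f : Word → Word → ℕ} (hf : FSpec f) {u w : Word} (hu : Ok u) (hw : Ok w)
    (hl : w.length = u.length + 2) :
    ck f (rotl (lins 0 u)) (rotl w) = ck f (lins 0 u) w := by
  have e1 : f (rotl (rotl (lins 0 u))) (rotl (rotl w)) = f (lins 0 u) w := by
    rw [rotl_lins0, rotl_seam, hf.insL _ _ _ hu (ok_rotl.2 (ok_rotl.2 hw)) (by
      rw [length_rotl, length_rotl]; omega) (by omega), hf.insL 0 _ _ hu hw (by omega) (by omega)]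
    have h := L2Aux.cap_rot_ends (j := u.length) (w := rotl w) (by rw [length_rotl]; omega)
    rw [rotr_rotl] at h
    rw [← h]
  unfold ck
  rw [e1]
  simp only [and_comm]

/-! ### linear versions -/

theorem pc_act {f : Word → Word → ℕ} (hf : FSpec f) {N i : ℕ} (h1 : 1 ≤ i) (hi : i + 2 ≤ N)
    {v' v : VW} (hv' : v' ∈ VN N) (hv : v ∈ VN N) :
    pc f (lin (act i) v') v = pc f v' (lin (act i) v) :=
  bilin_ext (A := (pc f).comp (lin (act i))) (B := (pc f).compl₂ (lin (act i)))
    (N' := N) (N := N) (fun w' w g1 g2 g3 g4 => by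
      rw [LinearMap.compl₂_apply, LinearMap.comp_apply, lin_bs, lin_bs, pc_bs, pc_bs,
        ck_act hf g2 g4 (by omega) h1 (by omega)]) hv' hv

theorem pc_lins_act {f : Word → Word → ℕ} (hf : FSpec f) {N : ℕ}
    {v' v : VW} (hv' : v' ∈ VN N) (hv : v ∈ VN (N + 2)) :
    pc f (lin (lins 0) v') (lin (act 0) v) = 0 := by
  have h := bilin_ext (A := ((pc f).compl₂ (lin (act 0))).comp (lin (lins 0))) (B := 0)
    (N' := N) (N := N + 2) (fun w' w g1 g2 g3 g4 => by
      rw [LinearMap.comp_apply, LinearMap.compl₂_apply, lin_bs, lin_bs, pc_bs,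
        ck_lins_act hf g2 g4 (by omega)]; simp) hv' hv
  exact h

theorem pc_lins_lins {f : Word → Word → ℕ} (hf : FSpec f) {N : ℕ} (hN : 1 ≤ N)
    {v' v : VW} (hv' : v' ∈ VN N) (hv : v ∈ VN N) :
    pc f (lin (lins 0) v') (lin (lins 1) v) = pc f v' v :=
  bilin_ext (A := ((pc f).compl₂ (lin (lins 1))).comp (lin (lins 0))) (B := pc f)
    (N' := N) (N := N) (fun w' w g1 g2 g3 g4 => by
      rw [LinearMap.comp_apply, LinearMap.compl₂_apply, lin_bs, lin_bs, pc_bs, pc_bs,
        ck_lins_lins hf g2 g4 (by omega) (by omega)]) hv' hv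

theorem pc_lins_seam {f : Word → Word → ℕ} (hf : FSpec f) {N : ℕ} (hN : 1 ≤ N)
    {v' v : VW} (hv' : v' ∈ VN N) (hv : v ∈ VN N) :
    pc f (lin (lins 0) v') (lin seam v) = pc f (lin rotr v') v :=
  bilin_ext (A := ((pc f).compl₂ (lin seam)).comp (lin (lins 0))) (B := (pc f).comp (lin rotr))
    (N' := N) (N := N) (fun w' w g1 g2 g3 g4 => by
      rw [LinearMap.comp_apply, LinearMap.compl₂_apply, LinearMap.comp_apply, lin_bs, lin_bs,
        lin_bs, pc_bs, pc_bs, ck_lins_seam hf g2 g4 (by omega) (by omega)]) hv' hv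

theorem pc_rotl {f : Word → Word → ℕ} (hf : FSpec f) {N : ℕ}
    {v' v : VW} (hv' : v' ∈ VN N) (hv : v ∈ VN (N + 2)) :
    pc f (lin rotl (lin (lins 0) v')) (lin rotl v) = pc f (lin (lins 0) v') v :=
  bilin_ext (A := ((pc f).compl₂ (lin rotl)).comp ((lin rotl).comp (lin (lins 0))))
    (B := (pc f).comp (lin (lins 0)))
    (N' := N) (N := N + 2) (fun w' w g1 g2 g3 g4 => by
      simp only [LinearMap.comp_apply, LinearMap.compl₂_apply, lin_bs, pc_bs]
      exact ck_rotl hf g2 g4 (by omega)) hv' hv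

end Pool.Agent.Helper21.EV
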