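import Pool.Agent.Helper21.ID.Law
import Pool.Agent.Helper21.EV.Det2
import Pool.Agent.Helper21.EV.Homog

/-!
# The law of finitely many rows, any circumference
-/

namespace Pool.Agent.Helper21.EV

open MeasureTheory ProbabilityTheory Filter Topology
open Pool.Agent.Helper21.ID (rw1 w1 bern_real)

instance (m : ℕ) (p : ℤ → unitInterval) : IsProbabilityMeasure (coins m p) := by
  unfold coins; infer_instance

theorem cyl {m : ℕ} (p : ℤ → unitInterval) (S : Finset (Fin (m + 1) × ℤ))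
    (c : Fin (m + 1) × ℤ → Bool) :
    (coins m p).real {ω | ∀ z ∈ S, ω z = c z} = ∏ z ∈ S, w1 (p z.2) (c z) := by
  have h : {ω : Fin (m + 1) × ℤ → Bool | ∀ z ∈ S, ω z = c z}
      = Set.pi S (fun z => {c z}) := by
    ext ω
    simp [Set.mem_pi]
  rw [h, measureReal_def]
  unfold coins
  rw [Measure.infinitePi_pi _ (fun z _ => measurableSet_singleton _), ENNReal.toReal_prod]
  refine Finset.prod_congr rfl fun z _ => ?_
  exact bern_real _ _

/-- the states of the `M` rows below and above the level `t0` -/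
def win {m : ℕ} (t0 : ℤ) (M : ℕ) (ω : Fin (m + 1) × ℤ → Bool) :
    (Fin M → Fin (m + 1) → Bool) × (Fin M → Fin (m + 1) → Bool) :=
  (fun s => lowc ω t0 M s, fun s => uppc ω t0 M s)

theorem measurable_win {m : ℕ} (t0 : ℤ) (M : ℕ) : Measurable (win (m := m) t0 M) := by
  refine Measurable.prodMk ?_ ?_
  · refine measurable_pi_lambda _ fun s => measurable_pi_lambda _ fun j => ?_
    exact measurable_pi_apply _
  · refine measurable_pi_lambda _ fun s => measurable_pi_lambda _ fun j => ?_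
    exact (measurable_of_finite (fun b : Bool => !b)).comp (measurable_pi_apply _)

theorem win_law {m : ℕ} (p : ℤ → unitInterval) (t0 : ℤ) (M : ℕ)
    (x : (Fin M → Fin (m + 1) → Bool) × (Fin M → Fin (m + 1) → Bool)) :
    ((coins m p).map (win t0 M)).real {x} =
      (∏ s : Fin M, rw1 (p (t0 - M + (s : ℕ)) : ℝ) (x.1 s)) *
        ∏ s : Fin M, rw1 (1 - (p (t0 + M - 1 - (s : ℕ)) : ℝ)) (x.2 s) := by
  classical
  obtain ⟨a, b⟩ := x
  rw [map_measureReal_apply (measurable_win t0 M) (measurableSet_singleton _)]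
  set i1 : Fin M × Fin (m + 1) → Fin (m + 1) × ℤ := fun y => (y.2, t0 - M + (y.1 : ℕ))
    with hi1
  set i2 : Fin M × Fin (m + 1) → Fin (m + 1) × ℤ := fun y => (y.2, t0 + M - 1 - (y.1 : ℕ))
    with hi2
  have j1 : Function.Injective i1 := by
    rintro ⟨s, j⟩ ⟨s', j'⟩ h
    simp only [hi1, Prod.mk.injEq] at h
    have : s = s' := Fin.ext (by omega)
    rw [this, h.1]
  have j2 : Function.Injective i2 := by
    rintro ⟨s, j⟩ ⟨s', j'⟩ h
    simp only [hi2, Prod.mk.injEq] at h
    have : s = s' := Fin.ext (by omega)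
    rw [this, h.1]
  set S1 := Finset.univ.image i1 with hS1
  set S2 := Finset.univ.image i2 with hS2
  set c : Fin (m + 1) × ℤ → Bool := fun z =>
    if h : z.2 < t0 ∧ t0 - M ≤ z.2 then a ⟨(z.2 - (t0 - M)).toNat, by omega⟩ z.1
    else if h : t0 ≤ z.2 ∧ z.2 < t0 + M then !(b ⟨(t0 + M - 1 - z.2).toNat, by omega⟩ z.1)
    else false with hc
  have c1 : ∀ y, c (i1 y) = a y.1 y.2 := by
    rintro ⟨s, j⟩
    have hs := s.2
    have h : t0 - (M : ℤ) + ((s : ℕ) : ℤ) < t0 ∧ t0 - (M : ℤ) ≤ t0 - M + ((s : ℕ) : ℤ) := by omega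
    simp only [hc, hi1]
    rw [dif_pos h]
    have e : (⟨(t0 - (M : ℤ) + ((s : ℕ) : ℤ) - (t0 - M)).toNat, by omega⟩ : Fin M) = s :=
      Fin.ext (by show (t0 - (M : ℤ) + ((s : ℕ) : ℤ) - (t0 - M)).toNat = (s : ℕ); omega)
    rw [e]
  have c2 : ∀ y, c (i2 y) = !(b y.1 y.2) := by
    rintro ⟨s, j⟩
    have hs := s.2
    have h' : ¬ (t0 + (M : ℤ) - 1 - ((s : ℕ) : ℤ) < t0 ∧
      t0 - (M : ℤ) ≤ t0 + M - 1 - ((s : ℕ) : ℤ)) := by omega
    have h : t0 ≤ t0 + (M : ℤ) - 1 - ((s : ℕ) : ℤ) ∧ t0 + (M : ℤ) - 1 - ((s : ℕ) : ℤ) < t0 + M := by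
      omega
    simp only [hc, hi2]
    rw [dif_neg h', dif_pos h]
    have e : (⟨(t0 + (M : ℤ) - 1 - (t0 + M - 1 - ((s : ℕ) : ℤ))).toNat, by omega⟩ : Fin M) = s :=
      Fin.ext (by
        show (t0 + (M : ℤ) - 1 - (t0 + M - 1 - ((s : ℕ) : ℤ))).toNat = (s : ℕ); omega)
    rw [e]
  have hdisj : Disjoint S1 S2 := by
    rw [Finset.disjoint_left]
    intro z hz1 hz2
    rw [hS1, Finset.mem_image] at hz1
    rw [hS2, Finset.mem_image] at hz2
    obtain ⟨⟨s, j⟩, -, h1⟩ := hz1
    obtain ⟨⟨s', j'⟩, -, h2⟩ := hz2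
    have hs := s.2
    have hs' := s'.2
    rw [← h1] at h2
    simp only [hi1, hi2, Prod.mk.injEq] at h2
    omega
  have hev : win (m := m) t0 M ⁻¹' {(a, b)} = {ω | ∀ z ∈ S1 ∪ S2, ω z = c z} := by
    ext ω
    simp only [Set.mem_preimage, Set.mem_singleton_iff, Set.mem_ofPred_eq, Finset.mem_union]
    constructor
    · intro h z hz
      have ha : ∀ s j, lowc ω t0 M (s : Fin M) j = a s j := by
        intro s j
        have := congrFun (congrFun (congrArg Prod.fst h) s) j
        exact this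
      have hb : ∀ s j, uppc ω t0 M (s : Fin M) j = b s j := by
        intro s j
        have := congrFun (congrFun (congrArg Prod.snd h) s) j
        exact this
      rcases hz with hz | hz
      · rw [hS1, Finset.mem_image] at hz
        obtain ⟨y, -, rfl⟩ := hz
        rw [c1, ← ha]
        rfl
      · rw [hS2, Finset.mem_image] at hz
        obtain ⟨y, -, rfl⟩ := hz
        rw [c2, ← hb]
        simp [uppc, hi2]
    · intro h
      unfold win
      rw [Prod.mk.injEq]
      constructor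
      · funext s j
        have := h (i1 (s, j)) (Or.inl (Finset.mem_image_of_mem _ (Finset.mem_univ _)))
        rw [c1] at this
        exact this
      · funext s j
        have := h (i2 (s, j)) (Or.inr (Finset.mem_image_of_mem _ (Finset.mem_univ _)))
        rw [c2] at this
        show (!ω (j, t0 + M - 1 - ((s : ℕ) : ℤ))) = b s j
        have h3 : ω (j, t0 + M - 1 - ((s : ℕ) : ℤ)) = !(b s j) := this
        rw [h3, Bool.not_not]
  rw [hev, cyl, Finset.prod_union hdisj, hS1, hS2, Finset.prod_image (fun x _ y _ h => j1 h),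
    Finset.prod_image (fun x _ y _ h => j2 h), Fintype.prod_prod_type, Fintype.prod_prod_type]
  congr 1
  · refine Finset.prod_congr rfl fun s _ => ?_
    unfold rw1
    refine Finset.prod_congr rfl fun j _ => ?_
    rw [c1]
    rfl
  · refine Finset.prod_congr rfl fun s _ => ?_
    unfold rw1
    refine Finset.prod_congr rfl fun j _ => ?_
    rw [c2 (s, j)]
    unfold w1
    show (if (!b s j) = true then (p (t0 + M - 1 - ((s : ℕ) : ℤ)) : ℝ)
      else 1 - (p (t0 + M - 1 - ((s : ℕ) : ℤ)) : ℝ)) = _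
    cases hb : b s j
    · simp [hb]
    · simp [hb]

theorem sum_rw1 {m : ℕ} (q : ℝ) : ∑ c : Fin (m + 1) → Bool, rw1 q c = 1 := by
  have h := Finset.prod_univ_sum (fun _ : Fin (m + 1) => (Finset.univ : Finset Bool))
    (fun _ x => if x = true then q else 1 - q)
  simp only [Fintype.piFinset_univ] at h
  unfold rw1
  rw [← h]
  simp

theorem rw1_nonneg {m : ℕ} {q : ℝ} (h0 : 0 ≤ q) (h1 : q ≤ 1) (c : Fin (m + 1) → Bool) :
    0 ≤ rw1 q c := by
  unfold rw1
  refine Finset.prod_nonneg fun j _ => ?_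
  split_ifs
  · exact h0
  · linarith

theorem integral_win {m : ℕ} (p : ℤ → unitInterval) (t0 : ℤ) (M : ℕ)
    (G : (Fin M → Fin (m + 1) → Bool) × (Fin M → Fin (m + 1) → Bool) → ℝ) :
    ∫ ω, G (win t0 M ω) ∂(coins m p) = ∑ a, ∑ b,
      (∏ s : Fin M, rw1 (p (t0 - M + (s : ℕ)) : ℝ) (a s)) *
        (∏ s : Fin M, rw1 (1 - (p (t0 + M - 1 - (s : ℕ)) : ℝ)) (b s)) * G (a, b) := by
  have hm := measurable_win (m := m) t0 M
  rw [← integral_map hm.aemeasurable (measurable_of_finite G).aestronglyMeasurable]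
  have : IsProbabilityMeasure ((coins m p).map (win t0 M)) :=
    Measure.isProbabilityMeasure_map hm.aemeasurable
  rw [integral_fintype (.of_finite), Fintype.sum_prod_type]
  refine Finset.sum_congr rfl fun a _ => Finset.sum_congr rfl fun b _ => ?_
  rw [win_law, smul_eq_mul]

end Pool.Agent.Helper21.EV
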