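import Pool.Agent.Helper21.EV.Ker
import Pool.Graph.R_seed8.H974R3.PairFormula
import Pool.Graph.R_seed8.H863R2.Cyl.GOnes

/-!
# The pairing formula for even circumference, part 1
-/

namespace Pool.Agent.Helper21.EV

open Pool.Agent.H863R2.Cyl
open Pool.Agent.H863R2.Cyl.PairAux
open Pool.Agent.H988R2.Perc (Word flipR flipL rem firstArc PD)

section core
variable {q : ℂ} {f : Word → Word → ℕ}

theorem cube {q : ℂ} (hq : q ^ 2 + q + 1 = 0) : q ^ 3 = 1 := by
  linear_combination (q - 1) * hq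

theorem q_ne_zero {q : ℂ} (hq : q ^ 2 + q + 1 = 0) : q ≠ 0 := by
  rintro rfl
  norm_num at hq

theorem q_ne_one {q : ℂ} (hq : q ^ 2 + q + 1 = 0) : q ≠ 1 := by
  rintro rfl
  norm_num at hq

theorem sym_core (hq : q ^ 2 + q + 1 = 0) (hf : FSpec f) {N i : ℕ} (h1 : 1 ≤ i) (hi : i + 2 ≤ N)
    {A A' B B' : VW} (a b : ℂ) (mA : A ∈ VN N) (mA' : A' ∈ VN N)
    (e : (q * b - q ^ 2 * a) • B = (q * a - q ^ 2 * b) • A + (a - b) • lin (act i) A)
    (e' : (q ^ 2 * b - (q ^ 2) ^ 2 * a) • B' =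
      (q ^ 2 * a - (q ^ 2) ^ 2 * b) • A' + (a - b) • lin (act i) A') :
    (a ^ 2 + a * b + b ^ 2) * pc f B B' = (a ^ 2 + a * b + b ^ 2) * pc f A A' := by
  have hq3 := cube hq
  have hact : ∀ w : Word, w.length = N → Ok w → (act i w).length = N ∧ Ok (act i w) := by
    intro w hw hok
    exact ⟨(length_act i w).trans hw, ok_act i hok⟩
  have k1 : pc f (lin (act i) A) A' = pc f A (lin (act i) A') := pc_act hf h1 hi mA mA'
  have k2 : pc f (lin (act i) A) (lin (act i) A') = pc f A (lin (act i) A') := by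
    rw [pc_act hf h1 hi mA (lin_mem hact mA'), GPropAux.lin_lin]
    congr 1
    refine GPropAux.lin_apply_congr mA' fun w hw _ => ?_
    exact act_of_arcAt (arcAt_act i (by omega))
  have k3 : pc f ((q * b - q ^ 2 * a) • B) ((q ^ 2 * b - (q ^ 2) ^ 2 * a) • B') =
      pc f ((q * a - q ^ 2 * b) • A + (a - b) • lin (act i) A)
        ((q ^ 2 * a - (q ^ 2) ^ 2 * b) • A' + (a - b) • lin (act i) A') := by
    rw [e, e']
  simp only [map_add, map_smul, LinearMap.add_apply, LinearMap.smul_apply, smul_eq_mul] at k3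
  rw [k1, k2] at k3
  have c1 : (q ^ 2 * b - (q ^ 2) ^ 2 * a) * (q * b - q ^ 2 * a) = a ^ 2 + a * b + b ^ 2 := by
    linear_combination (b ^ 2 + q ^ 3 * a ^ 2 + a ^ 2 - q * a * b - q ^ 2 * a * b) * hq3 - a * b * hq
  have c2 : (q ^ 2 * a - (q ^ 2) ^ 2 * b) * (q * a - q ^ 2 * b) = a ^ 2 + a * b + b ^ 2 := by
    linear_combination (a ^ 2 + q ^ 3 * b ^ 2 + b ^ 2 - q * a * b - q ^ 2 * a * b) * hq3 - a * b * hq
  have c3 : (q ^ 2 * a - (q ^ 2) ^ 2 * b) + (q * a - q ^ 2 * b) + (a - b) = 0 := by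
    linear_combination (a - b) * hq - q * b * hq3
  linear_combination k3 - pc f B B' * c1 + pc f A A' * c2 +
    (a - b) * pc f A (lin (act i) A') * c3

theorem swap_of_key {F : List ℂ → ℂ} {M d : ℕ} (hF : PD M d F) (u v : List ℂ) (x : ℂ)
    (hl : u.length + v.length + 2 = M)
    (key : ∀ y : ℂ, (x ^ 2 + x * y + y ^ 2) * F (u ++ y :: x :: v) =
      (x ^ 2 + x * y + y ^ 2) * F (u ++ x :: y :: v)) (y : ℂ) :
    F (u ++ y :: x :: v) = F (u ++ x :: y :: v) := by
  obtain ⟨P1, _, hP1⟩ := hF.univ u (x :: v) (by simp; omega)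
  obtain ⟨P2, _, hP2⟩ := hF.univ (u ++ [x]) v (by simp; omega)
  have hpoly : (Polynomial.C (x ^ 2) + Polynomial.C x * Polynomial.X + Polynomial.X ^ 2) *
      (P1 - P2) = 0 := by
    refine Polynomial.funext fun y => ?_
    have k := key y
    have a1 := hP1 y
    have a2 := hP2 y
    simp only [List.append_assoc, List.cons_append, List.nil_append] at a2
    rw [a1, a2] at k
    simp only [Polynomial.eval_mul, Polynomial.eval_add, Polynomial.eval_sub,
      Polynomial.eval_C, Polynomial.eval_X, Polynomial.eval_pow, Polynomial.eval_zero]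
    linear_combination k
  have hne : (Polynomial.C (x ^ 2) + Polynomial.C x * Polynomial.X + Polynomial.X ^ 2 :
      Polynomial ℂ) ≠ 0 := by
    intro h
    have e1 := congrArg (Polynomial.eval (x + 1)) h
    have e2 := congrArg (Polynomial.eval (x - 1)) h
    have e3 := congrArg (Polynomial.eval x) h
    simp only [Polynomial.eval_mul, Polynomial.eval_add, Polynomial.eval_C, Polynomial.eval_X,
      Polynomial.eval_pow, Polynomial.eval_zero] at e1 e2 e3
    have : (2 : ℂ) = 0 := by linear_combination e1 + e2 - 2 * e3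
    norm_num at this
  have h0 : P1 = P2 := by
    rcases mul_eq_zero.1 hpoly with h | h
    · exact absurd h hne
    · exact sub_eq_zero.1 h
  have a1 := hP1 y
  have a2 := hP2 y
  simp only [List.append_assoc, List.cons_append, List.nil_append] at a2
  rw [a1, a2, h0]

theorem perm_of_swap {F : List ℂ → ℂ} {M : ℕ}
    (h : ∀ (u v : List ℂ) (x y : ℂ), u.length + v.length + 2 = M →
      F (u ++ y :: x :: v) = F (u ++ x :: y :: v)) {l l' : List ℂ} (hp : l.Perm l')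
    (hl : l.length = M) : F l = F l' := by
  have : ∀ u : List ℂ, u.length + l.length = M → F (u ++ l) = F (u ++ l') := by
    clear hl
    induction hp with
    | nil => intro u _; rfl
    | cons x _ ih =>
      intro u hu
      have := ih (u ++ [x]) (by simp at hu ⊢; omega)
      simpa using this
    | swap x y l => intro u hu; exact h u l x y (by simp at hu; omega)
    | trans h1 _ ih1 ih2 => intro u hu; rw [ih1 u hu, ih2 u (by rw [← h1.length_eq]; exact hu)]
  simpa using this [] (by simpa using hl)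

theorem pc_eq (f : Word → Word → ℕ) {v' v : VW} {N N' : ℕ} (hv' : v' ∈ VN N')
    (hv : v ∈ VN N) :
    pc f v' v = ∑ w' ∈ GPropAux.WS N', ∑ w ∈ GPropAux.WS N, ck f w' w * (v' w' * v w) := by
  unfold pc
  rw [Finsupp.linearCombination_apply, Finsupp.sum_of_support_subset _ (GPropAux.supp_sub hv')]
  · rw [LinearMap.sum_apply]
    refine Finset.sum_congr rfl fun w' _ => ?_
    rw [LinearMap.smul_apply, Finsupp.linearCombination_apply,
      Finsupp.sum_of_support_subset _ (GPropAux.supp_sub hv)]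
    · rw [Finset.smul_sum]
      refine Finset.sum_congr rfl fun w _ => ?_
      simp only [smul_eq_mul]
      ring
    · intro w _; simp
  · intro w _; simp

theorem PD_pc (f : Word → Word → ℕ) {M N N' d d' : ℕ} {F G : List ℂ → VW}
    (hF : ∀ l : List ℂ, l.length = M → F l ∈ VN N) (hG : ∀ l : List ℂ, l.length = M → G l ∈ VN N')
    (dF : ∀ w, PD M d (fun l => F l w)) (dG : ∀ w, PD M d' (fun l => G l w)) :
    PD M (d + d') (fun l => pc f (F l) (G l)) := by
  have h1 : PD M (d + d') (fun l => ∑ w' ∈ GPropAux.WS N, ∑ w ∈ GPropAux.WS N',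
      ck f w' w * (F l w' * G l w)) :=
    PD.sum _ fun w' _ => PD.sum _ fun w _ => PD.smul _ ((dF w').mul (dG w))
  refine h1.congr fun l hl => ?_
  exact pc_eq f (hF l hl) (hG l hl)

end core

/-! ### the two pairings -/

section fam
variable {q : ℂ} {f : Word → Word → ℕ} {Ψ Ψ' : List ℂ → VW}

/-- the pairing `B` -/
noncomputable def BB (f : Word → Word → ℕ) (Ψ Ψ' : List ℂ → VW) (x y : ℂ) (z : List ℂ) : ℂ :=
  pc f (Ψ (x :: z)) (Ψ' (y :: z))

/-- the pairing `C` -/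
noncomputable def CC (f : Word → Word → ℕ) (Ψ Ψ' : List ℂ → VW) (y1 y2 : ℂ) (z : List ℂ) : ℂ :=
  pc f (lin (lins 0) (Ψ z)) (Ψ' (y1 :: y2 :: z))

theorem slice1 {N d : ℕ} {F : List ℂ → ℂ} (hF : PD (N + 1) d F) (x : ℂ) :
    PD N d (fun l => F (x :: l)) := by
  have h := PD.sliceLeft (M := N) [x] (F := F) (d := d) (by simpa [add_comm] using hF)
  exact h

theorem slice2 {N d : ℕ} {F : List ℂ → ℂ} (hF : PD (N + 2) d F) (x y : ℂ) :
    PD N d (fun l => F (x :: y :: l)) := slice1 (slice1 hF x) y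

theorem PD_BB (hΨ : Fam q Ψ) (hΨ' : Fam (q ^ 2) Ψ') (x y : ℂ) (N : ℕ) :
    PD N (2 * N) (fun z => BB f Ψ Ψ' x y z) := by
  rw [two_mul]
  refine PD_pc (N := N + 1) (N' := N + 1) f (F := fun l => Ψ (x :: l)) (G := fun l => Ψ' (y :: l))
    ?_ ?_ ?_ ?_
  · intro l hl
    have := hΨ.mem (x :: l)
    rwa [List.length_cons, hl] at this
  · intro l hl
    have := hΨ'.mem (y :: l)
    rwa [List.length_cons, hl] at this
  · intro w
    exact slice1 (hΨ.deg (N + 1) w) x
  · intro w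
    exact slice1 (hΨ'.deg (N + 1) w) y

theorem len_lins (w : Word) : (lins 0 w).length = w.length + 2 := InsAux.length_lins 0 w

theorem lins_mem {N : ℕ} {v : VW} (hv : v ∈ VN N) : lin (lins 0) v ∈ VN (N + 2) :=
  lin_mem (fun w hw hok => ⟨by rw [len_lins, hw], ok_lins.2 hok⟩) hv

theorem PD_CC (hΨ : Fam q Ψ) (hΨ' : Fam (q ^ 2) Ψ') (x y : ℂ) (N : ℕ) :
    PD N ((N - 1) + (N + 1)) (fun z => CC f Ψ Ψ' x y z) := by
  refine PD_pc (N := N + 2) (N' := N + 2) f (F := fun l => lin (lins 0) (Ψ l))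
    (G := fun l => Ψ' (x :: y :: l)) ?_ ?_ ?_ ?_
  · intro l hl
    exact lins_mem (hl ▸ hΨ.mem l)
  · intro l hl
    have := hΨ'.mem (x :: y :: l)
    rwa [List.length_cons, List.length_cons, hl] at this
  · intro w
    exact BLAux.PD_K hΨ (lin (lins 0)) N w
  · intro w
    exact slice2 (hΨ'.deg (N + 2) w) x y

theorem BB_swap (hq : q ^ 2 + q + 1 = 0) (hf : FSpec f) (hΨ : Fam q Ψ) (hΨ' : Fam (q ^ 2) Ψ')
    (x y : ℂ) (u v : List ℂ) (a b : ℂ) :
    BB f Ψ Ψ' x y (u ++ b :: a :: v) = BB f Ψ Ψ' x y (u ++ a :: b :: v) := by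
  refine swap_of_key (PD_BB hΨ hΨ' x y (u.length + v.length + 2)) u v a rfl (fun b => ?_) b
  have e1 := hΨ.exch (x :: u) v a b
  have e2 := hΨ'.exch (y :: u) v a b
  have m1 := hΨ.mem (x :: u ++ a :: b :: v)
  have m2 := hΨ'.mem (y :: u ++ a :: b :: v)
  have hl : (y :: u ++ a :: b :: v).length = (x :: u ++ a :: b :: v).length := by simp
  rw [hl] at m2
  exact sym_core hq hf (i := u.length + 1) (by omega) (by simp) a b m1 m2 e1 e2

theorem lin_act_lins (i : ℕ) {N : ℕ} (hi : i + 2 ≤ N) {v : VW} (hv : v ∈ VN N) :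
    lin (act (i + 2)) (lin (lins 0) v) = lin (lins 0) (lin (act i) v) := by
  rw [GPropAux.lin_lin, GPropAux.lin_lin]
  refine GPropAux.lin_apply_congr hv fun w hw _ => ?_
  exact InsAux.act_lins0 (by omega)

theorem CC_swap (hq : q ^ 2 + q + 1 = 0) (hf : FSpec f) (hΨ : Fam q Ψ) (hΨ' : Fam (q ^ 2) Ψ')
    (x y : ℂ) (u v : List ℂ) (a b : ℂ) :
    CC f Ψ Ψ' x y (u ++ b :: a :: v) = CC f Ψ Ψ' x y (u ++ a :: b :: v) := by
  refine swap_of_key (PD_CC hΨ hΨ' x y (u.length + v.length + 2)) u v a rfl (fun b => ?_) b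
  have e1 := congrArg (lin (lins 0)) (hΨ.exch u v a b)
  have e2 := hΨ'.exch (x :: y :: u) v a b
  have m0 := hΨ.mem (u ++ a :: b :: v)
  have m1 := lins_mem m0
  have m2 := hΨ'.mem (x :: y :: u ++ a :: b :: v)
  have hl : (x :: y :: u ++ a :: b :: v).length = (u ++ a :: b :: v).length + 2 := by simp
  rw [hl] at m2
  simp only [map_add, map_smul] at e1
  rw [← lin_act_lins u.length (by simp) m0] at e1
  exact sym_core hq hf (i := u.length + 2) (by omega) (by simp) a b m1 m2 e1 e2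

theorem BB_perm (hq : q ^ 2 + q + 1 = 0) (hf : FSpec f) (hΨ : Fam q Ψ) (hΨ' : Fam (q ^ 2) Ψ')
    (x y : ℂ) {z z' : List ℂ} (hp : z.Perm z') : BB f Ψ Ψ' x y z = BB f Ψ Ψ' x y z' :=
  perm_of_swap (M := z.length) (fun u v a b _ => BB_swap hq hf hΨ hΨ' x y u v a b) hp rfl

theorem CC_perm (hq : q ^ 2 + q + 1 = 0) (hf : FSpec f) (hΨ : Fam q Ψ) (hΨ' : Fam (q ^ 2) Ψ')
    (x y : ℂ) {z z' : List ℂ} (hp : z.Perm z') : CC f Ψ Ψ' x y z = CC f Ψ Ψ' x y z' :=
  perm_of_swap (M := z.length) (fun u v a b _ => CC_swap hq hf hΨ hΨ' x y u v a b) hp rfl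

theorem CC_anti (hf : FSpec f) (hΨ : Fam q Ψ) (hΨ' : Fam (q ^ 2) Ψ') (y1 y2 : ℂ) (z : List ℂ) :
    (q ^ 2 * y2 - (q ^ 2) ^ 2 * y1) * CC f Ψ Ψ' y2 y1 z =
      (q ^ 2 * y1 - (q ^ 2) ^ 2 * y2) * CC f Ψ Ψ' y1 y2 z := by
  have e := hΨ'.exch [] z y1 y2
  simp only [List.nil_append, List.length_nil] at e
  have e1 := congrArg (pc f (lin (lins 0) (Ψ z))) e
  have m := hΨ'.mem (y1 :: y2 :: z)
  simp only [List.length_cons] at m
  rw [map_smul, map_add, map_smul, map_smul, pc_lins_act hf (hΨ.mem z) m] at e1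
  simpa [CC] using e1

theorem CC_from_right (hf : FSpec f) (hΨ : Fam q Ψ) (hΨ' : Fam (q ^ 2) Ψ') (y1 y2 : ℂ)
    (z : List ℂ) : CC f Ψ Ψ' y1 y2 ((q ^ 2 * y2) :: z) =
      fac (q ^ 2) y2 (y1 :: z) * BB f Ψ Ψ' (q ^ 2 * y2) y1 z := by
  have e := hΨ'.recu [y1] z y2
  simp only [List.cons_append, List.nil_append, List.length_cons, List.length_nil] at e
  unfold CC BB
  have m1 := hΨ.mem ((q ^ 2 * y2) :: z)
  have m2 := hΨ'.mem (y1 :: z)
  simp only [List.length_cons] at m1 m2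
  rw [e, map_smul, smul_eq_mul, pc_lins_lins hf (by omega) m1 m2]

theorem CC_from_left (hf : FSpec f) (hΨ : Fam q Ψ) (hΨ' : Fam (q ^ 2) Ψ') (w y2 : ℂ)
    (z : List ℂ) : CC f Ψ Ψ' (q ^ 2 * w) y2 (z ++ [w]) =
      fac (q ^ 2) w (y2 :: z) * BB f Ψ Ψ' w y2 z := by
  have e := BLAux.seam_form hΨ' (y2 :: z) w
  simp only [List.cons_append] at e
  have e2 := hΨ.rot w z
  unfold CC BB
  have m1 := hΨ.mem (z ++ [w])
  have m2 := hΨ'.mem (y2 :: z)
  simp only [List.length_cons, List.length_append, List.length_nil, zero_add] at m1 m2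
  rw [e, map_smul, smul_eq_mul, pc_lins_seam hf (by omega) m1 m2, ← e2]

theorem BB_from_right (hΨ : Fam q Ψ) (x y : ℂ) (z : List ℂ) :
    BB f Ψ Ψ' x y ((q * x) :: z) = fac q x z * CC f Ψ Ψ' y (q * x) z := by
  have e := hΨ.recu [] z x
  simp only [List.nil_append, List.length_nil] at e
  unfold CC BB
  rw [e, map_smul, LinearMap.smul_apply, smul_eq_mul]

theorem BB_from_left (hf : FSpec f) (hΨ : Fam q Ψ) (hΨ' : Fam (q ^ 2) Ψ') (w y : ℂ) (z : List ℂ) :
    BB f Ψ Ψ' (q * w) y (z ++ [w]) = fac q w z * CC f Ψ Ψ' w y z := by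
  have e := BLAux.seam_form hΨ z w
  have e2 := hΨ'.rot w (y :: z)
  have m0 := hΨ.mem z
  have m2 := hΨ'.mem (w :: y :: z)
  simp only [List.length_cons] at m2
  have e3 : Ψ' (y :: (z ++ [w])) = lin rotl (Ψ' (w :: y :: z)) := by
    rw [e2, GPropAux.lin_lin]
    have h7 : lin (rotl ∘ rotr) (Ψ' (y :: z ++ [w])) = lin id (Ψ' (y :: z ++ [w])) :=
      GPropAux.lin_apply_congr (hΨ'.mem _) (fun w _ _ => rotl_rotr w)
    rw [h7, GPropAux.lin_id]
    rfl
  have e4 : lin seam (Ψ z) = lin rotl (lin (lins 0) (Ψ z)) := by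
    rw [GPropAux.lin_lin]
    exact GPropAux.lin_apply_congr m0 (fun w _ _ => (rotl_lins0 w).symm)
  unfold CC BB
  rw [e, e3, e4, map_smul, LinearMap.smul_apply, smul_eq_mul, pc_rotl hf m0 m2]

end fam

end Pool.Agent.Helper21.EV
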