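import Pool.Agent.Helper21.EV.Pair1

/-!
# The pairing formula for even circumference, part 2
-/

namespace Pool.Agent.Helper21.EV

open Pool.Agent.H863R2.Cyl
open Pool.Agent.H863R2.Cyl.PairAux
open Pool.Agent.H988R2.Perc (Word flipR flipL rem firstArc PD)
open Pool.Agent.H974R3 (Gn Dsc Dsc_ne Dsc_gn)

variable {q : ℂ} {f : Word → Word → ℕ} {Ψ Ψ' : List ℂ → VW} {g : List ℂ → ℂ}

theorem fac_eq (q x : ℂ) (l : List ℂ) :
    fac q x l = x * ((l.map (fun y => y - q ^ 2 * x)).prod) ^ 2 := by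
  unfold fac
  congr 1
  induction l with
  | nil => simp
  | cons a l ih => rw [List.map_cons, List.prod_cons, List.map_cons, List.prod_cons, mul_pow, ih]

theorem g_rec {q : ℂ} {g : List ℂ → ℂ} (h1 : Pool.Agent.H974R3.GSpec q 1 g) (t s a b : ℂ)
    (hs : s = q * t) (z : List ℂ) :
    g (t :: s :: a :: b :: (z ++ z)) =
      (a - q ^ 2 * t) * (b - q ^ 2 * t) * ((z.map (fun y => y - q ^ 2 * t)).prod) ^ 2 *
        g (a :: b :: (z ++ z)) := by
  subst hs
  rw [h1.recur, if_pos rfl, one_mul]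
  congr 1
  rw [List.map_cons, List.map_cons, List.map_append, List.prod_cons, List.prod_cons,
    List.prod_append]
  ring

/-- the claims -/
def ClaimB (f : Word → Word → ℕ) (Ψ Ψ' : List ℂ → VW) (g : List ℂ → ℂ) (n : ℕ) : Prop :=
  ∀ (x y : ℂ) (z : List ℂ), z.length + 1 = 2 * n →
    BB f Ψ Ψ' x y z = (1 / 3) ^ n * g (x :: y :: (z ++ z))

/-- the claims -/
def ClaimC (q : ℂ) (f : Word → Word → ℕ) (Ψ Ψ' : List ℂ → VW) (g : List ℂ → ℂ) (n : ℕ) : Prop :=
  ∀ (y1 y2 : ℂ) (z : List ℂ), z.length = 2 * n →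
    CC f Ψ Ψ' y1 y2 z = (1 / 3) ^ n * ((1 - q) / 3) * (q * y1 - q ^ 2 * y2) *
      g (y1 :: y2 :: (z ++ z))

theorem claimC_right (hq : q ^ 2 + q + 1 = 0) (hg : Pool.Agent.H974R3.GSpec q 1 g) (hf : FSpec f)
    (hΨ : Fam q Ψ) (hΨ' : Fam (q ^ 2) Ψ') {n : ℕ} (hB : ClaimB f Ψ Ψ' g n) (y1 t : ℂ)
    (r : List ℂ) (hr : r.length + 1 = 2 * n) :
    CC f Ψ Ψ' y1 t ((q ^ 2 * t) :: r) = (1 / 3) ^ n * ((1 - q) / 3) * (q * y1 - q ^ 2 * t) *
      g (y1 :: t :: (((q ^ 2 * t) :: r) ++ ((q ^ 2 * t) :: r))) := by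
  have hq3 := cube hq
  have hq1 : q - 1 ≠ 0 := sub_ne_zero.2 (q_ne_one hq)
  have p1 : (y1 :: t :: (((q ^ 2 * t) :: r) ++ ((q ^ 2 * t) :: r))).Perm
      (q ^ 2 * t :: t :: y1 :: q ^ 2 * t :: (r ++ r)) := by
    rw [List.perm_iff_count]
    intro x
    simp only [List.count_cons, List.count_append]
    ring
  rw [CC_from_right hf hΨ hΨ', hB _ _ _ hr, hg.perm _ _ p1,
    g_rec hg (q ^ 2 * t) t y1 (q ^ 2 * t) (by linear_combination -t * hq3) r,
    hg.perm _ _ (List.Perm.swap (q ^ 2 * t) y1 _), fac_eq, List.map_cons, List.prod_cons]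
  have e1 : (q ^ 2) ^ 2 * t = q * t := by linear_combination q * t * hq3
  have e2 : q ^ 2 * (q ^ 2 * t) = q * t := by linear_combination q * t * hq3
  rw [e1, e2]
  generalize (r.map (fun y => y - q * t)).prod = R
  generalize g (q ^ 2 * t :: y1 :: (r ++ r)) = G
  linear_combination ((1 / 3) ^ n * t * (y1 - q * t) ^ 2 * R ^ 2 * G / 3 *
    (q ^ 2 - 3 * q + 3)) * hq

theorem claimC_left (hq : q ^ 2 + q + 1 = 0) (hg : Pool.Agent.H974R3.GSpec q 1 g) (hf : FSpec f)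
    (hΨ : Fam q Ψ) (hΨ' : Fam (q ^ 2) Ψ') {n : ℕ} (hB : ClaimB f Ψ Ψ' g n) (w y2 : ℂ)
    (r : List ℂ) (hr : r.length + 1 = 2 * n) :
    CC f Ψ Ψ' (q ^ 2 * w) y2 (r ++ [w]) = (1 / 3) ^ n * ((1 - q) / 3) *
      (q * (q ^ 2 * w) - q ^ 2 * y2) * g (q ^ 2 * w :: y2 :: ((r ++ [w]) ++ (r ++ [w]))) := by
  have hq3 := cube hq
  have hq1 : q - 1 ≠ 0 := sub_ne_zero.2 (q_ne_one hq)
  have p1 : (q ^ 2 * w :: y2 :: ((r ++ [w]) ++ (r ++ [w]))).Perm
      (q ^ 2 * w :: w :: y2 :: w :: (r ++ r)) := by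
    rw [List.perm_iff_count]
    intro x
    simp only [List.count_cons, List.count_append, List.count_nil]
    ring
  rw [CC_from_left hf hΨ hΨ', hB _ _ _ hr, hg.perm _ _ p1,
    g_rec hg (q ^ 2 * w) w y2 w (by linear_combination -w * hq3) r,
    hg.perm _ _ (List.Perm.swap w y2 _), fac_eq, List.map_cons, List.prod_cons]
  have e1 : (q ^ 2) ^ 2 * w = q * w := by linear_combination q * w * hq3
  have e2 : q ^ 2 * (q ^ 2 * w) = q * w := by linear_combination q * w * hq3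
  rw [e1, e2]
  generalize (r.map (fun y => y - q * w)).prod = R
  generalize g (w :: y2 :: (r ++ r)) = G
  linear_combination ((1 / 3) ^ n * w * (y2 - q * w) ^ 2 * R ^ 2 * G / 3 *
    (q ^ 2 - 3 * q + 3)) * hq

theorem claimB_right (hq : q ^ 2 + q + 1 = 0) (hg : Pool.Agent.H974R3.GSpec q 1 g)
    (hΨ : Fam q Ψ) {n : ℕ} (hC : ClaimC q f Ψ Ψ' g n) (t y : ℂ)
    (r : List ℂ) (hr : r.length = 2 * n) :
    BB f Ψ Ψ' t y ((q * t) :: r) = (1 / 3) ^ (n + 1) *
      g (t :: y :: (((q * t) :: r) ++ ((q * t) :: r))) := by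
  have hq3 := cube hq
  have hq1 : q - 1 ≠ 0 := sub_ne_zero.2 (q_ne_one hq)
  have p1 : (t :: y :: (((q * t) :: r) ++ ((q * t) :: r))).Perm
      (t :: (q * t) :: y :: (q * t) :: (r ++ r)) := by
    rw [List.perm_iff_count]
    intro x
    simp only [List.count_cons, List.count_append]
    ring
  rw [BB_from_right hΨ, hC _ _ _ hr, hg.perm _ _ p1, g_rec hg t (q * t) y (q * t) rfl r, fac_eq]
  generalize (r.map (fun y => y - q ^ 2 * t)).prod = R
  generalize g (y :: q * t :: (r ++ r)) = G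
  ring

theorem claimB_left (hq : q ^ 2 + q + 1 = 0) (hg : Pool.Agent.H974R3.GSpec q 1 g) (hf : FSpec f)
    (hΨ : Fam q Ψ) (hΨ' : Fam (q ^ 2) Ψ') {n : ℕ} (hC : ClaimC q f Ψ Ψ' g n) (w y : ℂ)
    (r : List ℂ) (hr : r.length = 2 * n) :
    BB f Ψ Ψ' (q * w) y (r ++ [w]) = (1 / 3) ^ (n + 1) *
      g (q * w :: y :: ((r ++ [w]) ++ (r ++ [w]))) := by
  have hq3 := cube hq
  have hq1 : q - 1 ≠ 0 := sub_ne_zero.2 (q_ne_one hq)
  have p1 : (q * w :: y :: ((r ++ [w]) ++ (r ++ [w]))).Perm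
      (w :: (q * w) :: y :: w :: (r ++ r)) := by
    rw [List.perm_iff_count]
    intro x
    simp only [List.count_cons, List.count_append, List.count_nil]
    ring
  rw [BB_from_left hf hΨ hΨ', hC _ _ _ hr, hg.perm _ _ p1, g_rec hg w (q * w) y w rfl r, fac_eq,
    hg.perm _ _ (List.Perm.swap y w _)]
  generalize (r.map (fun y => y - q ^ 2 * w)).prod = R
  generalize g (y :: w :: (r ++ r)) = G
  linear_combination ((1 / 3) ^ n * w * R ^ 2 * G / 3 * (1 - q) * (q * w - y)) * hq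

/-! ### the first case -/

theorem act0_tf : act 0 [true, false] = [true, false] := by decide

theorem ck_tf {f : Word → Word → ℕ} (hf : FSpec f) : ck f [true, false] [true, false] = 0 := by
  have h := ck_lins_act hf (u := []) (w := [true, false]) (by simp [Ok]) (by simp [Ok]) rfl
  rw [act0_tf] at h
  exact h

theorem ck_ft {f : Word → Word → ℕ} (hf : FSpec f) : ck f [true, false] [false, true] = 1 := by
  have h1 : f [true, false] [false, true] = 0 := by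
    have h := hf.insL 0 [] [false, true] (by simp [Ok]) (by simp [Ok]) rfl (by simp)
    have e1 : (lins 0 [] : Word) = [true, false] := rfl
    have e2 : cap 0 ([false, true] : Word) = [] := by decide
    rw [e1, e2, hf.nil] at h
    exact h
  have h2 : f [false, true] [true, false] = 0 := by
    have h := hf.insR 0 [false, true] [] (by simp [Ok]) (by simp [Ok]) rfl (by simp)
    have e1 : (lins 0 [] : Word) = [true, false] := rfl
    have e2 : cap 0 ([false, true] : Word) = [] := by decide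
    rw [e1, e2, hf.nil] at h
    exact h
  unfold ck
  rw [if_pos]
  exact ⟨h1, h2⟩

theorem claimC_zero (hq : q ^ 2 + q + 1 = 0) (hg : Pool.Agent.H974R3.GSpec q 1 g) (hf : FSpec f)
    (hΨ : Fam q Ψ) (hΨ' : Fam (q ^ 2) Ψ') : ClaimC q f Ψ Ψ' g 0 := by
  intro y1 y2 z hz
  have hq3 := cube hq
  obtain rfl : z = [] := List.length_eq_zero_iff.1 (by omega)
  have hq1 : q ^ 2 - 1 ≠ 0 := by
    intro h
    have h2 : q ^ 2 = 1 := by linear_combination h
    have h3 : q = -2 := by linear_combination hq - h2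
    rw [h3] at h2
    norm_num at h2
  have e1 : lin (lins 0) (Ψ []) = bs [true, false] := by
    rw [hΨ.nil, lin_bs]; rfl
  unfold CC
  rw [e1, BLAux.psi2 hΨ', map_add, map_smul, map_smul, pc_bs, pc_bs, ck_tf hf, ck_ft hf,
    List.append_nil, Pool.Agent.H974R3.g_pair hq hg]
  simp only [smul_eq_mul, mul_zero, zero_add, mul_one, pow_zero, one_mul]
  rw [inv_mul_eq_div, div_eq_iff hq1]
  linear_combination ((1 / 3) * (q * y1 - q ^ 2 * y2) * (q - 2) - 0) * hq - q * y1 * hq3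

/-! ### interpolation -/

/-- the difference of the two sides of claim `C` -/
noncomputable def dC (q : ℂ) (f : Word → Word → ℕ) (Ψ Ψ' : List ℂ → VW) (g : List ℂ → ℂ) (n : ℕ)
    (y1 y2 : ℂ) (z : List ℂ) : ℂ :=
  CC f Ψ Ψ' y1 y2 z - (1 / 3) ^ n * ((1 - q) / 3) * (q * y1 - q ^ 2 * y2) *
      g (y1 :: y2 :: (z ++ z))

/-- the difference of the two sides of claim `B` -/
noncomputable def dB (f : Word → Word → ℕ) (Ψ Ψ' : List ℂ → VW) (g : List ℂ → ℂ) (n : ℕ)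
    (x y : ℂ) (z : List ℂ) : ℂ :=
  BB f Ψ Ψ' x y z - (1 / 3) ^ n * g (x :: y :: (z ++ z))

theorem dC_perm (hq : q ^ 2 + q + 1 = 0) (hg : Pool.Agent.H974R3.GSpec q 1 g) (hf : FSpec f)
    (hΨ : Fam q Ψ) (hΨ' : Fam (q ^ 2) Ψ') (n : ℕ) (y1 y2 : ℂ) {z z' : List ℂ} (hp : z.Perm z') :
    dC q f Ψ Ψ' g n y1 y2 z = dC q f Ψ Ψ' g n y1 y2 z' := by
  unfold dC
  rw [CC_perm hq hf hΨ hΨ' y1 y2 hp, hg.perm _ _ (((hp.append hp).cons y2).cons y1)]

theorem dB_perm (hq : q ^ 2 + q + 1 = 0) (hg : Pool.Agent.H974R3.GSpec q 1 g) (hf : FSpec f)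
    (hΨ : Fam q Ψ) (hΨ' : Fam (q ^ 2) Ψ') (n : ℕ) (x y : ℂ) {z z' : List ℂ} (hp : z.Perm z') :
    dB f Ψ Ψ' g n x y z = dB f Ψ Ψ' g n x y z' := by
  unfold dB
  rw [BB_perm hq hf hΨ hΨ' x y hp, hg.perm _ _ (((hp.append hp).cons y).cons x)]

theorem dC_anti (hq : q ^ 2 + q + 1 = 0) (hg : Pool.Agent.H974R3.GSpec q 1 g) (hf : FSpec f)
    (hΨ : Fam q Ψ) (hΨ' : Fam (q ^ 2) Ψ') (n : ℕ) (y1 y2 : ℂ) (z : List ℂ) :
    (q * y2 - q ^ 2 * y1) * dC q f Ψ Ψ' g n y1 y2 z =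
      (q * y1 - q ^ 2 * y2) * dC q f Ψ Ψ' g n y2 y1 z := by
  have hq3 := cube hq
  have h1 := CC_anti (q := q) hf hΨ hΨ' y1 y2 z
  unfold dC
  rw [hg.perm _ _ (List.Perm.swap y1 y2 _)]
  generalize g (y1 :: y2 :: (z ++ z)) = G
  generalize CC f Ψ Ψ' y1 y2 z = a at *
  generalize CC f Ψ Ψ' y2 y1 z = b at *
  linear_combination h1 + (q * y1 * b - q * y2 * a) * hq3

theorem ofFn_perm {M : ℕ} (ζ : Fin M → ℂ) (j : Fin M) :
    ∃ r : List ℂ, r.length + 1 = M ∧ (List.ofFn ζ).Perm (ζ j :: r) ∧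
      (List.ofFn ζ).Perm (r ++ [ζ j]) := by
  have hj : j.val < (List.ofFn ζ).length := by simp
  have h1 := List.getElem_cons_eraseIdx_perm hj
  have h2 : (List.ofFn ζ)[j.val] = ζ j := by simp
  rw [h2] at h1
  refine ⟨(List.ofFn ζ).eraseIdx j.val, ?_, h1.symm, h1.symm.trans (List.perm_append_singleton _ _).symm⟩
  rw [List.length_eraseIdx_of_lt hj, List.length_ofFn]
  have := j.2
  omega

theorem dC_zero_right (hq : q ^ 2 + q + 1 = 0) (hg : Pool.Agent.H974R3.GSpec q 1 g) (hf : FSpec f)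
    (hΨ : Fam q Ψ) (hΨ' : Fam (q ^ 2) Ψ') {n : ℕ} (hB : ClaimB f Ψ Ψ' g n) (y1 y2 : ℂ)
    (ζ : Fin (2 * n) → ℂ) (j : Fin (2 * n)) (hj : ζ j = q ^ 2 * y2) :
    dC q f Ψ Ψ' g n y1 y2 (List.ofFn ζ) = 0 := by
  obtain ⟨r, hr, hp, -⟩ := ofFn_perm ζ j
  rw [dC_perm hq hg hf hΨ hΨ' n y1 y2 hp, hj, dC, claimC_right hq hg hf hΨ hΨ' hB y1 y2 r hr,
    sub_self]

theorem dC_zero_left (hq : q ^ 2 + q + 1 = 0) (hg : Pool.Agent.H974R3.GSpec q 1 g) (hf : FSpec f)
    (hΨ : Fam q Ψ) (hΨ' : Fam (q ^ 2) Ψ') {n : ℕ} (hB : ClaimB f Ψ Ψ' g n) (y2 : ℂ)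
    (ζ : Fin (2 * n) → ℂ) (j : Fin (2 * n)) :
    dC q f Ψ Ψ' g n (q ^ 2 * ζ j) y2 (List.ofFn ζ) = 0 := by
  obtain ⟨r, hr, -, hp⟩ := ofFn_perm ζ j
  rw [dC_perm hq hg hf hΨ hΨ' n _ y2 hp, dC, claimC_left hq hg hf hΨ hΨ' hB (ζ j) y2 r hr,
    sub_self]

theorem dB_zero_right (hq : q ^ 2 + q + 1 = 0) (hg : Pool.Agent.H974R3.GSpec q 1 g) (hf : FSpec f)
    (hΨ : Fam q Ψ) (hΨ' : Fam (q ^ 2) Ψ') {n : ℕ} (hC : ClaimC q f Ψ Ψ' g n) (x y : ℂ)
    (ζ : Fin (2 * n + 1) → ℂ) (j : Fin (2 * n + 1)) (hj : ζ j = q * x) :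
    dB f Ψ Ψ' g (n + 1) x y (List.ofFn ζ) = 0 := by
  obtain ⟨r, hr, hp, -⟩ := ofFn_perm ζ j
  rw [dB_perm hq hg hf hΨ hΨ' (n + 1) x y hp, hj, dB,
    claimB_right hq hg hΨ hC x y r (by omega), sub_self]

theorem dB_zero_left (hq : q ^ 2 + q + 1 = 0) (hg : Pool.Agent.H974R3.GSpec q 1 g) (hf : FSpec f)
    (hΨ : Fam q Ψ) (hΨ' : Fam (q ^ 2) Ψ') {n : ℕ} (hC : ClaimC q f Ψ Ψ' g n) (y : ℂ)
    (ζ : Fin (2 * n + 1) → ℂ) (j : Fin (2 * n + 1)) :
    dB f Ψ Ψ' g (n + 1) (q * ζ j) y (List.ofFn ζ) = 0 := by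
  obtain ⟨r, hr, -, hp⟩ := ofFn_perm ζ j
  rw [dB_perm hq hg hf hΨ hΨ' (n + 1) _ y hp, dB,
    claimB_left hq hg hf hΨ hΨ' hC (ζ j) y r (by omega), sub_self]

theorem inj_pts (hq : q ^ 2 + q + 1 = 0) {M : ℕ} {ζ : Fin M → ℂ} (hζ : Gn ζ) :
    Function.Injective (Sum.elim (fun j : Fin M => q * ζ j) (fun j : Fin M => q ^ 2 * ζ j)) := by
  have hq3 := cube hq
  have hq0 := q_ne_zero hq
  have hq1 := q_ne_one hq
  have c1 : ∀ a : ℂ, (q * a) ^ 3 = a ^ 3 := fun a => by linear_combination a ^ 3 * hq3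
  have c2 : ∀ a : ℂ, (q ^ 2 * a) ^ 3 = a ^ 3 := fun a => by
    linear_combination a ^ 3 * (q ^ 3 + 1) * hq3
  have c3 : ∀ a : ℂ, a ≠ 0 → q * a ≠ q ^ 2 * a := by
    intro a ha h
    apply hq1
    have : q * a * (q - 1) = 0 := by linear_combination -h
    rcases mul_eq_zero.1 this with h | h
    · exact absurd h (mul_ne_zero hq0 ha)
    · linear_combination h
  have c4 : ∀ i j, ζ i ^ 3 = ζ j ^ 3 → i = j := by
    intro i j hij
    by_contra hne
    exact hζ.2 i j hne hij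
  rintro (i | i) (j | j) hij
  · simp only [Sum.elim_inl] at hij
    rw [c4 i j (by rw [← c1 (ζ i), hij, c1])]
  · exfalso
    simp only [Sum.elim_inl, Sum.elim_inr] at hij
    have : i = j := c4 i j (by rw [← c1 (ζ i), hij, c2])
    subst this
    exact c3 _ (hζ.1 i) hij
  · exfalso
    simp only [Sum.elim_inl, Sum.elim_inr] at hij
    have : i = j := c4 i j (by rw [← c2 (ζ i), hij, c1])
    subst this
    exact c3 _ (hζ.1 i) hij.symm
  · simp only [Sum.elim_inr] at hij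
    rw [c4 i j (by rw [← c2 (ζ i), hij, c2])]

theorem poly_CC (f : Word → Word → ℕ) (hΨ : Fam q Ψ) (hΨ' : Fam (q ^ 2) Ψ') (y1 : ℂ) (z : List ℂ) :
    ∃ P : Polynomial ℂ, P.natDegree ≤ z.length + 1 ∧ ∀ t, CC f Ψ Ψ' y1 t z = P.eval t := by
  have m1 := lins_mem (hΨ.mem z)
  have h : PD (z.length + 2) (0 + (z.length + 2 - 1))
      (fun l => pc f (lin (lins 0) (Ψ z)) (Ψ' l)) :=
    PD_pc (N := z.length + 2) (N' := z.length + 2) f (F := fun _ => lin (lins 0) (Ψ z)) (G := Ψ')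
      (fun _ _ => m1) (fun l hl => hl ▸ hΨ'.mem l) (fun w => PD.const _ _ _)
      (fun w => hΨ'.deg _ w)
  obtain ⟨P, hP, hP'⟩ := h.univ [y1] z (by simp; omega)
  exact ⟨P, by omega, hP'⟩

theorem poly_BB (f : Word → Word → ℕ) (hΨ : Fam q Ψ) (hΨ' : Fam (q ^ 2) Ψ') (y : ℂ) (z : List ℂ) :
    ∃ P : Polynomial ℂ, P.natDegree ≤ z.length ∧ ∀ t, BB f Ψ Ψ' t y z = P.eval t := by
  have h : PD (z.length + 1) ((z.length + 1 - 1) + 0)
      (fun l => pc f (Ψ l) (Ψ' (y :: z))) :=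
    PD_pc (N := z.length + 1) (N' := z.length + 1) f (F := Ψ) (G := fun _ => Ψ' (y :: z))
      (fun l hl => hl ▸ hΨ.mem l) (fun _ _ => hΨ'.mem (y :: z)) (fun w => hΨ.deg _ w)
      (fun w => PD.const _ _ _)
  obtain ⟨P, hP, hP'⟩ := h.univ [] z (by simp)
  exact ⟨P, by omega, hP'⟩

theorem dC_generic (hq : q ^ 2 + q + 1 = 0) (hg : Pool.Agent.H974R3.GSpec q 1 g) (hf : FSpec f)
    (hΨ : Fam q Ψ) (hΨ' : Fam (q ^ 2) Ψ') {n : ℕ} (hn : 1 ≤ n) (hB : ClaimB f Ψ Ψ' g n) (y1 : ℂ)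
    (ζ : Fin (2 * n) → ℂ) (hG : Gn (Fin.cons y1 ζ : Fin (2 * n + 1) → ℂ)) (y2 : ℂ) :
    dC q f Ψ Ψ' g n y1 y2 (List.ofFn ζ) = 0 := by
  have hq3 := cube hq
  have hζ : Gn ζ := hG.tail
  have hy1z : ∀ j, ζ j ^ 3 ≠ y1 ^ 3 := by
    intro j
    have := hG.2 j.succ 0 (Fin.succ_ne_zero _)
    simpa using this
  obtain ⟨Q1, hQ1, hQ1'⟩ := poly_CC f hΨ hΨ' y1 (List.ofFn ζ)
  obtain ⟨P, hP, hP'⟩ := hg.deg (y1 :: (List.ofFn ζ ++ List.ofFn ζ)) (Or.inl rfl)
  have hlen : (y1 :: (List.ofFn ζ ++ List.ofFn ζ)).length / 2 = 2 * n := by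
    simp only [List.length_cons, List.length_append, List.length_ofFn]; omega
  rw [hlen] at hP
  rw [List.length_ofFn] at hQ1
  set D : Polynomial ℂ := Q1 - Polynomial.C ((1 / 3) ^ n * ((1 - q) / 3)) *
    (Polynomial.C (q * y1) - Polynomial.C (q ^ 2) * Polynomial.X) * P with hD
  have hDe : ∀ t, D.eval t = dC q f Ψ Ψ' g n y1 t (List.ofFn ζ) := by
    intro t
    rw [hD, dC, Polynomial.eval_sub, ← hQ1', Polynomial.eval_mul, hP', Polynomial.eval_mul,
      Polynomial.eval_sub, Polynomial.eval_mul, Polynomial.eval_C, Polynomial.eval_C,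
      Polynomial.eval_C, Polynomial.eval_X, hg.perm _ _ (List.Perm.swap y1 t _)]
  have hDd : D.natDegree ≤ 2 * n + 1 := by
    refine (Polynomial.natDegree_sub_le _ _).trans (max_le hQ1 ?_)
    refine (Polynomial.natDegree_mul_le).trans ?_
    have h1 : (Polynomial.C (q * y1) - Polynomial.C (q ^ 2) * Polynomial.X : Polynomial ℂ).natDegree ≤ 1 := by
      refine (Polynomial.natDegree_sub_le _ _).trans (max_le (by
        rw [Polynomial.natDegree_C]; omega) ?_)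
      exact (Polynomial.natDegree_C_mul_le _ _).trans (by simp)
    have h2 := (Polynomial.natDegree_C_mul_le ((1 / 3) ^ n * ((1 - q) / 3))
      (Polynomial.C (q * y1) - Polynomial.C (q ^ 2) * Polynomial.X)).trans h1
    omega
  have hD0 : D = 0 := by
    apply Polynomial.eq_zero_of_natDegree_lt_card_of_eval_eq_zero D (inj_pts hq hζ)
    · rintro (j | j)
      · simp only [Sum.elim_inl]
        rw [hDe]
        exact dC_zero_right hq hg hf hΨ hΨ' hB y1 _ ζ j (by linear_combination -ζ j * hq3)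
      · simp only [Sum.elim_inr]
        rw [hDe]
        have e1 := dC_anti (Ψ := Ψ) hq hg hf hΨ hΨ' n y1 (q ^ 2 * ζ j) (List.ofFn ζ)
        rw [dC_zero_left hq hg hf hΨ hΨ' hB y1 ζ j, mul_zero] at e1
        rcases mul_eq_zero.1 e1 with e2 | e2
        · exfalso
          apply hy1z j
          have : ζ j = q ^ 2 * y1 := by linear_combination e2 - ζ j * hq3
          rw [this]
          linear_combination y1 ^ 3 * (q ^ 3 + 1) * hq3
        · exact e2
    · simp only [Fintype.card_sum, Fintype.card_fin]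
      omega
  rw [← hDe, hD0, Polynomial.eval_zero]

theorem dB_generic (hq : q ^ 2 + q + 1 = 0) (hg : Pool.Agent.H974R3.GSpec q 1 g) (hf : FSpec f)
    (hΨ : Fam q Ψ) (hΨ' : Fam (q ^ 2) Ψ') {n : ℕ} (hC : ClaimC q f Ψ Ψ' g n) (x y : ℂ)
    (ζ : Fin (2 * n + 1) → ℂ) (hζ : Gn ζ) :
    dB f Ψ Ψ' g (n + 1) x y (List.ofFn ζ) = 0 := by
  have hq3 := cube hq
  obtain ⟨Q1, hQ1, hQ1'⟩ := poly_BB f hΨ hΨ' y (List.ofFn ζ)
  obtain ⟨P, hP, hP'⟩ := hg.deg (y :: (List.ofFn ζ ++ List.ofFn ζ)) (Or.inl rfl)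
  have hlen : (y :: (List.ofFn ζ ++ List.ofFn ζ)).length / 2 = 2 * n + 1 := by
    simp only [List.length_cons, List.length_append, List.length_ofFn]; omega
  rw [hlen] at hP
  rw [List.length_ofFn] at hQ1
  set D : Polynomial ℂ := Q1 - Polynomial.C ((1 / 3) ^ (n + 1)) * P with hD
  have hDe : ∀ t, D.eval t = dB f Ψ Ψ' g (n + 1) t y (List.ofFn ζ) := by
    intro t
    rw [hD, dB, Polynomial.eval_sub, ← hQ1', Polynomial.eval_mul, hP', Polynomial.eval_C]
  have hDd : D.natDegree ≤ 2 * n + 1 := by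
    refine (Polynomial.natDegree_sub_le _ _).trans (max_le hQ1 ?_)
    exact (Polynomial.natDegree_C_mul_le _ _).trans hP
  have hD0 : D = 0 := by
    apply Polynomial.eq_zero_of_natDegree_lt_card_of_eval_eq_zero D (inj_pts hq hζ)
    · rintro (j | j)
      · simp only [Sum.elim_inl]
        rw [hDe]
        exact dB_zero_left hq hg hf hΨ hΨ' hC y ζ j
      · simp only [Sum.elim_inr]
        rw [hDe]
        exact dB_zero_right hq hg hf hΨ hΨ' hC _ y ζ j (by linear_combination -ζ j * hq3)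
    · simp only [Fintype.card_sum, Fintype.card_fin]
      omega
  rw [← hDe, hD0, Polynomial.eval_zero]

/-! ### extension to all points -/

theorem cont_pc (f : Word → Word → ℕ) {X : Type*} [TopologicalSpace X] {N N' : ℕ} {F G : X → VW}
    (mF : ∀ x, F x ∈ VN N) (mG : ∀ x, G x ∈ VN N') (cF : ∀ w, Continuous (fun x => F x w))
    (cG : ∀ w, Continuous (fun x => G x w)) : Continuous (fun x => pc f (F x) (G x)) := by
  have h : (fun x => pc f (F x) (G x)) = fun x => ∑ w' ∈ GPropAux.WS N, ∑ w ∈ GPropAux.WS N',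
      ck f w' w * (F x w' * G x w) := by
    funext x
    exact pc_eq f (mF x) (mG x)
  rw [h]
  refine continuous_finsetSum _ fun w' _ => continuous_finsetSum _ fun w _ => ?_
  exact continuous_const.mul ((cF w').mul (cG w))

theorem ofFn_len {N : ℕ} (v : Fin N → ℂ) : (List.ofFn v).length = N := List.length_ofFn

theorem cont_tail {N : ℕ} : Continuous (fun v : Fin (N + 1) → ℂ => (Fin.tail v : Fin N → ℂ)) :=
  continuous_pi fun _ => continuous_apply _

theorem cont_cons {X : Type*} [TopologicalSpace X] {N : ℕ} {a : X → ℂ} {b : X → Fin N → ℂ}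
    (ha : Continuous a) (hb : Continuous b) :
    Continuous (fun x => (Fin.cons (a x) (b x) : Fin (N + 1) → ℂ)) := by
  refine continuous_pi fun j => ?_
  refine Fin.cases ?_ (fun j => ?_) j
  · simpa using ha
  · simp only [Fin.cons_succ]
    exact (continuous_apply j).comp hb

theorem cont_CC (f : Word → Word → ℕ) (hΨ : Fam q Ψ) (hΨ' : Fam (q ^ 2) Ψ') (y2 : ℂ) (N : ℕ) :
    Continuous (fun v : Fin (N + 1) → ℂ => CC f Ψ Ψ' (v 0) y2 (List.ofFn (Fin.tail v))) := by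
  refine cont_pc f (N := N + 2) (N' := N + 2)
    (F := fun v : Fin (N + 1) → ℂ => lin (lins 0) (Ψ (List.ofFn (Fin.tail v))))
    (G := fun v : Fin (N + 1) → ℂ => Ψ' (v 0 :: y2 :: List.ofFn (Fin.tail v))) ?_ ?_ ?_ ?_
  · intro v
    have := hΨ.mem (List.ofFn (Fin.tail v))
    rw [ofFn_len] at this
    exact lins_mem this
  · intro v
    have := hΨ'.mem (v 0 :: y2 :: List.ofFn (Fin.tail v))
    rwa [List.length_cons, List.length_cons, ofFn_len] at this
  · intro w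
    exact (GOnesAux.continuous_of_PD (BLAux.PD_K hΨ (lin (lins 0)) N w)).comp cont_tail
  · intro w
    have h := (GOnesAux.continuous_of_PD (hΨ'.deg (N + 2) w)).comp
      (cont_cons (continuous_apply (0 : Fin (N + 1)))
        (cont_cons (continuous_const (y := y2)) cont_tail))
    refine h.congr fun v => ?_
    simp only [Function.comp_apply]
    rw [List.ofFn_cons, List.ofFn_cons]

theorem cont_BB (f : Word → Word → ℕ) (hΨ : Fam q Ψ) (hΨ' : Fam (q ^ 2) Ψ') (x y : ℂ) (N : ℕ) :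
    Continuous (fun v : Fin N → ℂ => BB f Ψ Ψ' x y (List.ofFn v)) :=
  GOnesAux.continuous_of_PD (PD_BB hΨ hΨ' x y N)

theorem cont_g (hg : Pool.Agent.H974R3.GSpec q 1 g) (x y : ℂ) (N : ℕ) :
    Continuous (fun v : Fin N → ℂ => g (x :: y :: (List.ofFn v ++ List.ofFn v))) := by
  have h1 : ∀ v : Fin N → ℂ, x :: y :: (List.ofFn v ++ List.ofFn v) =
      List.ofFn (Fin.cons x (Fin.cons y (Fin.append v v) : Fin (N + N + 1) → ℂ) :
        Fin (N + N + 2) → ℂ) := by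
    intro v
    rw [List.ofFn_cons, List.ofFn_cons, List.ofFn_fin_append]
  simp_rw [h1]
  refine (hg.cont (N + N + 2)).comp ?_
  refine cont_cons continuous_const (cont_cons continuous_const ?_)
  refine continuous_pi fun j => ?_
  refine Fin.addCases (fun i => ?_) (fun i => ?_) j
  · simp only [Fin.append_left]
    exact continuous_apply _
  · simp only [Fin.append_right]
    exact continuous_apply _

theorem claimC_step (hq : q ^ 2 + q + 1 = 0) (hg : Pool.Agent.H974R3.GSpec q 1 g) (hf : FSpec f)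
    (hΨ : Fam q Ψ) (hΨ' : Fam (q ^ 2) Ψ') {n : ℕ} (hn : 1 ≤ n) (hB : ClaimB f Ψ Ψ' g n) :
    ClaimC q f Ψ Ψ' g n := by
  intro y1 y2 z hz
  have key : (fun v : Fin (2 * n + 1) → ℂ => CC f Ψ Ψ' (v 0) y2 (List.ofFn (Fin.tail v))) =
      (fun v : Fin (2 * n + 1) → ℂ => (1 / 3) ^ n * ((1 - q) / 3) * (q * v 0 - q ^ 2 * y2) *
        g (y2 :: v 0 :: (List.ofFn (Fin.tail v) ++ List.ofFn (Fin.tail v)))) := by
    apply Pool.Agent.H974R3.dense_agree (Dsc (2 * n + 1)) (Dsc_ne _) _ _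
      (cont_CC f hΨ hΨ' y2 (2 * n))
    · refine Continuous.mul ?_ (Pool.Agent.H974R3.g_cont hg n y2)
      fun_prop
    · intro v hv
      have hG : Gn (Fin.cons (v 0) (Fin.tail v) : Fin (2 * n + 1) → ℂ) := by
        rw [Fin.cons_self_tail]
        exact Dsc_gn v hv
      have := dC_generic hq hg hf hΨ hΨ' hn hB (v 0) (Fin.tail v) hG y2
      unfold dC at this
      rw [sub_eq_zero] at this
      rw [this, hg.perm _ _ (List.Perm.swap y2 (v 0) _)]
  subst_vars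
  have h := congrFun key (Fin.cons y1 (fun i : Fin (2 * n) => z.get (Fin.cast hz.symm i)))
  have e : List.ofFn (fun i : Fin (2 * n) => z.get (Fin.cast hz.symm i)) = z := by
    apply List.ext_getElem
    · simp [hz]
    · intro i h1 h2
      simp
  simp only [Fin.cons_zero, Fin.tail_cons, e] at h
  rw [h, hg.perm _ _ (List.Perm.swap y1 y2 _)]

theorem claimB_step (hq : q ^ 2 + q + 1 = 0) (hg : Pool.Agent.H974R3.GSpec q 1 g) (hf : FSpec f)
    (hΨ : Fam q Ψ) (hΨ' : Fam (q ^ 2) Ψ') {n : ℕ} (hC : ClaimC q f Ψ Ψ' g n) :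
    ClaimB f Ψ Ψ' g (n + 1) := by
  intro x y z hz
  have key : (fun v : Fin (2 * n + 1) → ℂ => BB f Ψ Ψ' x y (List.ofFn v)) =
      (fun v : Fin (2 * n + 1) → ℂ => (1 / 3) ^ (n + 1) *
        g (x :: y :: (List.ofFn v ++ List.ofFn v))) := by
    apply Pool.Agent.H974R3.dense_agree (Dsc (2 * n + 1)) (Dsc_ne _) _ _
      (cont_BB f hΨ hΨ' x y (2 * n + 1)) (continuous_const.mul (cont_g hg x y (2 * n + 1)))
    intro v hv
    have := dB_generic hq hg hf hΨ hΨ' hC x y v (Dsc_gn v hv)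
    unfold dB at this
    exact sub_eq_zero.1 this
  have hz' : z.length = 2 * n + 1 := by omega
  have h := congrFun key (fun i : Fin (2 * n + 1) => z.get (Fin.cast hz'.symm i))
  have e : List.ofFn (fun i : Fin (2 * n + 1) => z.get (Fin.cast hz'.symm i)) = z := by
    apply List.ext_getElem
    · simp [hz']
    · intro i h1 h2
      rw [List.getElem_ofFn]
      rfl
  simp only [e] at h
  exact h

/-- the pairing formula for even circumference -/
theorem claimB (hq : q ^ 2 + q + 1 = 0) (hg : Pool.Agent.H974R3.GSpec q 1 g) (hf : FSpec f)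
    (hΨ : Fam q Ψ) (hΨ' : Fam (q ^ 2) Ψ') (n : ℕ) : ClaimB f Ψ Ψ' g (n + 1) := by
  induction n with
  | zero => exact claimB_step hq hg hf hΨ hΨ' (claimC_zero hq hg hf hΨ hΨ')
  | succ n ih =>
    exact claimB_step hq hg hf hΨ hΨ' (claimC_step hq hg hf hΨ hΨ' (by omega) ih)

end Pool.Agent.Helper21.EV
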