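import Pool.Agent.Helper21.EV.Law
import Pool.Agent.Helper21.EV.Val
import Pool.Graph.R_seed8.H906R2.Arm.Box

/-!
# The exact probability that two adjacent clusters wind around the cylinder
-/

namespace Pool.Agent.Helper21.EV

open MeasureTheory ProbabilityTheory Filter Topology Relation
open Pool.Agent.H863R2.Cyl
open Pool.Agent.H988R2.Perc (Word)
open Pool.Agent.Helper21.ID (rw1)

/-! ### average over rows -/

/-- extension of finitely many rows -/
def ex {X : Type*} [Inhabited X] {M : ℕ} (c : Fin M → X) : ℕ → X :=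
  fun t => if h : t < M then c ⟨t, h⟩ else default

theorem sum_push_mul {X Y : Type*} [Fintype X] [Fintype Y] [DecidableEq Y] (g : X → Y)
    (v : X → ℝ) (f : Y → ℝ) : ∑ y, push g v y * f y = ∑ x, v x * f (g x) := by
  unfold push
  simp only [Finset.sum_mul]
  rw [Finset.sum_comm]
  refine Finset.sum_congr rfl fun x _ => ?_
  rw [Finset.sum_eq_single (g x)]
  · simp
  · intro y _ hy
    rw [if_neg (Ne.symm hy), zero_mul]
  · intro h; exact absurd (Finset.mem_univ _) h

theorem rows_stat_bias (m : ℕ) (μ : Wd (m + 1) → ℝ) (h1 : ∑ σ, μ σ = 1)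
    (hst : ∀ σ, ∑ c : Fin (m + 1) → Bool, push (Tc m c) μ σ = 2 ^ (m + 1) * μ σ)
    (M : ℕ) : ∀ (p : ℕ → ℝ) (f : Wd (m + 1) → ℝ),
    ∑ c : Fin M → (Fin (m + 1) → Bool), (∏ t : Fin M, rw1 (p t) (c t)) *
      ∑ σ, μ σ * f (rows m (ex c) M σ) = ∑ σ, μ σ * f σ := by
  induction M with
  | zero =>
    intro p f
    simp [rows]
  | succ M ih =>
    intro p f
    have e : ∑ c : Fin (M + 1) → (Fin (m + 1) → Bool), (∏ t : Fin (M + 1), rw1 (p t) (c t)) *
          ∑ σ, μ σ * f (rows m (ex c) (M + 1) σ)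
        = ∑ z : (Fin (m + 1) → Bool) × (Fin M → (Fin (m + 1) → Bool)),
          (rw1 (p M) z.1 * ∏ t : Fin M, rw1 (p t) (z.2 t)) *
          ∑ σ, μ σ * f (Tc m z.1 (rows m (ex z.2) M σ)) := by
      apply Fintype.sum_equiv (Fin.snocEquiv (fun _ => Fin (m + 1) → Bool)).symm
      intro c
      have h0 : ((Fin.snocEquiv (fun _ => Fin (m + 1) → Bool)).symm c)
          = (c (Fin.last M), fun i : Fin M => c i.castSucc) := rfl
      rw [h0]
      have hp : (∏ t : Fin (M + 1), rw1 (p t) (c t))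
          = rw1 (p M) (c (Fin.last M)) * ∏ t : Fin M, rw1 (p t) (c t.castSucc) := by
        rw [Fin.prod_univ_castSucc, mul_comm]
        rfl
      rw [hp]
      congr 1
      apply Finset.sum_congr rfl
      intro σ _
      have h1 : ex c M = c (Fin.last M) := by
        unfold ex; rw [dif_pos (Nat.lt_succ_self M)]; rfl
      have h2 : rows m (ex c) M σ = rows m (ex (fun i : Fin M => c i.castSucc)) M σ := by
        apply rows_congr'
        intro t ht
        unfold ex
        rw [dif_pos (by omega), dif_pos ht]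
        rfl
      show μ σ * f (Tc m (ex c M) (rows m (ex c) M σ)) = _
      rw [h1, h2]
    rw [e, Fintype.sum_prod_type]
    have e2 : ∀ x : Fin (m + 1) → Bool, ∑ y : Fin M → (Fin (m + 1) → Bool),
        (rw1 (p M) x * ∏ t : Fin M, rw1 (p t) (y t)) *
          ∑ σ, μ σ * f (Tc m x (rows m (ex y) M σ))
        = rw1 (p M) x * ∑ σ, μ σ * f (Tc m x σ) := by
      intro x
      rw [← ih p (fun σ => f (Tc m x σ)), Finset.mul_sum]
      refine Finset.sum_congr rfl fun y _ => ?_
      ring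
    simp only [e2]
    have e3 : ∀ x : Fin (m + 1) → Bool, ∑ σ, μ σ * f (Tc m x σ)
        = ∑ σ, push (Tc m x) μ σ * f σ := fun x => (sum_push_mul _ _ _).symm
    simp only [e3, Finset.mul_sum]
    rw [Finset.sum_comm]
    refine Finset.sum_congr rfl fun σ _ => ?_
    have := stat_bias m μ h1 hst (p M) σ
    rw [← this, Finset.sum_mul]
    refine Finset.sum_congr rfl fun c _ => ?_
    ring

/-! ### measurability -/

/-- connections by at most `k` steps -/
def rch {α : Type*} (G : α → α → Prop) (a : α) : ℕ → α → Prop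
  | 0, b => a = b
  | (k + 1), b => rch G a k b ∨ ∃ c, rch G a k c ∧ (G c b ∨ G b c)

theorem rch_eqv {α : Type*} {G : α → α → Prop} {a : α} {k : ℕ} {b : α} (h : rch G a k b) :
    EqvGen G a b := by
  induction k generalizing b with
  | zero => cases h; exact EqvGen.refl _
  | succ k ih =>
    rcases h with h | ⟨c, h1, h2 | h2⟩
    · exact ih h
    · exact (ih h1).trans _ _ _ (EqvGen.rel _ _ h2)
    · exact (ih h1).trans _ _ _ (EqvGen.rel _ _ h2).symm

theorem rch_trans {α : Type*} {G : α → α → Prop} {a b c : α} {k l : ℕ} (h : rch G a k b)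
    (h' : rch G b l c) : rch G a (k + l) c := by
  induction l generalizing c with
  | zero => cases h'; exact h
  | succ l ih =>
    rcases h' with h' | ⟨d, h1, h2⟩
    · exact Or.inl (ih h')
    · exact Or.inr ⟨d, ih h1, h2⟩

theorem rch_symm {α : Type*} {G : α → α → Prop} {a b : α} {k : ℕ} (h : rch G a k b) :
    ∃ l, rch G b l a := by
  induction k generalizing b with
  | zero => cases h; exact ⟨0, rfl⟩
  | succ k ih =>
    rcases h with h | ⟨c, h1, h2⟩
    · exact ih h
    · obtain ⟨l, hl⟩ := ih h1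
      exact ⟨1 + l, rch_trans (Or.inr ⟨b, rfl, h2.symm⟩) hl⟩

theorem eqv_rch {α : Type*} {G : α → α → Prop} {a b : α} : EqvGen G a b ↔ ∃ k, rch G a k b := by
  constructor
  · intro h
    induction h with
    | rel x y h => exact ⟨1, Or.inr ⟨x, rfl, Or.inl h⟩⟩
    | refl x => exact ⟨0, rfl⟩
    | symm x y _ ih =>
      obtain ⟨k, hk⟩ := ih
      exact rch_symm hk
    | trans x y z _ _ ih1 ih2 =>
      obtain ⟨k, hk⟩ := ih1
      obtain ⟨l, hl⟩ := ih2
      exact ⟨k + l, rch_trans hk hl⟩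
  · rintro ⟨k, hk⟩
    exact rch_eqv hk

theorem measurableSet_eqvGen {Ω α : Type*} [MeasurableSpace Ω] [Countable α]
    (G : Ω → α → α → Prop) (hG : ∀ a b, MeasurableSet {ω | G ω a b}) (a b : α) :
    MeasurableSet {ω | EqvGen (G ω) a b} := by
  have h1 : ∀ k b, MeasurableSet {ω | rch (G ω) a k b} := by
    intro k
    induction k with
    | zero => intro b; exact MeasurableSet.const _
    | succ k ih =>
      intro b
      have e : {ω | rch (G ω) a (k + 1) b} = {ω | rch (G ω) a k b} ∪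
          ⋃ c, ({ω | rch (G ω) a k c} ∩ ({ω | G ω c b} ∪ {ω | G ω b c})) := by
        ext ω
        simp only [Set.mem_union, Set.mem_iUnion, Set.mem_inter_iff]
        exact Iff.rfl
      rw [e]
      exact (ih b).union (MeasurableSet.iUnion fun c => (ih c).inter ((hG _ _).union (hG _ _)))
  have e : {ω | EqvGen (G ω) a b} = ⋃ k, {ω | rch (G ω) a k b} := by
    ext ω
    simp only [Set.mem_iUnion]
    exact eqv_rch
  rw [e]
  exact MeasurableSet.iUnion fun k => h1 k b

variable {m : ℕ}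

theorem measurableSet_coord (z : Fin (m + 1) × ℤ) (b : Bool) :
    MeasurableSet {ω : Fin (m + 1) × ℤ → Bool | ω z = b} := by
  have h : Measurable fun ω : Fin (m + 1) × ℤ → Bool => ω z := measurable_pi_apply z
  exact h (measurableSet_singleton b)

theorem link_cases (ω : Fin (m + 1) × ℤ → Bool) (a b : ℤ × ℤ) : Link ω a b ↔
    ((b = (a.1 + 1, a.2 + 1) ∧ ω (col m a.1, a.2) = false) ∨
      (a.1 = b.1 + 1 ∧ b.2 = a.2 + 1 ∧ ω (col m b.1, a.2) = true)) := by
  constructor
  · intro h
    cases h with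
    | ur j t h => exact Or.inl ⟨rfl, h⟩
    | ul j t h => exact Or.inr ⟨rfl, rfl, h⟩
  · rintro (⟨h1, h2⟩ | ⟨h1, h2, h3⟩)
    · obtain ⟨j, t⟩ := a
      rw [h1]
      exact Link.ur j t h2
    · obtain ⟨j, t⟩ := a
      obtain ⟨j', t'⟩ := b
      simp only at h1 h2 h3
      rw [h1, h2]
      exact Link.ul j' t h3

theorem measurableSet_link (a b : ℤ × ℤ) :
    MeasurableSet {ω : Fin (m + 1) × ℤ → Bool | Link ω a b} := by
  have e : {ω : Fin (m + 1) × ℤ → Bool | Link ω a b} =
      ({_ω | b = (a.1 + 1, a.2 + 1)} ∩ {ω | ω (col m a.1, a.2) = false}) ∪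
      ({_ω | a.1 = b.1 + 1 ∧ b.2 = a.2 + 1} ∩ {ω | ω (col m b.1, a.2) = true}) := by
    ext ω
    have := link_cases ω a b
    simp only [Set.mem_union, Set.mem_inter_iff, Set.mem_ofPred_eq]
    rw [this, and_assoc]
  rw [e]
  exact ((MeasurableSet.const _).inter (measurableSet_coord _ _)).union
    ((MeasurableSet.const _).inter (measurableSet_coord _ _))

theorem measurableSet_wraps (a : ℤ × ℤ) :
    MeasurableSet {ω : Fin (m + 1) × ℤ → Bool | Wraps ω a} :=
  measurableSet_eqvGen (fun ω : Fin (m + 1) × ℤ → Bool => Link ω) measurableSet_link _ _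

/-! ### rows with prescribed states -/

/-- none of the rows `t, …, t+M-1` is equal to `c` -/
def Bad (c : Fin (m + 1) → Bool) (t : ℤ) (M : ℕ) : Set (Fin (m + 1) × ℤ → Bool) :=
  {ω | ∀ s : Fin M, ¬ ((fun j => ω (j, t + (s : ℕ))) = c)}

theorem measurableSet_bad (c : Fin (m + 1) → Bool) (t : ℤ) (M : ℕ) :
    MeasurableSet (Bad c t M) := by
  have h1 : ∀ s : Fin M, MeasurableSet {ω : Fin (m + 1) × ℤ → Bool |
      (fun j => ω (j, t + (s : ℕ))) = c} := by
    intro s
    have h : {ω : Fin (m + 1) × ℤ → Bool | (fun j => ω (j, t + (s : ℕ))) = c} =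
        ⋂ j, {ω | ω (j, t + (s : ℕ)) = c j} := by
      ext ω
      simp only [Set.mem_iInter]
      exact funext_iff
    rw [h]
    exact MeasurableSet.iInter fun j => measurableSet_coord _ _
  have h : Bad c t M = ⋂ s : Fin M,
      {ω : Fin (m + 1) × ℤ → Bool | (fun j => ω (j, t + (s : ℕ))) = c}ᶜ := by
    ext ω
    simp only [Set.mem_iInter]
    exact Iff.rfl
  rw [h]
  exact MeasurableSet.iInter fun s => (h1 s).compl

/-- the biases stay away from `0` and `1` -/
def Ell (ε : ℝ) (p : ℤ → unitInterval) : Prop := 0 < ε ∧ ∀ t, ε ≤ (p t : ℝ) ∧ (p t : ℝ) ≤ 1 - ε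

theorem rw1_ge {ε q : ℝ} (h0 : 0 < ε) (h1 : ε ≤ q) (h2 : q ≤ 1 - ε) (c : Fin (m + 1) → Bool) :
    ε ^ (m + 1) ≤ rw1 q c := by
  unfold rw1
  calc ε ^ (m + 1) = ∏ _j : Fin (m + 1), ε := by simp
    _ ≤ _ := by
      refine Finset.prod_le_prod (fun _ _ => h0.le) fun j _ => ?_
      split_ifs
      · exact h1
      · linarith

theorem bad_le {ε : ℝ} {p : ℤ → unitInterval} (hp : Ell ε p) (c0 : Fin (m + 1) → Bool) (t : ℤ)
    (M : ℕ) : (coins m p).real (Bad c0 t M) ≤ (1 - ε ^ (m + 1)) ^ M := by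
  classical
  set G : (Fin M → Fin (m + 1) → Bool) × (Fin M → Fin (m + 1) → Bool) → ℝ :=
    fun x => ∏ s : Fin M, (if x.1 s = c0 then 0 else 1) with hG
  have h1 : ∀ ω, (Bad c0 t M).indicator (fun _ => (1 : ℝ)) ω = G (win (t + M) M ω) := by
    intro ω
    have h2 : ∀ s : Fin M, ((win (t + M) M ω).1 s = c0) ↔
        ((fun j => ω (j, t + (s : ℕ))) = c0) := by
      intro s
      show (fun j => ω (j, t + M - M + ((s : ℕ) : ℤ))) = c0 ↔ _
      rw [add_sub_cancel_right]
    by_cases h : ω ∈ Bad c0 t M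
    · rw [Set.indicator_of_mem h]
      symm
      show ∏ s : Fin M, (if (win (t + M) M ω).1 s = c0 then (0 : ℝ) else 1) = 1
      refine Finset.prod_eq_one fun s _ => ?_
      rw [if_neg]
      rw [h2]
      exact h s
    · rw [Set.indicator_of_notMem h]
      symm
      have h' : ∃ s : Fin M, (fun j => ω (j, t + (s : ℕ))) = c0 := by
        by_contra hc
        push Not at hc
        exact h hc
      obtain ⟨s, hs⟩ := h'
      show ∏ s : Fin M, (if (win (t + M) M ω).1 s = c0 then (0 : ℝ) else 1) = 0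
      refine Finset.prod_eq_zero (Finset.mem_univ s) ?_
      rw [if_pos ((h2 s).2 hs)]
  have h3 : (coins m p).real (Bad c0 t M) = ∫ ω, G (win (t + M) M ω) ∂(coins m p) := by
    rw [← integral_indicator_one (measurableSet_bad c0 t M)]
    refine integral_congr_ae (Eventually.of_forall fun ω => ?_)
    exact h1 ω
  rw [h3, integral_win]
  have h4 : ∀ a : Fin M → Fin (m + 1) → Bool, ∑ b : Fin M → Fin (m + 1) → Bool,
      (∏ s : Fin M, rw1 (p (t + M - M + (s : ℕ)) : ℝ) (a s)) *
        (∏ s : Fin M, rw1 (1 - (p (t + M + M - 1 - (s : ℕ)) : ℝ)) (b s)) * G (a, b)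
      = ∏ s : Fin M, (rw1 (p (t + M - M + (s : ℕ)) : ℝ) (a s) * (if a s = c0 then 0 else 1)) := by
    intro a
    have h5 : ∑ b : Fin M → Fin (m + 1) → Bool,
        (∏ s : Fin M, rw1 (1 - (p (t + M + M - 1 - (s : ℕ)) : ℝ)) (b s)) = 1 := by
      have := Finset.prod_univ_sum (fun _ : Fin M => (Finset.univ : Finset (Fin (m + 1) → Bool)))
        (fun s x => rw1 (1 - (p (t + M + M - 1 - ((s : ℕ) : ℤ)) : ℝ)) x)
      simp only [Fintype.piFinset_univ] at this
      rw [← this]
      refine Finset.prod_eq_one fun s _ => ?_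
      exact sum_rw1 _
    have h6 : ∀ b : Fin M → Fin (m + 1) → Bool,
        (∏ s : Fin M, rw1 (p (t + M - M + (s : ℕ)) : ℝ) (a s)) *
        (∏ s : Fin M, rw1 (1 - (p (t + M + M - 1 - (s : ℕ)) : ℝ)) (b s)) * G (a, b)
        = (∏ s : Fin M, rw1 (1 - (p (t + M + M - 1 - (s : ℕ)) : ℝ)) (b s)) *
          ∏ s : Fin M, (rw1 (p (t + M - M + (s : ℕ)) : ℝ) (a s) *
            (if a s = c0 then 0 else 1)) := by
      intro b
      rw [Finset.prod_mul_distrib]
      show _ * _ * (∏ s : Fin M, (if a s = c0 then (0 : ℝ) else 1)) = _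
      ring
    simp only [h6]
    rw [← Finset.sum_mul, h5, one_mul]
  simp only [h4]
  have h7 := Finset.prod_univ_sum (fun _ : Fin M => (Finset.univ : Finset (Fin (m + 1) → Bool)))
        (fun s x => rw1 (p (t + M - M + ((s : ℕ) : ℤ)) : ℝ) x * (if x = c0 then 0 else 1))
  simp only [Fintype.piFinset_univ] at h7
  rw [← h7]
  calc _ ≤ ∏ _s : Fin M, (1 - ε ^ (m + 1)) := by
        refine Finset.prod_le_prod ?_ ?_
        · intro s _
          refine Finset.sum_nonneg fun x _ => ?_
          refine mul_nonneg (rw1_nonneg (p _).2.1 (p _).2.2 x) ?_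
          split_ifs <;> norm_num
        · intro s _
          have h8 : ∀ q : ℝ, ∑ x : Fin (m + 1) → Bool, rw1 q x * (if x = c0 then 0 else 1)
              = 1 - rw1 q c0 := by
            intro q
            have h9 : ∀ x : Fin (m + 1) → Bool, rw1 q x * (if x = c0 then 0 else 1)
              = rw1 q x - (if x = c0 then rw1 q c0 else 0) := by
              intro x
              split_ifs with hx
              · rw [hx]; ring
              · ring
            simp only [h9]
            rw [Finset.sum_sub_distrib, sum_rw1]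
            simp
          rw [h8]
          have := rw1_ge hp.1 (hp.2 (t + M - M + ((s : ℕ) : ℤ))).1
            (hp.2 (t + M - M + ((s : ℕ) : ℤ))).2 c0
          linarith
    _ = _ := by simp

theorem ell_le_half {ε : ℝ} {p : ℤ → unitInterval} (hp : Ell ε p) : ε ≤ 1 / 2 := by
  have := hp.2 0
  linarith

theorem tendsto_bad {ε : ℝ} {p : ℤ → unitInterval} (hp : Ell ε p) :
    Tendsto (fun M : ℕ => (1 - ε ^ (m + 1)) ^ M) atTop (𝓝 0) := by
  have h1 := ell_le_half hp
  have h2 : 0 < ε ^ (m + 1) := pow_pos hp.1 _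
  have h3 : ε ^ (m + 1) ≤ 1 := pow_le_one₀ hp.1.le (by linarith)
  exact tendsto_pow_atTop_nhds_zero_of_lt_one (by linarith) (by linarith)

/-! ### translations around the cylinder -/

/-- rotation of the columns -/
def rotE (m : ℕ) (k : ℤ) : Fin (m + 1) × ℤ ≃ Fin (m + 1) × ℤ :=
  (Equiv.addRight (col m k)).prodCongr (Equiv.refl ℤ)

theorem coins_rot (p : ℤ → unitInterval) (k : ℤ) :
    (coins m p).map (fun ω z => ω (rotE m k z)) = coins m p := by
  have hmeas : Measurable fun (ω : Fin (m + 1) × ℤ → Bool) z => ω (rotE m k z) :=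
    measurable_pi_lambda _ fun z => measurable_pi_apply _
  conv_rhs => unfold coins
  apply Measure.eq_infinitePi
  intro s t ht
  rw [Measure.map_apply hmeas (MeasurableSet.pi s.countable_toSet fun i _ => ht i)]
  have e : (fun (ω : Fin (m + 1) × ℤ → Bool) z => ω (rotE m k z)) ⁻¹' (Set.pi s t) =
      Set.pi (s.map (rotE m k).toEmbedding) (fun z => t ((rotE m k).symm z)) := by
    ext ω
    simp only [Set.mem_preimage, Set.mem_pi, Finset.coe_map, Equiv.coe_toEmbedding]
    constructor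
    · rintro h z ⟨z', hz', rfl⟩
      rw [Equiv.symm_apply_apply]
      exact h z' hz'
    · intro h z hz
      have := h _ (Set.mem_image_of_mem _ hz)
      rwa [Equiv.symm_apply_apply] at this
  rw [e]
  unfold coins
  rw [Measure.infinitePi_pi _ (fun z _ => ht _), Finset.prod_map]
  refine Finset.prod_congr rfl fun z _ => ?_
  show (bernoulliMeasure true false (p (rotE m k z).2)) (t ((rotE m k).symm (rotE m k z))) = _
  rw [(rotE m k).symm_apply_apply z]
  rfl

theorem col_add (j k : ℤ) : col m j + col m k = col m (j + k) := by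
  apply Fin.ext
  rw [Fin.val_add]
  unfold col
  simp only
  have h1 := Int.emod_nonneg j (show (m + 1 : ℤ) ≠ 0 by omega)
  have h2 := Int.emod_nonneg k (show (m + 1 : ℤ) ≠ 0 by omega)
  have h3 := Int.emod_nonneg (j + k) (show (m + 1 : ℤ) ≠ 0 by omega)
  zify
  rw [Int.toNat_of_nonneg h1, Int.toNat_of_nonneg h2, Int.toNat_of_nonneg h3]
  rw [← Int.add_emod]

theorem eqv_rot (ω : Fin (m + 1) × ℤ → Bool) (k : ℤ) (a b : ℤ × ℤ) :
    EqvGen (Link (fun z => ω (rotE m k z))) a b ↔
      EqvGen (Link ω) (a.1 + k, a.2) (b.1 + k, b.2) := by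
  have hval : ∀ j t, ω (rotE m k (col m j, t)) = ω (col m (j + k), t) := by
    intro j t
    show ω (col m j + col m k, t) = _
    rw [col_add]
  have h1 : ∀ a b, Link (fun z => ω (rotE m k z)) a b ↔
      Link ω (a.1 + k, a.2) (b.1 + k, b.2) := by
    intro a b
    rw [link_cases, link_cases, hval, hval]
    obtain ⟨x, s⟩ := a
    obtain ⟨y, u⟩ := b
    simp only [Prod.mk.injEq]
    constructor
    · rintro (⟨⟨h1, h2⟩, h3⟩ | ⟨h1, h2, h3⟩)
      · exact Or.inl ⟨⟨by omega, h2⟩, h3⟩
      · exact Or.inr ⟨by omega, h2, h3⟩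
    · rintro (⟨⟨h1, h2⟩, h3⟩ | ⟨h1, h2, h3⟩)
      · exact Or.inl ⟨⟨by omega, h2⟩, h3⟩
      · exact Or.inr ⟨by omega, h2, h3⟩
  constructor
  · intro h
    exact eqv_map' (fun x : ℤ × ℤ => (x.1 + k, x.2)) (fun a b hab => EqvGen.rel _ _ ((h1 a b).1 hab)) h
  · intro h
    have := eqv_map' (G' := Link (fun z => ω (rotE m k z))) (fun x : ℤ × ℤ => (x.1 - k, x.2))
      (fun a b hab => EqvGen.rel _ _ ((h1 _ _).2 (by simpa using hab))) h
    simpa using this

theorem wraps_rot (ω : Fin (m + 1) × ℤ → Bool) (k j t : ℤ) :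
    Wraps (fun z => ω (rotE m k z)) (j, t) ↔ Wraps ω (j + k, t) := by
  unfold Wraps
  rw [eqv_rot]
  show EqvGen (Link ω) (j + k, t) (j + (m + 1) + k, t) ↔ EqvGen (Link ω) (j + k, t) (j + k + (m + 1), t)
  rw [show j + ((m : ℤ) + 1) + k = j + k + (m + 1) by ring]

theorem real_rot (p : ℤ → unitInterval) (k : ℤ) {S : Set (Fin (m + 1) × ℤ → Bool)}
    (hS : MeasurableSet S) :
    (coins m p).real ((fun (ω : Fin (m + 1) × ℤ → Bool) z => ω (rotE m k z)) ⁻¹' S) =
      (coins m p).real S := by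
  have hmeas : Measurable fun (ω : Fin (m + 1) × ℤ → Bool) z => ω (rotE m k z) :=
    measurable_pi_lambda _ fun z => measurable_pi_apply _
  rw [← map_measureReal_apply hmeas hS, coins_rot]

end Pool.Agent.Helper21.EV
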